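import Pool.Agent.Lib.MP_26a7e2_co.Defs

/-!
# MP_26a7e2_co : basic lemmas on covectors
-/

namespace Pool.Agent.Sweep

variable {E : Type}

theorem IsOM.elim2 {L : Set (SV E)} (h : IsOM L) {X Y : SV E} (hX : X ∈ L) (hY : Y ∈ L) {e : E}
    (h1 : X e ≠ 0) (h2 : Y e = -X e) : ∃ Z ∈ L, Z e = 0 ∧ (∀ f, X f = Y f → Z f = X f) ∧
      (∀ f, X f = 0 → Z f = Y f) ∧ (∀ f, Y f = 0 → Z f = X f) := by
  obtain ⟨Z, hZ, h0, hc⟩ := h.elim X hX Y hY e ⟨h1, h2⟩
  refine ⟨Z, hZ, h0, fun f hf => ?_, fun f hf => ?_, fun f hf => ?_⟩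
  · rw [hc f]
    · unfold scomp
      split_ifs with h
      · rw [← hf]
      · rfl
    · rintro ⟨h3, h4⟩
      rw [← hf] at h4
      revert h3 h4
      generalize X f = a
      revert a
      decide
  · rw [hc f]
    · simp [scomp, hf]
    · rintro ⟨h3, -⟩
      exact h3 hf
  · rw [hc f]
    · unfold scomp
      split_ifs with h
      · rw [hf, h]
      · rfl
    · rintro ⟨h3, h4⟩
      rw [hf] at h4
      revert h3 h4
      generalize X f = a
      revert a
      decide

/-- contraction -/
theorem IsOM.contr {L : Set (SV E)} (h : IsOM L) (t : E) : IsOM {X | X ∈ L ∧ X t = 0} where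
  zero := ⟨h.zero, rfl⟩
  neg X hX := ⟨h.neg X hX.1, by simp [hX.2]⟩
  comp X hX Y hY := ⟨h.comp X hX.1 Y hY.1, by simp [scomp, hX.2, hY.2]⟩
  elim X hX Y hY e he := by
    obtain ⟨Z, hZ, h0, hc⟩ := h.elim X hX.1 Y hY.1 e he
    refine ⟨Z, ⟨hZ, ?_⟩, h0, hc⟩
    rw [hc t (fun h => h.1 hX.2)]
    simp [scomp, hX.2, hY.2]

/-- Steinitz' lemma -/
theorem steinitz (T : Finset E) : ∀ (L : Set (SV E)) (_ : IsOM L) (I : Finset E) (_ : Indep L I)
    (_ : ∀ X ∈ L, (∀ t ∈ T, X t = 0) → ∀ e ∈ I, X e = 0), I.card ≤ T.card := by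
  classical
  induction T using Finset.induction_on with
  | empty =>
    intro L hL I hI hT
    rcases I.eq_empty_or_nonempty with h | ⟨e, he⟩
    · simp [h]
    · obtain ⟨X, hX, h1, -⟩ := hI e he
      exact absurd (hT X hX (by simp) e he) h1
  | insert t T ht ih =>
    intro L hL I hI hT
    have hT' : ∀ X ∈ {X | X ∈ L ∧ X t = 0}, (∀ s ∈ T, X s = 0) → ∀ e ∈ I, X e = 0 := by
      intro X hX hs e he
      refine hT X hX.1 ?_ e he
      intro s hs'
      rcases Finset.mem_insert.1 hs' with h | h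
      · rw [h]; exact hX.2
      · exact hs s h
    rw [Finset.card_insert_of_notMem ht]
    by_cases hall : ∀ e ∈ I, ∃ X ∈ L, X t = 0 ∧ X e ≠ 0 ∧ ∀ f ∈ I, f ≠ e → X f = 0
    · have hI' : Indep {X | X ∈ L ∧ X t = 0} I := by
        intro e he
        obtain ⟨X, hX, h1, h2, h3⟩ := hall e he
        exact ⟨X, ⟨hX, h1⟩, h2, h3⟩
      have := ih _ (hL.contr t) I hI' hT'
      omega
    · push Not at hall
      obtain ⟨e₀, he₀, hbad⟩ := hall
      obtain ⟨X₀, hX₀, h10, h20⟩ := hI e₀ he₀
      have ht0 : X₀ t ≠ 0 := by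
        intro h
        obtain ⟨f, hf, hfe, hne⟩ := hbad X₀ hX₀ h h10
        exact hne (h20 f hf hfe)
      have hI' : Indep {X | X ∈ L ∧ X t = 0} (I.erase e₀) := by
        intro e he
        obtain ⟨hne, heI⟩ := Finset.mem_erase.1 he
        obtain ⟨X, hX, h1, h2⟩ := hI e heI
        have key : ∀ X' : SV E, X' ∈ L → X' e ≠ 0 → (∀ f ∈ I, f ≠ e → X' f = 0) →
            X' t = -X₀ t → ∃ Z ∈ {X | X ∈ L ∧ X t = 0}, Z e ≠ 0 ∧
              ∀ f ∈ I.erase e₀, f ≠ e → Z f = 0 := by
          intro X' hX' h1 h2 h3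
          obtain ⟨Z, hZ, hz0, ha, hb, hc⟩ := hL.elim2 hX₀ hX' ht0 h3
          refine ⟨Z, ⟨hZ, hz0⟩, ?_, ?_⟩
          · rw [hb e (h20 e heI hne)]
            exact h1
          · intro f hf hfe
            obtain ⟨hf1, hf2⟩ := Finset.mem_erase.1 hf
            rw [hb f (h20 f hf2 hf1)]
            exact h2 f hf2 hfe
        by_cases h4 : X t = 0
        · refine ⟨X, ⟨hX, h4⟩, h1, ?_⟩
          intro f hf hfe
          exact h2 f (Finset.mem_erase.1 hf).2 hfe
        · have h5 : X t = -X₀ t ∨ (-X t) = -X₀ t := by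
            revert h4 ht0
            generalize X t = a
            generalize X₀ t = b
            revert a b
            decide
          rcases h5 with h5 | h5
          · exact key X hX h1 h2 h5
          · refine key (fun e => -X e) (hL.neg X hX) ?_ ?_ h5
            · simpa using h1
            · intro f hf hfe
              simp [h2 f hf hfe]
      have h6 := ih _ (hL.contr t) _ hI' (fun X hX hs e he =>
        hT' X hX hs e (Finset.mem_erase.1 he).2)
      rw [Finset.card_erase_of_mem he₀] at h6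
      omega

theorem le_rk {L : Set (SV E)} {F I : Finset E} (h : I ⊆ F) (hI : Indep L I) :
    I.card ≤ rk L F := by
  classical
  unfold rk
  refine Finset.le_sup (f := Finset.card) ?_
  rw [Finset.mem_filter, Finset.mem_powerset]
  exact ⟨h, hI⟩

theorem rk_le {L : Set (SV E)} {F : Finset E} {k : ℕ}
    (h : ∀ I ⊆ F, Indep L I → I.card ≤ k) : rk L F ≤ k := by
  classical
  unfold rk
  refine Finset.sup_le ?_
  intro I hI
  rw [Finset.mem_filter, Finset.mem_powerset] at hI
  exact h I hI.1 hI.2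

theorem exists_indep (L : Set (SV E)) (F : Finset E) :
    ∃ I ⊆ F, Indep L I ∧ I.card = rk L F := by
  classical
  have hne : (F.powerset.filter (Indep L)).Nonempty := by
    refine ⟨∅, ?_⟩
    rw [Finset.mem_filter, Finset.mem_powerset]
    exact ⟨by simp, by intro e he; simp at he⟩
  obtain ⟨I, hI, h⟩ := Finset.exists_mem_eq_sup _ hne Finset.card
  rw [Finset.mem_filter, Finset.mem_powerset] at hI
  exact ⟨I, hI.1, hI.2, by unfold rk; exact h.symm⟩

theorem Indep.mono {L : Set (SV E)} {I J : Finset E} (h : Indep L J) (hIJ : I ⊆ J) :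
    Indep L I := by
  intro e he
  obtain ⟨X, hX, h1, h2⟩ := h e (hIJ he)
  exact ⟨X, hX, h1, fun f hf hfe => h2 f (hIJ hf) hfe⟩

theorem indep_insert [DecidableEq E] {L : Set (SV E)} (hL : IsOM L) {I : Finset E}
    (hI : Indep L I) {X : SV E} (hX : X ∈ L) (h0 : ∀ f ∈ I, X f = 0) {g : E} (hg : X g ≠ 0) :
    Indep L (insert g I) := by
  intro e he
  rcases Finset.mem_insert.1 he with rfl | heI
  · refine ⟨X, hX, hg, ?_⟩
    intro f hf hfe
    rcases Finset.mem_insert.1 hf with h | h
    · exact absurd h hfe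
    · exact h0 f h
  · have hge : g ≠ e := by
      rintro rfl
      exact hg (h0 g heI)
    obtain ⟨Y, hY, h1, h2⟩ := hI e heI
    have key : ∀ X' : SV E, X' ∈ L → X' g = -Y g → (∀ f ∈ I, X' f = 0) → Y g ≠ 0 →
        ∃ Z ∈ L, Z e ≠ 0 ∧ ∀ f ∈ insert g I, f ≠ e → Z f = 0 := by
      intro X' hX' h3 h4 h5
      obtain ⟨Z, hZ, hz0, ha, hb, hc⟩ := hL.elim2 hY hX' h5 h3
      refine ⟨Z, hZ, ?_, ?_⟩
      · rw [hc e (h4 e heI)]
        exact h1
      · intro f hf hfe
        rcases Finset.mem_insert.1 hf with rfl | h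
        · exact hz0
        · rw [hc f (h4 f h)]
          exact h2 f h hfe
    by_cases h5 : Y g = 0
    · refine ⟨Y, hY, h1, ?_⟩
      intro f hf hfe
      rcases Finset.mem_insert.1 hf with rfl | h
      · exact h5
      · exact h2 f h hfe
    · have h6 : X g = -Y g ∨ (-X g) = -Y g := by
        revert hg h5
        generalize X g = a
        generalize Y g = b
        revert a b
        decide
      rcases h6 with h6 | h6
      · exact key X hX h6 h0 h5
      · exact key (fun e => -X e) (hL.neg X hX) h6 (fun f hf => by simp [h0 f hf]) h5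

/-- if `I` has the maximal rank then covectors which vanish on `I` vanish -/
theorem vanish_of_full [DecidableEq E] {L : Set (SV E)} (hL : IsOM L) {F I : Finset E}
    (hI : Indep L I) (hr : rk L F ≤ I.card) (hIF : I ⊆ F) {X : SV E} (hX : X ∈ L)
    (h0 : ∀ f ∈ I, X f = 0) : ∀ g ∈ F, X g = 0 := by
  intro g hg
  by_contra h
  have h1 := indep_insert hL hI hX h0 h
  have h2 : g ∉ I := fun h' => h (h0 g h')
  have h3 := le_rk (L := L) (F := F) (I := insert g I) (by
    intro x hx
    rcases Finset.mem_insert.1 hx with rfl | hx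
    · exact hg
    · exact hIF hx) h1
  rw [Finset.card_insert_of_notMem h2] at h3
  omega

/-- all patterns appear on independent sets -/
theorem indep_pattern {L : Set (SV E)} (hL : IsOM L) {I : Finset E} (hI : Indep L I)
    (t : E → SignType) : ∃ W ∈ L, ∀ i ∈ I, W i = t i := by
  classical
  have key : ∀ J ⊆ I, ∃ W ∈ L, (∀ i ∈ J, W i = t i) ∧ ∀ i ∈ I, i ∉ J → W i = 0 := by
    intro J
    induction J using Finset.induction_on with
    | empty =>
      intro _
      exact ⟨_, hL.zero, by simp, fun _ _ _ => rfl⟩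
    | insert j J hj ih =>
      intro hJI
      obtain ⟨W, hW, h1, h2⟩ := ih (fun x hx => hJI (Finset.mem_insert_of_mem hx))
      have hjI : j ∈ I := hJI (Finset.mem_insert_self _ _)
      by_cases ht : t j = 0
      · refine ⟨W, hW, ?_, fun i hi hi' => h2 i hi (fun h => hi' (Finset.mem_insert_of_mem h))⟩
        intro i hi
        rcases Finset.mem_insert.1 hi with rfl | hi
        · rw [h2 i hjI hj, ht]
        · exact h1 i hi
      · obtain ⟨Y, hY, h3, h4⟩ := hI j hjI
        have h5 : ∃ Y' ∈ L, Y' j = t j ∧ ∀ f ∈ I, f ≠ j → Y' f = 0 := by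
          have h6 : Y j = t j ∨ -Y j = t j := by
            revert h3 ht
            generalize Y j = a
            generalize t j = b
            revert a b
            decide
          rcases h6 with h6 | h6
          · exact ⟨Y, hY, h6, h4⟩
          · exact ⟨fun e => -Y e, hL.neg Y hY, h6, fun f hf hfj => by simp [h4 f hf hfj]⟩
        obtain ⟨Y', hY', h6, h7⟩ := h5
        refine ⟨scomp W Y', hL.comp _ hW _ hY', ?_, ?_⟩
        · intro i hi
          rcases Finset.mem_insert.1 hi with rfl | hi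
          · simp [scomp, h2 i hjI hj, h6]
          · have hij : i ≠ j := fun h => hj (h ▸ hi)
            have hiI : i ∈ I := hJI (Finset.mem_insert_of_mem hi)
            unfold scomp
            split_ifs with h
            · rw [h7 i hiI hij, ← h1 i hi, h]
            · exact h1 i hi
        · intro i hi hi'
          have hij : i ≠ j := fun h => hi' (h ▸ Finset.mem_insert_self _ _)
          have hiJ : i ∉ J := fun h => hi' (Finset.mem_insert_of_mem h)
          simp [scomp, h2 i hi hiJ, h7 i hi hij]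
  obtain ⟨W, hW, h1, -⟩ := key I (fun _ h => h)
  exact ⟨W, hW, h1⟩

/-- lifting of covectors which vanish on an independent set along weak maps -/
theorem weak_lift {M' M : Set (SV E)} (hM' : IsOM M') (hM : IsOM M) (hw : WeakMap M' M)
    {I : Finset E} (hI : Indep M I) {X : SV E} (hX : X ∈ M) (h0 : ∀ i ∈ I, X i = 0) :
    ∃ Z ∈ M', (∀ i ∈ I, Z i = 0) ∧ ∀ e, X e ≠ 0 → Z e = X e := by
  classical
  have key : ∀ J ⊆ I, ∀ t : E → SignType, (∀ i ∈ I, t i ≠ 0) →
      ∃ Z ∈ M', (∀ i ∈ J, Z i = 0) ∧ (∀ i ∈ I, i ∉ J → Z i = t i) ∧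
        ∀ e, X e ≠ 0 → Z e = X e := by
    intro J
    induction J using Finset.induction_on with
    | empty =>
      intro _ t ht
      obtain ⟨W, hW, h1⟩ := indep_pattern hM hI t
      obtain ⟨Z, hZ, h2⟩ := hw _ (hM.comp _ hX _ hW)
      refine ⟨Z, hZ, by simp, ?_, ?_⟩
      · intro i hi _
        have h3 : scomp X W i = t i := by simp [scomp, h0 i hi, h1 i hi]
        rcases h2 i with h | h
        · rw [h3] at h
          exact absurd h (ht i hi)
        · rw [← h, h3]
      · intro e he
        have h3 : scomp X W e = X e := by simp [scomp, he]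
        rcases h2 e with h | h
        · rw [h3] at h
          exact absurd h he
        · rw [← h, h3]
    | insert j J hj ih =>
      intro hJI t ht
      have hjI : j ∈ I := hJI (Finset.mem_insert_self _ _)
      have hJ : J ⊆ I := fun x hx => hJI (Finset.mem_insert_of_mem hx)
      obtain ⟨Z₁, hZ₁, a1, b1, c1⟩ := ih hJ t ht
      obtain ⟨Z₂, hZ₂, a2, b2, c2⟩ := ih hJ (Function.update t j (-t j)) (by
        intro i hi
        by_cases h : i = j
        · subst h
          rw [Function.update_self]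
          have := ht i hi
          simpa using this
        · rw [Function.update_of_ne h]
          exact ht i hi)
      have e1 : Z₁ j = t j := b1 j hjI hj
      have e2 : Z₂ j = -t j := by rw [b2 j hjI hj, Function.update_self]
      obtain ⟨Z, hZ, hz, ha, hb, hc⟩ := hM'.elim2 hZ₁ hZ₂ (e := j)
        (by rw [e1]; exact ht j hjI) (by rw [e1, e2])
      refine ⟨Z, hZ, ?_, ?_, ?_⟩
      · intro i hi
        rcases Finset.mem_insert.1 hi with rfl | hi
        · exact hz
        · rw [hb i (a1 i hi), a2 i hi]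
      · intro i hi hi'
        have hij : i ≠ j := fun h => hi' (h ▸ Finset.mem_insert_self _ _)
        have hiJ : i ∉ J := fun h => hi' (Finset.mem_insert_of_mem h)
        have h1 := b1 i hi hiJ
        have h2 := b2 i hi hiJ
        rw [Function.update_of_ne hij] at h2
        rw [ha i (by rw [h1, h2]), h1]
      · intro e he
        rw [ha e (by rw [c1 e he, c2 e he]), c1 e he]
  obtain ⟨Z, hZ, h1, -, h3⟩ := key I (fun _ h => h) (fun _ => 1) (fun _ _ => by decide)
  exact ⟨Z, hZ, h1, h3⟩

/-- independent sets of `M` are independent in `M'` -/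
theorem weak_indep {M' M : Set (SV E)} (hM' : IsOM M') (hM : IsOM M) (hw : WeakMap M' M)
    {I : Finset E} (hI : Indep M I) : Indep M' I := by
  classical
  intro e he
  obtain ⟨X, hX, h1, h2⟩ := hI e he
  obtain ⟨Z, hZ, h3, h4⟩ := weak_lift hM' hM hw (hI.mono (Finset.erase_subset e I)) hX
    (fun i hi => h2 i (Finset.mem_erase.1 hi).2 (Finset.mem_erase.1 hi).1)
  refine ⟨Z, hZ, ?_, fun f hf hfe => h3 f (Finset.mem_erase.2 ⟨hfe, hf⟩)⟩
  rw [h4 e h1]
  exact h1

end Pool.Agent.Sweep
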