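import Mathlib

/-!
# MP_26a7e2_co : sweep oriented matroids, definitions

Oriented matroids are given by their sets of covectors.
-/

namespace Pool.Agent.Sweep

/-- sign vectors on `E` -/
abbrev SV (E : Type) := E → SignType

/-- composition of sign vectors -/
def scomp {E : Type} (X Y : SV E) : SV E := fun e => if X e = 0 then Y e else X e

/-- the element `e` separates `X` and `Y` -/
def Sep {E : Type} (X Y : SV E) (e : E) : Prop := X e ≠ 0 ∧ Y e = -X e

/-- `L` is the set of covectors of an oriented matroid on `E` -/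
structure IsOM {E : Type} (L : Set (SV E)) : Prop where
  zero : (fun _ => 0) ∈ L
  neg : ∀ X ∈ L, (fun e => -X e) ∈ L
  comp : ∀ X ∈ L, ∀ Y ∈ L, scomp X Y ∈ L
  elim : ∀ X ∈ L, ∀ Y ∈ L, ∀ e, Sep X Y e →
    ∃ Z ∈ L, Z e = 0 ∧ ∀ f, ¬ Sep X Y f → Z f = scomp X Y f

/-- the ground set `E_n = {(i, j) : i < j}` -/
abbrev E (n : ℕ) := {p : Fin n × Fin n // p.1 < p.2}

/-- ordered partitions `(I_0, ..., I_{l-1})` of `[n]`; `p i` is the index of the block of `i` -/
structure OP (n : ℕ) where
  l : ℕ
  p : Fin n → Fin l
  surj : Function.Surjective p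

/-- the covector of the braid oriented matroid given by an ordered partition -/
def OP.vec {n : ℕ} (π : OP n) : SV (E n) := fun e =>
  if π.p e.1.1 < π.p e.1.2 then 1 else if π.p e.1.1 = π.p e.1.2 then 0 else -1

/-- sweep oriented matroids -/
structure IsSweep {n : ℕ} (M : Set (SV (E n))) : Prop where
  om : IsOM M
  braid : ∀ X ∈ M, ∃ π : OP n, X = π.vec

/-- the covectors of the little oriented matroid `L(M)` -/
def little {n : ℕ} (M : Set (SV (E n))) : Set (SV (Fin n)) :=
  {Y | ∃ π : OP n, π.vec ∈ M ∧
    ((∃ m ≤ π.l, Y = fun i => if (π.p i : ℕ) < m then -1 else 1) ∨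
     (∃ m < π.l, Y = fun i => if (π.p i : ℕ) < m then -1 else if (π.p i : ℕ) = m then 0 else 1))}

/-- there is a weak map from `M'` to `M` -/
def WeakMap {E : Type} (M' M : Set (SV E)) : Prop :=
  ∀ X ∈ M, ∃ Y ∈ M', ∀ e, X e = 0 ∨ X e = Y e

/-- the independent sets of the underlying matroid: no element of `I` is in the closure of the
others, where the flats are the zero sets of the covectors -/
def Indep {E : Type} (L : Set (SV E)) (I : Finset E) : Prop :=
  ∀ e ∈ I, ∃ X ∈ L, X e ≠ 0 ∧ ∀ f ∈ I, f ≠ e → X f = 0

open Classical in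
/-- the rank function of the underlying matroid -/
noncomputable def rk {E : Type} (L : Set (SV E)) (F : Finset E) : ℕ :=
  (F.powerset.filter (Indep L)).sup Finset.card

/-- the set `V(F)` of the end points of the pairs in `F` -/
def verts {n : ℕ} (F : Finset (E n)) : Finset (Fin n) := F.biUnion fun e => {e.1.1, e.1.2}

/-- `M` is Dilworth: the underlying matroid is the first Dilworth truncation of the underlying
matroid of the little oriented matroid -/
def IsDilworth {n : ℕ} (M : Set (SV (E n))) : Prop :=
  ∀ F : Finset (E n), F.Nonempty →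
    IsLeast {z : ℤ | ∃ P : Finpartition F,
      z = (∑ B ∈ P.parts, (rk (little M) (verts B) : ℤ)) - P.parts.card} (rk M F : ℤ)

end Pool.Agent.Sweep
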