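import Pool.Agent.Lib.MP_26a7e2_co.NOM

/-!
# MP_26a7e2_co : facts about the oriented matroid `N`
-/

namespace Pool.Agent.Sweep

set_option maxRecDepth 100000

theorem chi_facts0 : ∀ x y z : Fin 10, chi x y z x = 0 ∧ chi x y z y = 0 ∧ chi x y z z = 0 := by
  decide +kernel

private theorem chi_ok : ∀ x y z : Fin 10, okall (cd (fun e => chi x y z e)) = true := by
  decide +kernel

theorem chi_mem (x y z : Fin 10) : (fun e => chi x y z e) ∈ NN := by
  intro k hk c hc
  have h := chi_ok x y z
  unfold okall at h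
  rw [List.all_eq_true] at h
  have h7 := h k (List.mem_range.2 hk)
  rw [List.all_eq_true] at h7
  exact h7 c hc

/-- `x` and `y` are in the same class -/
def same (x y : Fin 10) : Prop := (x < 5 ↔ y < 5)

instance (x y : Fin 10) : Decidable (same x y) := by unfold same; infer_instance

theorem chi_ne : ∀ x y z e : Fin 10, x ≠ y → x ≠ z → y ≠ z → e ≠ x → e ≠ y → e ≠ z →
    ¬ (same x y ∧ same x z ∧ same x e) → chi x y z e ≠ 0 := by
  decide +kernel

private def P3 (x : ℕ × ℕ) : Bool :=
  [(7, 31), (11, 31), (13, 31), (14, 31), (19, 31), (21, 31), (22, 31), (25, 31), (26, 31),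
   (28, 31), (224, 992), (352, 992), (416, 992), (448, 992), (608, 992), (672, 992), (704, 992),
   (800, 992), (832, 992), (896, 992), (39, 1023)].all fun t =>
    !(Nat.beq (Nat.land (Nat.lor x.1 x.2) t.1) 0) ||
      Nat.beq (Nat.land (Nat.lor x.1 x.2) t.2) 0

private theorem P3_all : (lst 10).all P3 = true := by decide +kernel

private theorem supp_bit (X : SV (Fin 10)) (i : Fin 10) :
    (Nat.lor (cd X).1 (cd X).2).testBit i = (X i != 0) := by
  rw [bit_lor, cd_bit1, cd_bit2]
  generalize X i = a
  revert a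
  decide

private theorem supp_land (X : SV (Fin 10)) (t : ℕ) :
    Nat.land (Nat.lor (cd X).1 (cd X).2) t = 0 ↔ ∀ i : Fin 10, t.testBit i = true → X i = 0 := by
  rw [land_eq_zero]
  constructor
  · intro h i hi
    by_contra h0
    refine h i ⟨?_, hi⟩
    rw [supp_bit]
    simpa using h0
  · rintro h i ⟨h1, h2⟩
    rcases lt_or_ge i 10 with h3 | h3
    · have h4 := h ⟨i, h3⟩ h2
      have h5 := supp_bit X ⟨i, h3⟩
      simp only at h5
      rw [h5, h4] at h1
      exact absurd h1 (by decide)
    · rw [bit_lor, cd_bit1' X i h3, cd_bit2' X i h3] at h1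
      exact absurd h1 (by decide)

private theorem clos (X : SV (Fin 10)) (hX : X ∈ NN) (t : ℕ × ℕ)
    (ht : t ∈ [(7, 31), (11, 31), (13, 31), (14, 31), (19, 31), (21, 31), (22, 31), (25, 31),
      (26, 31), (28, 31), (224, 992), (352, 992), (416, 992), (448, 992), (608, 992), (672, 992),
      (704, 992), (800, 992), (832, 992), (896, 992), (39, 1023)])
    (h : ∀ i : Fin 10, t.1.testBit i = true → X i = 0) :
    ∀ i : Fin 10, t.2.testBit i = true → X i = 0 := by
  have h1 := P3_all
  rw [List.all_eq_true] at h1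
  have h2 := h1 _ (cd_mem_lst hX)
  unfold P3 at h2
  rw [List.all_eq_true] at h2
  have h3 := h2 t ht
  rw [(supp_land X t.1).2 h] at h3
  rw [← supp_land X t.2]
  apply Nat.eq_of_beq_eq_true
  simpa using h3

/-- three elements of a class span the class -/
theorem NN_closed (X : SV (Fin 10)) (hX : X ∈ NN) {a b c : Fin 10} (hab : a ≠ b) (hac : a ≠ c)
    (hbc : b ≠ c) (h1 : same a b) (h2 : same a c) (ha : X a = 0) (hb : X b = 0) (hc : X c = 0) :
    ∀ d, same a d → X d = 0 := by
  intro d hd
  have key : ∀ a b c d : Fin 10, a ≠ b → a ≠ c → b ≠ c → same a b → same a c → same a d →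
      ∃ t ∈ [(7, 31), (11, 31), (13, 31), (14, 31), (19, 31), (21, 31), (22, 31), (25, 31),
        (26, 31), (28, 31), (224, 992), (352, 992), (416, 992), (448, 992), (608, 992),
        (672, 992), (704, 992), (800, 992), (832, 992), (896, 992), (39, 1023)],
        (∀ i : Fin 10, t.1.testBit i = true → i = a ∨ i = b ∨ i = c) ∧
        t.2.testBit d = true := by
    decide +kernel
  obtain ⟨t, ht, h3, h4⟩ := key a b c d hab hac hbc h1 h2 hd
  refine clos X hX t ht ?_ d h4
  intro i hi
  rcases h3 i hi with rfl | rfl | rfl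
  · exact ha
  · exact hb
  · exact hc

/-- the rank is at most four -/
theorem NN_rank (X : SV (Fin 10)) (hX : X ∈ NN) (h0 : X 0 = 0) (h1 : X 1 = 0) (h2 : X 2 = 0)
    (h5 : X 5 = 0) : ∀ d, X d = 0 := by
  intro d
  refine clos X hX (39, 1023) (by simp) ?_ d ?_
  · have key : ∀ i : Fin 10, Nat.testBit 39 i = true → i = 0 ∨ i = 1 ∨ i = 2 ∨ i = 5 := by
      decide
    intro i hi
    rcases key i hi with rfl | rfl | rfl | rfl
    · exact h0
    · exact h1
    · exact h2
    · exact h5
  · revert d
    decide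

end Pool.Agent.Sweep
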