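import Pool.Agent.Lib.MP_26a7e2_co.Basic

/-!
# MP_26a7e2_co : intersection with an infinitely tilted hyperplane

`tilt L z v` is the oriented matroid given by the hyperplane `z = ε v`, where `ε` is
infinitesimal.
-/

namespace Pool.Agent.Sweep

variable {E : Type}

/-- the intersection with the hyperplane `z = ε v` -/
def tilt (L : Set (SV E)) (z v : E) : Set (SV E) :=
  {W | W ∈ L ∧ W z = W v ∧
    (W z = 0 ∨ ∃ X ∈ L, (∀ e, X e = 0 ∨ X e = W e) ∧ X z = 0 ∧ X v = W v)}

private def sc (a b : SignType) : SignType := if a = 0 then b else a

private theorem tri : ∀ (s a : SignType), s ≠ 0 → a = s ∨ a = 0 ∨ a = -s := by decide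

private theorem pz : ∀ (s c : SignType), s ≠ 0 →
    ¬ (s ≠ 0 ∧ sc 0 (sc s c) = -s) ∧ sc s (sc 0 (sc s c)) = s := by
  unfold sc
  decide

private theorem scomp_apply (X Y : SV E) (f : E) : scomp X Y f = sc (X f) (Y f) := rfl

/-- `Z` is good for the elimination between `W₁` and `W₂` -/
private def Off (W₁ W₂ Z : SV E) : Prop := ∀ f, ¬ Sep W₁ W₂ f → Z f = scomp W₁ W₂ f

private theorem face {L : Set (SV E)} {z v : E} {W : SV E} (h : W ∈ tilt L z v) :
    ∃ X ∈ L, (∀ e, X e = 0 ∨ X e = W e) ∧ X z = 0 ∧ X v = W v ∧ (W v = 0 → X = W) := by
  obtain ⟨h1, h2, h3⟩ := h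
  by_cases h0 : W v = 0
  · exact ⟨W, h1, fun _ => Or.inr rfl, by rw [h2, h0], rfl, fun _ => rfl⟩
  · rcases h3 with h3 | ⟨X, hX, a, b, c⟩
    · rw [h2] at h3
      exact absurd h3 h0
    · exact ⟨X, hX, a, b, c, fun h => absurd h h0⟩

private theorem mem_of_face {L : Set (SV E)} {z v : E} {X W : SV E} (hX : X ∈ L) (hW : W ∈ L)
    (h1 : ∀ e, X e = 0 ∨ X e = W e) (h2 : X z = 0) (h3 : X v = W v) (h4 : W z = W v) :
    W ∈ tilt L z v := ⟨hW, h4, Or.inr ⟨X, hX, h1, h2, h3⟩⟩

private theorem scomp_face (X W : SV E) : ∀ e, X e = 0 ∨ X e = scomp X W e := by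
  intro e
  unfold scomp
  by_cases h : X e = 0
  · exact Or.inl h
  · simp [h]

/-- one side of the tilted hyperplane -/
private theorem side {L : Set (SV E)} (hL : IsOM L) {z v e : E} {W₁ W₂ X₂ : SV E}
    (hW₁ : W₁ ∈ L) (hW₂ : W₂ ∈ L) (hX₂ : X₂ ∈ L) (hf : ∀ f, X₂ f = 0 ∨ X₂ f = W₂ f)
    (hz : X₂ z = 0) (hv : X₂ v = W₂ v) {s : SignType} (hs : s ≠ 0) (h1z : W₁ z = s)
    (h2v : W₂ v = -s) (he : Sep W₁ W₂ e) :
    (∃ Z ∈ tilt L z v, Z e = 0 ∧ Off W₁ W₂ Z) ∨
    ∃ U ∈ L, U e = 0 ∧ Off W₁ W₂ U ∧ (U z = s ∨ (U z = 0 ∧ U v = -s)) := by
  obtain ⟨he1, he2⟩ := he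
  by_cases h : X₂ e = 0
  · obtain ⟨U, hU, hU0, hUc⟩ := hL.elim (scomp X₂ W₁) (hL.comp _ hX₂ _ hW₁) W₂ hW₂ e (by
      refine ⟨?_, ?_⟩
      · simp only [scomp_apply, sc, h, if_true]
        exact he1
      · simp only [scomp_apply, sc, h, if_true]
        exact he2)
    have hoff : Off W₁ W₂ U := by
      intro f hf'
      have h1 := hf f
      have h2 : ¬ Sep (scomp X₂ W₁) W₂ f ∧
          scomp (scomp X₂ W₁) W₂ f = scomp W₁ W₂ f := by
        unfold Sep at *
        simp only [scomp_apply] at *
        revert h1 hf'
        generalize X₂ f = a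
        generalize W₁ f = b
        generalize W₂ f = c
        revert a b c
        unfold sc
        decide
      rw [hUc f h2.1, h2.2]
    have hface : ∀ f, X₂ f = 0 ∨ X₂ f = U f := by
      intro f
      by_cases h0 : X₂ f = 0
      · exact Or.inl h0
      · right
        have h1 := hf f
        have h2 : ¬ Sep (scomp X₂ W₁) W₂ f ∧ scomp (scomp X₂ W₁) W₂ f = X₂ f := by
          unfold Sep at *
          simp only [scomp_apply] at *
          revert h1 h0
          generalize X₂ f = a
          generalize W₁ f = b
          generalize W₂ f = c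
          revert a b c
          unfold sc
          decide
        rw [hUc f h2.1, h2.2]
    have hUv : U v = -s := by
      rcases hface v with h1 | h1
      · rw [hv, h2v] at h1
        exact absurd h1 (by simpa using hs)
      · rw [← h1, hv, h2v]
    have h3 : U z = s ∨ U z = 0 ∨ U z = -s := tri s (U z) hs
    rcases h3 with h3 | h3 | h3
    · exact Or.inr ⟨U, hU, hU0, hoff, Or.inl h3⟩
    · exact Or.inr ⟨U, hU, hU0, hoff, Or.inr ⟨h3, hUv⟩⟩
    · exact Or.inl ⟨U, mem_of_face hX₂ hU hface hz (by rw [hv, h2v, hUv]) (by rw [h3, hUv]),
        hU0, hoff⟩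
  · have hB : X₂ e = W₂ e := by
      rcases hf e with h1 | h1
      · exact absurd h1 h
      · exact h1
    obtain ⟨U, hU, hU0, hUc⟩ := hL.elim W₁ hW₁ (scomp X₂ (scomp W₁ W₂))
      (hL.comp _ hX₂ _ (hL.comp _ hW₁ _ hW₂)) e (by
      refine ⟨he1, ?_⟩
      simp only [scomp_apply, sc, h, if_false]
      rw [hB, he2])
    right
    refine ⟨U, hU, hU0, ?_, Or.inl ?_⟩
    · intro f hf'
      have h1 := hf f
      have h2 : ¬ Sep W₁ (scomp X₂ (scomp W₁ W₂)) f ∧
          scomp W₁ (scomp X₂ (scomp W₁ W₂)) f = scomp W₁ W₂ f := by
        unfold Sep at *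
        simp only [scomp_apply] at *
        revert h1 hf'
        generalize X₂ f = a
        generalize W₁ f = b
        generalize W₂ f = c
        revert a b c
        unfold sc
        decide
      rw [hUc f h2.1, h2.2]
    · have h2 : ¬ Sep W₁ (scomp X₂ (scomp W₁ W₂)) z ∧
          scomp W₁ (scomp X₂ (scomp W₁ W₂)) z = s := by
        unfold Sep
        simp only [scomp_apply, hz, h1z]
        exact pz s (W₂ z) hs
      rw [hUc z h2.1, h2.2]

theorem tilt_isOM {L : Set (SV E)} (hL : IsOM L) (z v : E) : IsOM (tilt L z v) where
  zero := ⟨hL.zero, rfl, Or.inl rfl⟩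
  neg W hW := by
    obtain ⟨h1, h2, h3⟩ := hW
    refine ⟨hL.neg W h1, by simp [h2], ?_⟩
    rcases h3 with h3 | ⟨X, hX, a, b, c⟩
    · left; simp [h3]
    · right
      refine ⟨fun e => -X e, hL.neg X hX, ?_, by simp [b], by simp [c]⟩
      intro e
      rcases a e with h | h
      · left; simp [h]
      · right; simp [h]
  comp W₁ hW₁ W₂ hW₂ := by
    obtain ⟨X₁, hX₁, f1, z1, v1, c1⟩ := face hW₁
    obtain ⟨X₂, hX₂, f2, z2, v2, c2⟩ := face hW₂
    by_cases h0 : W₁ v = 0
    · have h0z : W₁ z = 0 := by rw [hW₁.2.1, h0]
      refine mem_of_face (X := scomp W₁ X₂) (hL.comp _ hW₁.1 _ hX₂)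
        (hL.comp _ hW₁.1 _ hW₂.1) ?_ ?_ ?_ ?_
      · intro e
        have := f2 e
        simp only [scomp_apply]
        revert this
        generalize X₂ e = a
        generalize W₁ e = b
        generalize W₂ e = c
        revert a b c
        unfold sc
        decide
      · simp [scomp_apply, sc, h0z, z2]
      · simp [scomp_apply, sc, h0, v2]
      · simp [scomp_apply, sc, h0, h0z, hW₂.2.1]
    · have h0z : W₁ z ≠ 0 := by rw [hW₁.2.1]; exact h0
      refine mem_of_face (X := X₁) hX₁ (hL.comp _ hW₁.1 _ hW₂.1) ?_ z1 ?_ ?_
      · intro e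
        have := f1 e
        simp only [scomp_apply]
        revert this
        generalize X₁ e = a
        generalize W₁ e = b
        generalize W₂ e = c
        revert a b c
        unfold sc
        decide
      · simp [scomp_apply, sc, h0, v1]
      · simp [scomp_apply, sc, h0, h0z, hW₁.2.1]
  elim W₁ hW₁ W₂ hW₂ e he := by
    change ∃ Z ∈ tilt L z v, Z e = 0 ∧ Off W₁ W₂ Z
    obtain ⟨X₁, hX₁, f1, z1, v1, c1⟩ := face hW₁
    obtain ⟨X₂, hX₂, f2, z2, v2, c2⟩ := face hW₂
    obtain ⟨hL1, hzv1, -⟩ := hW₁
    obtain ⟨hL2, hzv2, -⟩ := hW₂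
    obtain ⟨he1, he2⟩ := id he
    by_cases hsep : Sep W₁ W₂ v
    · obtain ⟨hs1, hs2⟩ := id hsep
      by_cases hez : e = z ∨ e = v
      · -- both coordinates vanish
        obtain ⟨U₁, hU₁, a1, b1⟩ := hL.elim W₁ hL1 (scomp X₁ W₂) (hL.comp _ hX₁ _ hL2) z (by
          refine ⟨by rw [hzv1]; exact hs1, ?_⟩
          simp only [scomp_apply, sc, z1, if_true]
          rw [hzv1, hzv2, hs2])
        obtain ⟨U₂, hU₂, a2, b2⟩ := hL.elim W₂ hL2 (scomp X₂ W₁) (hL.comp _ hX₂ _ hL1) z (by
          refine ⟨by rw [hzv2, hs2]; simpa using hs1, ?_⟩
          simp only [scomp_apply, sc, z2, if_true]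
          rw [hzv1, hzv2, hs2]
          simp)
        have hU1v : U₁ v = W₁ v := by
          have h2 : ¬ Sep W₁ (scomp X₁ W₂) v ∧ scomp W₁ (scomp X₁ W₂) v = W₁ v := by
            unfold Sep
            simp only [scomp_apply, v1]
            revert hs1
            generalize W₁ v = a
            generalize W₂ v = b
            revert a b
            unfold sc
            decide
          rw [b1 v h2.1, h2.2]
        have hU2v : U₂ v = -W₁ v := by
          have h2 : ¬ Sep W₂ (scomp X₂ W₁) v ∧ scomp W₂ (scomp X₂ W₁) v = -W₁ v := by
            unfold Sep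
            simp only [scomp_apply, v2, hs2]
            revert hs1
            generalize W₁ v = a
            revert a
            unfold sc
            decide
          rw [b2 v h2.1, h2.2]
        have o1 : Off W₁ W₂ U₁ := by
          intro f hf'
          have h1 := f1 f
          have h2 : ¬ Sep W₁ (scomp X₁ W₂) f ∧
              scomp W₁ (scomp X₁ W₂) f = scomp W₁ W₂ f := by
            unfold Sep at *
            simp only [scomp_apply] at *
            revert h1 hf'
            generalize X₁ f = a
            generalize W₁ f = b
            generalize W₂ f = c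
            revert a b c
            unfold sc
            decide
          rw [b1 f h2.1, h2.2]
        have o2 : Off W₁ W₂ U₂ := by
          intro f hf'
          have h1 := f2 f
          have h2 : ¬ Sep W₂ (scomp X₂ W₁) f ∧
              scomp W₂ (scomp X₂ W₁) f = scomp W₁ W₂ f := by
            unfold Sep at *
            simp only [scomp_apply] at *
            revert h1 hf'
            generalize X₂ f = a
            generalize W₁ f = b
            generalize W₂ f = c
            revert a b c
            unfold sc
            decide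
          rw [b2 f h2.1, h2.2]
        obtain ⟨V, hV, a, b⟩ := hL.elim U₁ hU₁ U₂ hU₂ v (by
          refine ⟨by rw [hU1v]; exact hs1, by rw [hU1v, hU2v]⟩)
        have hVz : V z = 0 := by
          rw [b z (by rintro ⟨h, -⟩; exact h a1)]
          simp [scomp_apply, sc, a1, a2]
        refine ⟨V, ⟨hV, by rw [hVz, a], Or.inl hVz⟩, ?_, ?_⟩
        · rcases hez with rfl | rfl
          · exact hVz
          · exact a
        · intro f hf'
          have h1 := o1 f hf'
          have h2 := o2 f hf'
          have h3 : ¬ Sep U₁ U₂ f ∧ scomp U₁ U₂ f = scomp W₁ W₂ f := by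
            unfold Sep
            simp only [scomp_apply, h1, h2]
            generalize sc (W₁ f) (W₂ f) = a
            revert a
            unfold sc
            decide
          rw [b f h3.1, h3.2]
      · push Not at hez
        -- general position
        have S1 := side hL hL1 hL2 hX₂ f2 z2 v2 (s := W₁ v) hs1 hzv1 hs2 he
        have S2 := side hL hL2 hL1 hX₁ f1 z1 v1 (s := -W₁ v) (by simpa using hs1)
          (by rw [hzv2, hs2]) (by simp) (e := e) (by
            refine ⟨by rw [he2]; simpa using he1, by rw [he2]; simp⟩)
        have hoffswap : ∀ Z : SV E, Off W₂ W₁ Z → Off W₁ W₂ Z := by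
          intro Z hZ f hf'
          have h1 := hZ f
          unfold Sep at *
          simp only [scomp_apply] at *
          revert h1 hf'
          generalize Z f = a
          generalize W₁ f = b
          generalize W₂ f = c
          revert a b c
          unfold sc
          decide
        rcases S1 with ⟨Z, hZ, h1, h2⟩ | ⟨P, hP, P0, Poff, Ps⟩
        · exact ⟨Z, hZ, h1, h2⟩
        rcases S2 with ⟨Z, hZ, h1, h2⟩ | ⟨N, hN, N0, Noff', Ns⟩
        · exact ⟨Z, hZ, h1, hoffswap Z h2⟩
        have Noff := hoffswap N Noff'
        have hscoff : ∀ A B : SV E, Off W₁ W₂ A → Off W₁ W₂ B → Off W₁ W₂ (scomp A B) := by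
          intro A B hA hB f hf'
          have h1 := hA f hf'
          have h2 := hB f hf'
          simp only [scomp_apply] at *
          rw [h1, h2]
          generalize sc (W₁ f) (W₂ f) = a
          revert a
          unfold sc
          decide
        have hnos : ∀ A B : SV E, Off W₁ W₂ A → Off W₁ W₂ B → ∀ f, ¬ Sep W₁ W₂ f →
            ¬ Sep A B f := by
          intro A B hA hB f hf'
          have h1 := hA f hf'
          have h2 := hB f hf'
          unfold Sep
          rw [h1, h2]
          generalize scomp W₁ W₂ f = a
          revert a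
          decide
        generalize hs : W₁ v = s at *
        rcases Ps with Ps | ⟨Ps, Pv⟩ <;> rcases Ns with Ns | ⟨Ns, Nv⟩
        · -- eliminate z
          obtain ⟨V, hV, a, b⟩ := hL.elim P hP N hN z ⟨by rw [Ps]; exact hs1, by rw [Ps, Ns]⟩
          have V0 : V e = 0 := by
            rw [b e (by rintro ⟨h, -⟩; exact h P0)]
            simp [scomp_apply, sc, P0, N0]
          have Voff : Off W₁ W₂ V := by
            intro f hf'
            rw [b f (hnos P N Poff Noff f hf')]
            exact hscoff P N Poff Noff f hf'
          have h3 : V v = 0 ∨ V v = s ∨ V v = -s := by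
            clear * - hs1
            revert hs1
            generalize V v = a
            revert a s
            decide
          rcases h3 with h3 | h3 | h3
          · exact ⟨V, ⟨hV, by rw [a, h3], Or.inl a⟩, V0, Voff⟩
          · refine ⟨scomp V P, mem_of_face hV (hL.comp _ hV _ hP) (scomp_face V P) a ?_ ?_, ?_,
              hscoff V P Voff Poff⟩
            · simp [scomp_apply, sc, h3, hs1]
            · simp [scomp_apply, sc, h3, hs1, a, Ps]
            · simp [scomp_apply, sc, V0, P0]
          · refine ⟨scomp V N, mem_of_face hV (hL.comp _ hV _ hN) (scomp_face V N) a ?_ ?_, ?_,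
              hscoff V N Voff Noff⟩
            · simp [scomp_apply, sc, h3, hs1]
            · simp [scomp_apply, sc, h3, hs1, a, Ns]
            · simp [scomp_apply, sc, V0, N0]
        · refine ⟨scomp N P, mem_of_face hN (hL.comp _ hN _ hP) (scomp_face N P) Ns ?_ ?_, ?_,
              hscoff N P Noff Poff⟩
          · simp [scomp_apply, sc, Nv, hs1]
          · simp [scomp_apply, sc, Nv, hs1, Ns, Ps]
          · simp [scomp_apply, sc, P0, N0]
        · refine ⟨scomp P N, mem_of_face hP (hL.comp _ hP _ hN) (scomp_face P N) Ps ?_ ?_, ?_,
              hscoff P N Poff Noff⟩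
          · simp [scomp_apply, sc, Pv, hs1]
          · simp [scomp_apply, sc, Pv, hs1, Ns, Ps]
          · simp [scomp_apply, sc, P0, N0]
        · obtain ⟨V, hV, a, b⟩ := hL.elim P hP N hN v
            ⟨by rw [Pv]; simpa using hs1, by rw [Pv, Nv]⟩
          have V0 : V e = 0 := by
            rw [b e (by rintro ⟨h, -⟩; exact h P0)]
            simp [scomp_apply, sc, P0, N0]
          have Vz : V z = 0 := by
            rw [b z (by rintro ⟨h, -⟩; exact h Ps)]
            simp [scomp_apply, sc, Ps, Ns]
          refine ⟨V, ⟨hV, by rw [a, Vz], Or.inl Vz⟩, V0, ?_⟩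
          intro f hf'
          rw [b f (hnos P N Poff Noff f hf')]
          exact hscoff P N Poff Noff f hf'
    · -- not separated at `v`
      have hsepz : ¬ Sep W₁ W₂ z := by
        unfold Sep at *
        rw [hzv1, hzv2]
        exact hsep
      obtain ⟨W, hW, w0, wc⟩ := hL.elim W₁ hL1 W₂ hL2 e he
      by_cases h00 : scomp W₁ W₂ v = 0
      · have hWv : W v = 0 := by rw [wc v hsep, h00]
        have hWz : W z = 0 := by
          rw [wc z hsepz]
          rw [scomp_apply] at h00 ⊢
          rw [hzv1, hzv2, h00]
        exact ⟨W, ⟨hW, by rw [hWz, hWv], Or.inl hWz⟩, w0, wc⟩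
      · -- a face
        have hface : ∃ X ∈ L, X e = 0 ∧ X z = 0 ∧ X v = scomp W₁ W₂ v ∧
            ∀ f, ¬ Sep W₁ W₂ f → X f = 0 ∨ X f = scomp W₁ W₂ f := by
          by_cases g1 : X₁ e = 0
          · refine ⟨X₁, hX₁, g1, z1, ?_, ?_⟩
            · have h3 : W₁ v ≠ 0 := by
                intro h
                have := c1 h
                rw [this] at g1
                exact he1 g1
              rw [v1]
              simp [scomp_apply, sc, h3]
            · intro f hf'
              have h1 := f1 f
              simp only [scomp_apply]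
              revert h1
              generalize X₁ f = a
              generalize W₁ f = b
              generalize W₂ f = c
              revert a b c
              unfold sc
              decide
          · by_cases g2 : X₂ e = 0
            · refine ⟨X₂, hX₂, g2, z2, ?_, ?_⟩
              · have h3 : W₂ v ≠ 0 := by
                  intro h
                  have := c2 h
                  rw [this, he2] at g2
                  exact he1 (by simpa using g2)
                rw [v2]
                unfold Sep at hsep
                rw [scomp_apply]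
                revert hsep h3
                generalize W₁ v = a
                generalize W₂ v = b
                revert a b
                unfold sc
                decide
              · intro f hf'
                have h1 := f2 f
                unfold Sep at hf'
                simp only [scomp_apply]
                revert h1 hf'
                generalize X₂ f = a
                generalize W₁ f = b
                generalize W₂ f = c
                revert a b c
                unfold sc
                decide
            · have g1' : X₁ e = W₁ e := (f1 e).resolve_left g1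
              have g2' : X₂ e = W₂ e := (f2 e).resolve_left g2
              obtain ⟨X, hX, a, b⟩ := hL.elim X₁ hX₁ X₂ hX₂ e
                ⟨g1, by rw [g1', g2', he2]⟩
              refine ⟨X, hX, a, ?_, ?_, ?_⟩
              · rw [b z (by rintro ⟨h, -⟩; exact h z1)]
                simp [scomp_apply, sc, z1, z2]
              · rw [b v (by unfold Sep at *; rw [v1, v2]; exact hsep)]
                simp only [scomp_apply, v1, v2]
              · intro f hf'
                have h1 := f1 f
                have h2 := f2 f
                unfold Sep at hf'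
                have h3 : ¬ Sep X₁ X₂ f ∧ (scomp X₁ X₂ f = 0 ∨
                    scomp X₁ X₂ f = scomp W₁ W₂ f) := by
                  unfold Sep
                  simp only [scomp_apply]
                  revert h1 h2 hf'
                  generalize X₁ f = a
                  generalize X₂ f = a'
                  generalize W₁ f = b
                  generalize W₂ f = c
                  revert a a' b c
                  unfold sc
                  decide
                rw [b f h3.1]
                exact h3.2
        obtain ⟨X, hX, x0, xz, xv, xf⟩ := hface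
        refine ⟨scomp X W, mem_of_face hX (hL.comp _ hX _ hW) (scomp_face X W) xz ?_ ?_, ?_, ?_⟩
        · have hne : X v ≠ 0 := by rw [xv]; exact h00
          simp [scomp_apply, sc, hne]
        · have h1 : W z = scomp W₁ W₂ v := by
            rw [wc z hsepz]
            simp only [scomp_apply, hzv1, hzv2]
          simp only [scomp_apply, sc, xz, if_true, h1]
          rw [scomp_apply] at h00 xv
          simp only [xv, h00, if_false]
          rfl
        · simp [scomp_apply, sc, x0, w0]
        · intro f hf'
          have h1 := wc f hf'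
          have h2 := xf f hf'
          rw [scomp_apply X W, h1]
          revert h2
          generalize X f = a
          generalize scomp W₁ W₂ f = b
          revert a b
          unfold sc
          decide

end Pool.Agent.Sweep
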