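import Pool.Agent.Lib.MP_26a7e2_co.Op
import Pool.Agent.Lib.MP_26a7e2_co.Tilt
import Pool.Agent.Lib.MP_26a7e2_co.NFacts

/-!
# MP_26a7e2_co : the sweep oriented matroid `M`

Twelve points; the points `0, ..., 5` and `6, ..., 11` are joined to stars by the edges
`zz v`, and `gg` is the edge between the two centers.
-/

namespace Pool.Agent.Sweep

/-- the center of the star of `v` -/
def cen (v : Fin 10) : Fin 12 := if v < 5 then 0 else 6

/-- the leaf of `v` -/
def leaf (v : Fin 10) : Fin 12 := if v < 5 then ⟨v + 1, by omega⟩ else ⟨v + 2, by omega⟩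

theorem cen_lt_leaf : ∀ v, cen v < leaf v := by decide

/-- the edges of the two stars -/
def zz (v : Fin 10) : E 12 := ⟨(cen v, leaf v), cen_lt_leaf v⟩

/-- the free edge -/
def gg : E 12 := ⟨(0, 6), by decide⟩

theorem zz_inj : Function.Injective zz := by
  intro v w h
  have h1 : leaf v = leaf w := congrArg (fun e : E 12 => e.1.2) h
  revert v w
  have : ∀ v w, leaf v = leaf w → v = w := by decide
  intro v w _ h
  exact this v w h

theorem zz_ne_gg : ∀ v, zz v ≠ gg := by decide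

/-- the tower of tilted hyperplanes -/
def tow : List (Fin 10) → Set (SV (E 12 ⊕ Fin 10))
  | [] => dsum (braidOM 12) NN
  | v :: l => tilt (tow l) (Sum.inl (zz v)) (Sum.inr v)

theorem tow_isOM : ∀ l, IsOM (tow l)
  | [] => dsum_isOM (braidOM_isOM 12) NN_isOM
  | _ :: l => tilt_isOM (tow_isOM l) _ _

theorem tow_dsum : ∀ (l : List (Fin 10)), ∀ W ∈ tow l, W ∈ dsum (braidOM 12) NN
  | [], _, hW => hW
  | _ :: l, W, hW => tow_dsum l W hW.1

theorem tow_eq : ∀ (l : List (Fin 10)), ∀ W ∈ tow l, ∀ v ∈ l, W (Sum.inl (zz v)) = W (Sum.inr v)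
  | [], _, _, v, hv => by simp at hv
  | u :: l, W, hW, v, hv => by
    rcases List.mem_cons.1 hv with rfl | hv
    · exact hW.2.1
    · exact tow_eq l W hW.1 v hv

theorem tow_small : ∀ (l : List (Fin 10)) (W : SV (E 12 ⊕ Fin 10)), W ∈ dsum (braidOM 12) NN →
    (∀ v ∈ l, W (Sum.inl (zz v)) = 0 ∧ W (Sum.inr v) = 0) → W ∈ tow l
  | [], _, hW, _ => hW
  | v :: l, W, hW, h => by
    obtain ⟨h1, h2⟩ := h v (by simp)
    refine ⟨tow_small l W hW (fun u hu => h u (List.mem_cons_of_mem _ hu)), by rw [h1, h2],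
      Or.inl h1⟩

theorem sign_val (s : SignType) : SignType.sign ((s : SignType) : ℝ) = s := by
  cases s <;> simp [SignType.cast]

/-- the element of the braid oriented matroid given by the leaf of `v` -/
theorem leaf_mem (v : Fin 10) (s : SignType) : ∃ X ∈ braidOM 12, X (zz v) = s ∧
    (∀ u, u ≠ v → X (zz u) = 0) ∧ X gg = 0 := by
  refine ⟨_, ⟨fun i => if i = leaf v then ((s : SignType) : ℝ) else 0, fun _ => rfl⟩, ?_, ?_, ?_⟩
  · have h1 : cen v ≠ leaf v := (cen_lt_leaf v).ne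
    simp only [dif_apply, zz, if_true, h1, if_false, sub_zero]
    exact sign_val s
  · intro u hu
    have h0 : ∀ u v, u ≠ v → leaf u ≠ leaf v ∧ cen u ≠ leaf v := by decide
    obtain ⟨h1, h2⟩ := h0 u v hu
    simp only [dif_apply, zz, h1, h2, if_false, sub_zero, sign_zero]
  · have h0 : ∀ v, (0 : Fin 12) ≠ leaf v ∧ 6 ≠ leaf v := by decide
    obtain ⟨h1, h2⟩ := h0 v
    simp only [dif_apply, gg, h1, h2, if_false, sub_zero, sign_zero]

theorem gg_mem (s : SignType) : ∃ X ∈ braidOM 12, X gg = s ∧ ∀ u, X (zz u) = 0 := by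
  refine ⟨_, ⟨fun i => if 6 ≤ i then ((s : SignType) : ℝ) else 0, fun _ => rfl⟩, ?_, ?_⟩
  · have h1 : ¬ (6 : Fin 12) ≤ 0 := by decide
    simp only [dif_apply, gg, le_refl, if_true, h1, if_false, sub_zero]
    exact sign_val s
  · intro u
    have h0 : ∀ u, (6 ≤ leaf u ↔ 6 ≤ cen u) := by decide
    have h1 := h0 u
    simp only [dif_apply, zz]
    by_cases h : 6 ≤ cen u
    · rw [if_pos h, if_pos (h1.2 h), sub_self, sign_zero]
    · rw [if_neg h, if_neg (fun h' => h (h1.1 h')), sub_self, sign_zero]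

theorem tow_surj (X : SV (Fin 10)) (hX : X ∈ NN) (s : SignType) : ∀ l : List (Fin 10), l.Nodup →
    ∃ W ∈ tow l, (∀ v, W (Sum.inr v) = X v) ∧ (∀ v ∈ l, W (Sum.inl (zz v)) = X v) ∧
      (∀ v, v ∉ l → W (Sum.inl (zz v)) = 0) ∧ W (Sum.inl gg) = s
  | [], _ => by
    obtain ⟨A, hA, h1, h2⟩ := gg_mem s
    exact ⟨Sum.elim A X, ⟨hA, hX⟩, fun _ => rfl, fun v hv => by simp at hv, fun v _ => h2 v, h1⟩
  | v :: l, hl => by
    obtain ⟨hv, hl⟩ := List.nodup_cons.1 hl
    obtain ⟨W, hW, a, b, c, d⟩ := tow_surj X hX s l hl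
    obtain ⟨A, hA, h1, h2, h3⟩ := leaf_mem v (X v)
    have hV : Sum.elim A (fun _ => 0) ∈ tow l := by
      refine tow_small l _ ⟨hA, NN_zero⟩ ?_
      intro u hu
      refine ⟨h2 u (fun h => hv (h ▸ hu)), rfl⟩
    have hW' := (tow_isOM l).comp _ hW _ hV
    refine ⟨scomp W (Sum.elim A (fun _ => 0)), ⟨hW', ?_, Or.inr ⟨W, hW, ?_, c v hv, ?_⟩⟩, ?_, ?_,
      ?_, ?_⟩
    · simp only [scomp, c v hv, if_true, Sum.elim_inl, Sum.elim_inr, h1, a v]
      split_ifs with h
      · exact h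
      · rfl
    · intro e
      by_cases h : W e = 0
      · exact Or.inl h
      · right
        simp [scomp, h]
    · simp only [scomp, Sum.elim_inr, a v]
      split_ifs with h
      · exact h
      · rfl
    · intro u
      simp only [scomp, Sum.elim_inr, a u]
      split_ifs with h
      · exact h.symm
      · rfl
    · intro u hu
      rcases List.mem_cons.1 hu with rfl | hu
      · simp only [scomp, c u hv, if_true, Sum.elim_inl, h1]
      · have huv : u ≠ v := fun h => hv (h ▸ hu)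
        simp only [scomp, b u hu, Sum.elim_inl, h2 u huv]
        split_ifs with h
        · exact h.symm
        · rfl
    · intro u hu
      rw [List.mem_cons, not_or] at hu
      simp only [scomp, c u hu.2, if_true, Sum.elim_inl, h2 u hu.1]
    · simp only [scomp, Sum.elim_inl, h3, d]
      split_ifs with h
      · exact h.symm
      · rfl

/-- the sweep oriented matroid -/
def MM : Set (SV (E 12)) := restr Sum.inl (tow (List.finRange 10))

theorem MM_isOM : IsOM MM := restr_isOM _ (tow_isOM _)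

theorem MM_sweep : IsSweep MM where
  om := MM_isOM
  braid := by
    rintro X ⟨W, hW, rfl⟩
    exact braid_vec (tow_dsum _ W hW).1

theorem MM_NN {X : SV (E 12)} (hX : X ∈ MM) : (fun v => X (zz v)) ∈ NN := by
  obtain ⟨W, hW, rfl⟩ := hX
  have h1 : (fun v => W (Sum.inl (zz v))) = fun v => W (Sum.inr v) :=
    funext fun v => tow_eq _ W hW v (List.mem_finRange v)
  simp only [h1]
  exact (tow_dsum _ W hW).2

theorem MM_surj {X : SV (Fin 10)} (hX : X ∈ NN) (s : SignType) :
    ∃ Y ∈ MM, (∀ v, Y (zz v) = X v) ∧ Y gg = s := by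
  obtain ⟨W, hW, -, b, -, d⟩ := tow_surj X hX s (List.finRange 10) (List.nodup_finRange 10)
  exact ⟨_, ⟨W, hW, rfl⟩, fun v => b v (List.mem_finRange v), d⟩

theorem MM_zero {X : SV (E 12)} (hX : X ∈ MM) (h : ∀ v, X (zz v) = 0) (hg : X gg = 0) :
    ∀ e, X e = 0 := by
  obtain ⟨π, rfl⟩ := MM_sweep.braid X hX
  have h1 : π.p 0 = π.p 6 := (vec_zero π gg).1 hg
  have h2 : ∀ v, π.p (cen v) = π.p (leaf v) := fun v => (vec_zero π (zz v)).1 (h v)
  have h3 : ∀ i : Fin 12, i = 0 ∨ i = 6 ∨ ∃ v, i = leaf v := by decide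
  have h4 : ∀ v, cen v = 0 ∨ cen v = 6 := by decide
  have h5 : ∀ i, π.p i = π.p 0 := by
    intro i
    rcases h3 i with rfl | rfl | ⟨v, rfl⟩
    · rfl
    · exact h1.symm
    · rw [← h2 v]
      rcases h4 v with h | h
      · rw [h]
      · rw [h, h1]
  intro e
  rw [vec_zero, h5, h5 e.1.2]

/-- independent sets of `N` give independent sets of `M` -/
theorem MM_indep {I : Finset (Fin 10)} (hI : Indep NN I) : Indep MM (insert gg (I.image zz)) := by
  intro e he
  rcases Finset.mem_insert.1 he with rfl | he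
  · obtain ⟨Y, hY, h1, h2⟩ := MM_surj NN_zero 1
    refine ⟨Y, hY, by rw [h2]; decide, ?_⟩
    intro f hf hfe
    rcases Finset.mem_insert.1 hf with h | hf
    · exact absurd h hfe
    · obtain ⟨v, -, rfl⟩ := Finset.mem_image.1 hf
      exact h1 v
  · obtain ⟨v, hv, rfl⟩ := Finset.mem_image.1 he
    obtain ⟨X, hX, h1, h2⟩ := hI v hv
    obtain ⟨Y, hY, h3, h4⟩ := MM_surj hX 0
    refine ⟨Y, hY, by rw [h3]; exact h1, ?_⟩
    intro f hf hfe
    rcases Finset.mem_insert.1 hf with h | hf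
    · rw [h]; exact h4
    · obtain ⟨u, hu, rfl⟩ := Finset.mem_image.1 hf
      rw [h3]
      exact h2 u hu (fun h => hfe (by rw [h]))

end Pool.Agent.Sweep
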