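import Pool.Agent.Lib.MP_26a7e2_co.Little
import Pool.Agent.Lib.MP_26a7e2_co.Mdef

/-!
# MP_26a7e2_co : properties of a hypothetical Dilworth weak map preimage of `M`
-/

namespace Pool.Agent.Sweep

/-- four elements which are not all in the same class are independent in `N` -/
theorem NN_indep {T : Finset (Fin 10)} (hT : T.card = 4) (h : ∃ p ∈ T, ∃ q ∈ T, ¬ same p q) :
    Indep NN T := by
  intro e he
  have h3 : (T.erase e).card = 3 := by rw [Finset.card_erase_of_mem he, hT]
  obtain ⟨x, y, z, hxy, hxz, hyz, heq⟩ := Finset.card_eq_three.1 h3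
  have hx : x ∈ T.erase e := by rw [heq]; simp
  have hy : y ∈ T.erase e := by rw [heq]; simp
  have hz : z ∈ T.erase e := by rw [heq]; simp
  have hmem : ∀ w ∈ T, w = e ∨ w = x ∨ w = y ∨ w = z := by
    intro w hw
    by_cases hwe : w = e
    · exact Or.inl hwe
    · have : w ∈ T.erase e := Finset.mem_erase.2 ⟨hwe, hw⟩
      rw [heq] at this
      simpa [hwe] using this
  refine ⟨_, chi_mem x y z, ?_, ?_⟩
  · refine chi_ne x y z e hxy hxz hyz (Finset.mem_erase.1 hx).1.symm
      (Finset.mem_erase.1 hy).1.symm (Finset.mem_erase.1 hz).1.symm ?_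
    rintro ⟨h1, h2, h4⟩
    obtain ⟨p, hp, q, hq, hpq⟩ := h
    apply hpq
    have key : ∀ w ∈ T, same x w := by
      intro w hw
      rcases hmem w hw with rfl | rfl | rfl | rfl
      · exact h4
      · unfold same; tauto
      · exact h1
      · exact h2
    have h5 := key p hp
    have h6 := key q hq
    unfold same at *
    tauto
  · intro f hf hfe
    obtain ⟨c1, c2, c3⟩ := chi_facts0 x y z
    rcases hmem f hf with h7 | rfl | rfl | rfl
    · exact absurd h7 hfe
    · exact c1
    · exact c2
    · exact c3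

theorem rk_little_le (S : Finset (Fin 12)) : rk (little MM) S ≤ 6 := by
  refine rk_le fun J _ hJ => ?_
  rcases J.eq_empty_or_nonempty with rfl | ⟨j₀, hj₀⟩
  · simp
  have hc := card_star hj₀
  have h := steinitz {zz 0, zz 1, zz 2, zz 5, gg} MM MM_isOM (star J j₀) (star_indep hJ hj₀) (by
    intro X hX h0 e _
    have h1 : ∀ v, X (zz v) = 0 := NN_rank _ (MM_NN hX) (h0 _ (by simp)) (h0 _ (by simp))
      (h0 _ (by simp)) (h0 _ (by simp))
    exact MM_zero hX h1 (h0 _ (by simp)) e)
  have h2 : ({zz 0, zz 1, zz 2, zz 5, gg} : Finset (E 12)).card ≤ 5 := Finset.card_le_five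
  omega

/-- a Dilworth weak map preimage -/
structure Pre (M' : Set (SV (E 12))) : Prop where
  sw : IsSweep M'
  dil : IsDilworth M'
  lit : little M' = little MM
  wk : WeakMap M' MM

theorem same_cen : ∀ a b, same a b → cen a = cen b := by decide

theorem Pre.closed {M' : Set (SV (E 12))} (h : Pre M') {X : SV (E 12)} (hX : X ∈ M')
    {a b c : Fin 10} (hab : a ≠ b) (hac : a ≠ c) (hbc : b ≠ c) (h1 : same a b) (h2 : same a c)
    (ha : X (zz a) = 0) (hb : X (zz b) = 0) (hc : X (zz c) = 0) :
    ∀ d, same a d → X (zz d) = 0 := by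
  intro d hd
  obtain ⟨π, rfl⟩ := h.sw.braid X hX
  obtain ⟨Y, hY, y1⟩ := little_of π hX (cen a)
  rw [h.lit] at hY
  obtain ⟨π', hπ', y2⟩ := little_to hY ((y1 (cen a)).2 rfl)
  have key : ∀ w, same a w → (π.vec (zz w) = 0 ↔ π'.vec (zz w) = 0) := by
    intro w hw
    have hcw : cen w = cen a := (same_cen a w hw).symm
    rw [vec_zero, vec_zero]
    change π.p (cen w) = π.p (leaf w) ↔ π'.p (cen w) = π'.p (leaf w)
    rw [hcw]
    constructor
    · intro h5
      exact ((y2 _).1 ((y1 _).2 h5.symm)).symm
    · intro h5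
      exact ((y1 _).1 ((y2 _).2 h5.symm)).symm
  rw [key d hd]
  exact NN_closed _ (MM_NN hπ') hab hac hbc h1 h2 ((key a Iff.rfl).1 ha) ((key b h1).1 hb)
    ((key c h2).1 hc) d hd

theorem Pre.rk_univ {M' : Set (SV (E 12))} (h : Pre M') : rk M' Finset.univ ≤ 5 := by
  have h1 := (h.dil Finset.univ ⟨gg, Finset.mem_univ _⟩).2
  have hne : (Finset.univ : Finset (E 12)) ≠ ⊥ := by
    intro h2
    have h3 := Finset.mem_univ gg
    rw [h2] at h3
    simp at h3
  have h2 := h1 ⟨Finpartition.indiscrete hne, rfl⟩
  rw [Finpartition.indiscrete_parts, Finset.sum_singleton, Finset.card_singleton, h.lit] at h2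
  have h3 := rk_little_le (verts Finset.univ)
  omega

theorem Pre.rk_ge {M' : Set (SV (E 12))} (h : Pre M') (F : Finset (E 12)) (hne : F.Nonempty)
    (hF : ∀ B ⊆ F, B.Nonempty → B.card + 1 ≤ rk (little MM) (verts B)) : F.card ≤ rk M' F := by
  obtain ⟨P, hP⟩ := (h.dil F hne).1
  rw [h.lit] at hP
  have h1 : (∑ B ∈ P.parts, ((B.card : ℤ) + 1)) ≤ ∑ B ∈ P.parts, (rk (little MM) (verts B) : ℤ) := by
    refine Finset.sum_le_sum fun B hB => ?_
    have := hF B (P.le hB) (P.nonempty_of_mem_parts hB)
    exact_mod_cast this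
  rw [Finset.sum_add_distrib] at h1
  have h2 : (∑ B ∈ P.parts, (B.card : ℤ)) = F.card := by
    rw [← P.sum_card_parts]
    push_cast
    rfl
  rw [h2] at h1
  simp only [Finset.sum_const, nsmul_eq_mul, mul_one] at h1
  have h3 : (F.card : ℤ) ≤ rk M' F := by
    rw [hP]
    linarith
  exact_mod_cast h3

/-- three elements of the other class -/
def op (x : Fin 10) : Finset (Fin 10) := if x < 5 then {5, 6, 7} else {0, 1, 2}

/-- two elements of a class and three of the other class -/
def SS (x y : Fin 10) : Finset (Fin 10) := insert x (insert y (op x))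

theorem SS_card : ∀ x y, same x y → x ≠ y → (SS x y).card = 5 := by decide

theorem SS_erase : ∀ x y, same x y → x ≠ y → ∀ v ∈ SS x y,
    ∃ p ∈ (SS x y).erase v, ∃ q ∈ (SS x y).erase v, ¬ same p q := by decide

theorem op_card : ∀ x, (insert x (op x)).card = 4 := by decide

theorem op_two : ∀ x, ∃ p ∈ insert x (op x), ∃ q ∈ insert x (op x), ¬ same p q := by decide

theorem SS_indep {x y : Fin 10} (h : same x y) (hne : x ≠ y) {v : Fin 10} (hv : v ∈ SS x y) :
    Indep NN ((SS x y).erase v) :=
  NN_indep (by rw [Finset.card_erase_of_mem hv, SS_card x y h hne]) (SS_erase x y h hne v hv)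

theorem verts_mono {n : ℕ} {A B : Finset (E n)} (h : A ⊆ B) : verts A ⊆ verts B :=
  Finset.biUnion_subset_biUnion_of_subset_left _ h

theorem cen_mem_verts (v : Fin 10) {F : Finset (E 12)} (h : zz v ∈ F) : cen v ∈ verts F := by
  unfold verts
  rw [Finset.mem_biUnion]
  exact ⟨_, h, by simp [zz]⟩

theorem zero_six : ∀ p q, ¬ same p q → (cen p = 0 ∧ cen q = 6) ∨ (cen p = 6 ∧ cen q = 0) := by
  decide

theorem Pre.F_indep {M' : Set (SV (E 12))} (h : Pre M') {x y : Fin 10} (hs : same x y)
    (hne : x ≠ y) : Indep M' ((SS x y).image zz) := by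
  have hcard : ((SS x y).image zz).card = 5 := by
    rw [Finset.card_image_of_injective _ zz_inj, SS_card x y hs hne]
  have hge : 5 ≤ rk M' ((SS x y).image zz) := by
    rw [← hcard]
    refine h.rk_ge _ ⟨zz x, Finset.mem_image_of_mem _ (by simp [SS])⟩ ?_
    intro B hB hBne
    by_cases hall : ∀ v ∈ SS x y, zz v ∈ B
    · -- the full set
      have hB' : B = (SS x y).image zz := by
        refine Finset.Subset.antisymm hB ?_
        intro e he
        obtain ⟨v, hv, rfl⟩ := Finset.mem_image.1 he
        exact hall v hv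
      subst hB'
      rw [hcard]
      have hx : x ∈ SS x y := by simp [SS]
      have h1 := MM_indep (SS_indep hs hne hx)
      have h2 := card_lt_rk MM_sweep (S := verts ((SS x y).image zz)) (by
        exact ⟨_, cen_mem_verts x (Finset.mem_image_of_mem _ hx)⟩) (I :=
          insert gg (((SS x y).erase x).image zz)) (by
        intro i hi
        unfold verts at hi
        rw [Finset.mem_biUnion] at hi
        obtain ⟨e, he, hi⟩ := hi
        rcases Finset.mem_insert.1 he with rfl | he
        · obtain ⟨p, hp, q, hq, hpq⟩ := SS_erase x y hs hne x hx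
          have hp' := cen_mem_verts p (Finset.mem_image_of_mem zz (Finset.mem_erase.1 hp).2)
          have hq' := cen_mem_verts q (Finset.mem_image_of_mem zz (Finset.mem_erase.1 hq).2)
          have h3 : i = 0 ∨ i = 6 := by simpa [gg] using hi
          rcases zero_six p q hpq with ⟨c1, c2⟩ | ⟨c1, c2⟩
          · rw [c1] at hp'
            rw [c2] at hq'
            rcases h3 with rfl | rfl
            · exact hp'
            · exact hq'
          · rw [c1] at hp'
            rw [c2] at hq'
            rcases h3 with rfl | rfl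
            · exact hq'
            · exact hp'
        · unfold verts
          rw [Finset.mem_biUnion]
          obtain ⟨v, hv, rfl⟩ := Finset.mem_image.1 he
          exact ⟨_, Finset.mem_image_of_mem zz (Finset.mem_erase.1 hv).2, hi⟩) h1
      rw [Finset.card_insert_of_notMem, Finset.card_image_of_injective _ zz_inj,
        Finset.card_erase_of_mem hx, SS_card x y hs hne] at h2
      · exact h2
      · intro h3
        obtain ⟨v, -, hv⟩ := Finset.mem_image.1 h3
        exact zz_ne_gg v hv
    · push Not at hall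
      obtain ⟨v, hv, hvB⟩ := hall
      have h1 := (MM_indep (SS_indep hs hne hv)).mono (I := B) (by
        intro e he
        obtain ⟨w, hw, rfl⟩ := Finset.mem_image.1 (hB he)
        refine Finset.mem_insert_of_mem (Finset.mem_image_of_mem _ (Finset.mem_erase.2 ⟨?_, hw⟩))
        rintro rfl
        exact hvB he)
      refine card_lt_rk MM_sweep ?_ (Finset.Subset.refl _) h1
      obtain ⟨e, he⟩ := hBne
      refine ⟨e.1.1, ?_⟩
      unfold verts
      rw [Finset.mem_biUnion]
      exact ⟨e, he, by simp⟩
  obtain ⟨I, hI, h1, h2⟩ := exists_indep M' ((SS x y).image zz)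
  have h3 : I = (SS x y).image zz := Finset.eq_of_subset_of_card_le hI (by omega)
  rw [← h3]
  exact h1

/-- covectors with five zeros -/
theorem Pre.vanish {M' : Set (SV (E 12))} (h : Pre M') {I : Finset (E 12)} (hI : Indep M' I)
    (hc : 5 ≤ I.card) {X : SV (E 12)} (hX : X ∈ M') (h0 : ∀ f ∈ I, X f = 0) : ∀ e, X e = 0 :=
  fun e => vanish_of_full h.sw.om hI (le_trans h.rk_univ hc) (Finset.subset_univ _) hX h0 e
    (Finset.mem_univ e)

/-- the star covectors -/
theorem Pre.exists_star {M' : Set (SV (E 12))} (h : Pre M') (x : Fin 10) :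
    ∃ Y ∈ M', Y (zz x) = 0 ∧ (∀ y, ¬ same x y → Y (zz y) = 0) ∧ Y gg = 1 ∧
      ∀ y, same x y → x ≠ y → Y (zz y) ≠ 0 := by
  obtain ⟨X, hX, h1, h2⟩ := MM_surj NN_zero 1
  have hI : Indep MM ((insert x (op x)).image zz) :=
    (MM_indep (NN_indep (op_card x) (op_two x))).mono (Finset.subset_insert _ _)
  obtain ⟨Z, hZ, h3, h4⟩ := weak_lift h.sw.om MM_isOM h.wk hI hX (by
    intro i hi
    obtain ⟨v, -, rfl⟩ := Finset.mem_image.1 hi
    exact h1 v)
  have hx : Z (zz x) = 0 := h3 _ (Finset.mem_image_of_mem _ (Finset.mem_insert_self _ _))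
  have hg : Z gg = 1 := by
    rw [h4 gg (by rw [h2]; decide), h2]
  have hopp : ∀ y, ¬ same x y → Z (zz y) = 0 := by
    have hz : ∀ w ∈ op x, Z (zz w) = 0 := fun w hw =>
      h3 _ (Finset.mem_image_of_mem _ (Finset.mem_insert_of_mem hw))
    intro y hy
    by_cases hx5 : x < 5
    · have e : op x = {5, 6, 7} := by simp [op, hx5]
      rw [e] at hz
      refine h.closed hZ (a := 5) (b := 6) (c := 7) (by decide) (by decide) (by decide)
        (by decide) (by decide) (hz _ (by simp)) (hz _ (by simp)) (hz _ (by simp)) y ?_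
      unfold same at *
      have : ¬ (5 : Fin 10) < 5 := by decide
      tauto
    · have e : op x = {0, 1, 2} := by simp [op, hx5]
      rw [e] at hz
      refine h.closed hZ (a := 0) (b := 1) (c := 2) (by decide) (by decide) (by decide)
        (by decide) (by decide) (hz _ (by simp)) (hz _ (by simp)) (hz _ (by simp)) y ?_
      unfold same at *
      have : (0 : Fin 10) < 5 := by decide
      tauto
  refine ⟨Z, hZ, hx, hopp, hg, ?_⟩
  intro y hy hxy h0
  have h5 := h.vanish (h.F_indep hy hxy) (by
    rw [Finset.card_image_of_injective _ zz_inj, SS_card x y hy hxy]) hZ (by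
    intro f hf
    obtain ⟨v, hv, rfl⟩ := Finset.mem_image.1 hf
    unfold SS at hv
    rcases Finset.mem_insert.1 hv with rfl | hv
    · exact hx
    · rcases Finset.mem_insert.1 hv with rfl | hv
      · exact h0
      · exact h3 _ (Finset.mem_image_of_mem _ (Finset.mem_insert_of_mem hv))) gg
  rw [hg] at h5
  exact absurd h5 (by decide)

end Pool.Agent.Sweep
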