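import Pool.Agent.Lib.MP_26a7e2_co.Basic

/-!
# MP_26a7e2_co : a criterion for oriented matroids
-/

namespace Pool.Agent.Sweep

theorem om_of_facets {E : Type} [Fintype E] (N : Set (SV E)) (h0 : (fun _ => 0) ∈ N)
    (hneg : ∀ X ∈ N, (fun e => -X e) ∈ N) (hcomp : ∀ X ∈ N, ∀ Y ∈ N, scomp X Y ∈ N)
    (hG : ∀ X ∈ N, ∀ Y ∈ N, (∀ e, X e = 0 ↔ Y e = 0) → X ≠ Y →
      ∃ Z ∈ N, (∀ e, Z e = 0 ∨ Z e = X e) ∧ (∃ e, Z e = 0 ∧ X e ≠ 0) ∧
        ∀ e, Z e = 0 → X e ≠ 0 → Y e = -X e) : IsOM N where
  zero := h0
  neg := hneg
  comp := hcomp
  elim := by
    classical
    have key : ∀ n : ℕ, ∀ A ∈ N, ∀ B ∈ N, (∀ e, A e = 0 ↔ B e = 0) →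
        (Finset.univ.filter fun f => Sep A B f).card = n → ∀ e, Sep A B e →
        ∃ Z ∈ N, Z e = 0 ∧ ∀ f, ¬ Sep A B f → Z f = A f := by
      intro n
      induction n using Nat.strong_induction_on with
      | _ n ih =>
        intro A hA B hB hs hn e he
        have hne : A ≠ B := by
          rintro rfl
          obtain ⟨h1, h2⟩ := he
          revert h1 h2
          generalize A e = a
          revert a
          decide
        obtain ⟨Z₀, hZ₀, h1, ⟨e₀, h2, h2'⟩, h3⟩ := hG A hA B hB hs hne
        by_cases hz : Z₀ e = 0
        · refine ⟨Z₀, hZ₀, hz, ?_⟩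
          intro f hf
          rcases h1 f with h4 | h4
          · by_cases h5 : A f = 0
            · rw [h4, h5]
            · exact absurd ⟨h5, h3 f h4 h5⟩ hf
          · exact h4
        · -- pass to the opposite covector
          have hA' : scomp Z₀ (fun e => -A e) ∈ N := hcomp _ hZ₀ _ (hneg _ hA)
          have hval : ∀ f, (Z₀ f = 0 → scomp Z₀ (fun e => -A e) f = -A f) ∧
              (Z₀ f ≠ 0 → scomp Z₀ (fun e => -A e) f = A f) := by
            intro f
            refine ⟨fun h => by simp [scomp, h], fun h => ?_⟩
            have h4 := (h1 f).resolve_left h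
            simp only [scomp, h, if_false]
            exact h4
          have hsep : ∀ f, Sep (scomp Z₀ (fun e => -A e)) B f ↔ Sep A B f ∧ Z₀ f ≠ 0 := by
            intro f
            unfold Sep
            by_cases h4 : Z₀ f = 0
            · rw [(hval f).1 h4]
              constructor
              · rintro ⟨h5, h6⟩
                exfalso
                have h7 : A f ≠ 0 := by simpa using h5
                have h8 := h3 f h4 h7
                rw [h8] at h6
                revert h7 h6
                generalize A f = a
                revert a
                decide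
              · rintro ⟨-, h5⟩
                exact absurd h4 h5
            · rw [(hval f).2 h4]
              tauto
          obtain ⟨Z, hZ, hz0, hzf⟩ := ih _ (by
            rw [← hn]
            refine Finset.card_lt_card ?_
            rw [Finset.ssubset_iff_of_subset]
            · refine ⟨e₀, ?_, ?_⟩
              · simp only [Finset.mem_filter, Finset.mem_univ, true_and]
                exact ⟨h2', h3 e₀ h2 h2'⟩
              · simp only [Finset.mem_filter, Finset.mem_univ, true_and]
                intro h
                exact ((hsep e₀).1 h).2 h2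
            · intro f hf
              simp only [Finset.mem_filter, Finset.mem_univ, true_and] at hf ⊢
              exact ((hsep f).1 hf).1) (scomp Z₀ (fun e => -A e)) hA' B hB (by
            intro f
            rw [← hs f]
            by_cases h4 : Z₀ f = 0
            · rw [(hval f).1 h4]
              generalize A f = a
              revert a
              decide
            · rw [(hval f).2 h4]) rfl e ((hsep e).2 ⟨he, hz⟩)
          refine ⟨Z, hZ, hz0, ?_⟩
          intro f hf
          rw [hzf f (fun h => hf ((hsep f).1 h).1)]
          by_cases h4 : Z₀ f = 0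
          · rw [(hval f).1 h4]
            by_cases h5 : A f = 0
            · rw [h5]; rfl
            · exact absurd ⟨h5, h3 f h4 h5⟩ hf
          · exact (hval f).2 h4
    intro X hX Y hY e he
    obtain ⟨Z, hZ, h1, h2⟩ := key _ (scomp X Y) (hcomp _ hX _ hY) (scomp Y X) (hcomp _ hY _ hX) (by
      intro f
      unfold scomp
      generalize X f = a
      generalize Y f = b
      revert a b
      decide) rfl e (by
      unfold Sep scomp at *
      revert he
      generalize X e = a
      generalize Y e = b
      revert a b
      decide)
    refine ⟨Z, hZ, h1, ?_⟩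
    intro f hf
    refine h2 f ?_
    unfold Sep scomp at *
    revert hf
    generalize X f = a
    generalize Y f = b
    revert a b
    decide

end Pool.Agent.Sweep
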