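import Pool.Agent.Lib.MP_26a7e2_co.Op

/-!
# MP_26a7e2_co : the little oriented matroid
-/

namespace Pool.Agent.Sweep

variable {n : ℕ} {M : Set (SV (E n))}

theorem little_of (π : OP n) (h : π.vec ∈ M) (i₀ : Fin n) :
    ∃ Y ∈ little M, ∀ i, Y i = 0 ↔ π.p i = π.p i₀ := by
  refine ⟨_, ⟨π, h, Or.inr ⟨(π.p i₀ : ℕ), (π.p i₀).2, rfl⟩⟩, ?_⟩
  intro i
  split_ifs with h1 h2
  · exact ⟨fun h => absurd h (by decide), fun h => absurd h1 (by rw [h]; exact lt_irrefl _)⟩
  · exact ⟨fun _ => Fin.ext h2, fun _ => rfl⟩
  · exact ⟨fun h => absurd h (by decide), fun h => absurd (congrArg Fin.val h) h2⟩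

theorem little_to {Y : SV (Fin n)} (hY : Y ∈ little M) {i₀ : Fin n} (h0 : Y i₀ = 0) :
    ∃ π : OP n, π.vec ∈ M ∧ ∀ i, Y i = 0 ↔ π.p i = π.p i₀ := by
  obtain ⟨π, hπ, h | h⟩ := hY
  · obtain ⟨m, -, rfl⟩ := h
    exfalso
    revert h0
    simp only
    split_ifs <;> decide
  · obtain ⟨m, -, rfl⟩ := h
    simp only at h0
    have key : ∀ i, (if (π.p i : ℕ) < m then (-1 : SignType) else
        if (π.p i : ℕ) = m then 0 else 1) = 0 ↔ (π.p i : ℕ) = m := by
      intro i
      split_ifs with h1 h2
      · exact ⟨fun h => absurd h (by decide), fun h => absurd h1 (by rw [h]; exact lt_irrefl _)⟩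
      · exact ⟨fun _ => h2, fun _ => rfl⟩
      · exact ⟨fun h => absurd h (by decide), fun h => absurd h h2⟩
    refine ⟨π, hπ, fun i => ?_⟩
    rw [key] at h0
    rw [key, Fin.ext_iff, h0]

theorem little_one (hM : IsSweep M) : (fun _ => 1) ∈ little M := by
  obtain ⟨π, hπ⟩ := hM.braid _ hM.om.zero
  exact ⟨π, hπ ▸ hM.om.zero, Or.inl ⟨0, Nat.zero_le _, by funext i; simp⟩⟩

open Classical in
/-- the star with center `j₀` -/
noncomputable def star (J : Finset (Fin n)) (j₀ : Fin n) : Finset (E n) :=
  (Finset.univ : Finset (E n)).filter fun e => ∃ j ∈ J, ∃ h : j₀ ≠ j, e = pr j₀ j h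

theorem mem_star {J : Finset (Fin n)} {j₀ : Fin n} {e : E n} :
    e ∈ star J j₀ ↔ ∃ j ∈ J, ∃ h : j₀ ≠ j, e = pr j₀ j h := by
  simp [star]

theorem pr_inj {i j k : Fin n} (h : i ≠ j) (h' : i ≠ k) (he : pr i j h = pr i k h') : j = k := by
  unfold pr at he
  split_ifs at he with h1 h2 h2
  · exact (Prod.ext_iff.1 (congrArg Subtype.val he)).2
  · have := Prod.ext_iff.1 (congrArg Subtype.val he)
    exact absurd this.1.symm h'.symm
  · have := Prod.ext_iff.1 (congrArg Subtype.val he)
    exact absurd this.2 h'
  · exact (Prod.ext_iff.1 (congrArg Subtype.val he)).1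

theorem card_star {J : Finset (Fin n)} {j₀ : Fin n} (h : j₀ ∈ J) :
    (star J j₀).card + 1 = J.card := by
  classical
  rw [← Finset.card_erase_add_one h]
  congr 1
  symm
  refine Finset.card_bij (fun j hj => pr j₀ j (Finset.mem_erase.1 hj).1.symm) ?_ ?_ ?_
  · intro j hj
    exact mem_star.2 ⟨j, (Finset.mem_erase.1 hj).2, _, rfl⟩
  · intro j hj k hk h
    exact pr_inj _ _ h
  · intro e he
    obtain ⟨j, hj, h, rfl⟩ := mem_star.1 he
    exact ⟨j, Finset.mem_erase.2 ⟨h.symm, hj⟩, rfl⟩

/-- stars of independent sets of points are independent -/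
theorem star_indep {J : Finset (Fin n)} (hJ : Indep (little M) J) {j₀ : Fin n}
    (h0 : j₀ ∈ J) : Indep M (star J j₀) := by
  intro e he
  obtain ⟨j, hj, h, rfl⟩ := mem_star.1 he
  obtain ⟨Y, hY, h1, h2⟩ := hJ j hj
  obtain ⟨π, hπ, h3⟩ := little_to hY (h2 j₀ h0 h)
  refine ⟨_, hπ, ?_, ?_⟩
  · rw [Ne, vec_pr]
    intro h4
    exact h1 ((h3 j).2 h4.symm)
  · intro f hf hfe
    obtain ⟨k, hk, h', rfl⟩ := mem_star.1 hf
    rw [vec_pr]
    refine ((h3 k).1 (h2 k hk ?_)).symm
    rintro rfl
    exact hfe rfl

/-- the rank of a set of pairs is smaller than the rank of its points -/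
theorem card_lt_rk (hM : IsSweep M) {S : Finset (Fin n)} (hS : S.Nonempty) {I : Finset (E n)}
    (hIS : verts I ⊆ S) (hI : Indep M I) : I.card + 1 ≤ rk (little M) S := by
  classical
  obtain ⟨J, hJS, hJ, hJc⟩ := exists_indep (little M) S
  -- `J` is nonempty
  have hJne : J.Nonempty := by
    rw [← Finset.card_pos, hJc]
    obtain ⟨s, hs⟩ := hS
    have h1 : Indep (little M) {s} := by
      intro e he
      refine ⟨_, little_one hM, by decide, ?_⟩
      intro f hf hfe
      rw [Finset.mem_singleton] at he hf
      exact absurd (hf.trans he.symm) hfe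
    have := le_rk (L := little M) (F := S) (I := {s}) (by simpa using hs) h1
    rw [Finset.card_singleton] at this
    omega
  obtain ⟨j₀, hj₀⟩ := hJne
  have hc := card_star hj₀
  have hspan : ∀ X ∈ M, (∀ t ∈ star J j₀, X t = 0) → ∀ e ∈ I, X e = 0 := by
    intro X hX h0 e he
    obtain ⟨π, rfl⟩ := hM.braid X hX
    have hJp : ∀ j ∈ J, π.p j = π.p j₀ := by
      intro j hj
      by_cases h : j₀ = j
      · rw [h]
      · have := h0 _ (mem_star.2 ⟨j, hj, h, rfl⟩)
        rw [vec_pr] at this
        exact this.symm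
    have hSp : ∀ s ∈ S, π.p s = π.p j₀ := by
      intro s hs
      by_contra hne
      have hsJ : s ∉ J := fun h => hne (hJp s h)
      have hins : Indep (little M) (insert s J) := by
        intro e he
        rcases Finset.mem_insert.1 he with rfl | heJ
        · obtain ⟨Y, hY, h1⟩ := little_of π hX j₀
          refine ⟨Y, hY, fun h => hne ((h1 _).1 h), ?_⟩
          intro f hf hfe
          rcases Finset.mem_insert.1 hf with h | hf
          · exact absurd h hfe
          · exact (h1 _).2 (hJp f hf)
        · by_cases hJ1 : ∃ j₁ ∈ J, j₁ ≠ e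
          · obtain ⟨j₁, hj₁, h1e⟩ := hJ1
            have h1s : j₁ ≠ s := fun h => hsJ (h ▸ hj₁)
            have hst := star_indep hJ hj₁
            have hst' : Indep M (insert (pr j₁ s h1s) (star J j₁)) := by
              refine indep_insert hM.om hst hX ?_ ?_
              · intro f hf
                obtain ⟨k, hk, h, rfl⟩ := mem_star.1 hf
                rw [vec_pr, hJp _ hj₁, hJp _ hk]
              · rw [Ne, vec_pr, hJp _ hj₁]
                exact fun h => hne h.symm
            obtain ⟨X', hX', h3, h4⟩ := hst' (pr j₁ e h1e)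
              (Finset.mem_insert_of_mem (mem_star.2 ⟨e, heJ, h1e, rfl⟩))
            obtain ⟨π', rfl⟩ := hM.braid X' hX'
            obtain ⟨Y, hY, h5⟩ := little_of π' hX' j₁
            refine ⟨Y, hY, ?_, ?_⟩
            · intro h
              apply h3
              rw [vec_pr, (h5 e).1 h]
            · intro f hf hfe
              rw [h5]
              by_cases hf1 : j₁ = f
              · rw [hf1]
              · have h6 : pr j₁ f hf1 ∈ insert (pr j₁ s h1s) (star J j₁) := by
                  rcases Finset.mem_insert.1 hf with h | hf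
                  · subst h
                    exact Finset.mem_insert_self _ _
                  · exact Finset.mem_insert_of_mem (mem_star.2 ⟨f, hf, hf1, rfl⟩)
                have h7 := h4 _ h6 (fun h => hfe (pr_inj _ _ h))
                rw [vec_pr] at h7
                exact h7.symm
          · push Not at hJ1
            obtain ⟨Y, hY, h1⟩ := little_of π hX s
            refine ⟨Y, hY, ?_, ?_⟩
            · intro h
              rw [h1, hJp e heJ] at h
              exact hne h.symm
            · intro f hf hfe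
              rcases Finset.mem_insert.1 hf with h | hf
              · rw [h1, h]
              · exact absurd (hJ1 f hf) hfe
      have h1 := le_rk (L := little M) (F := S) (I := insert s J) (by
        intro x hx
        rcases Finset.mem_insert.1 hx with rfl | hx
        · exact hs
        · exact hJS hx) hins
      rw [Finset.card_insert_of_notMem hsJ] at h1
      omega
    rw [vec_zero]
    have h1 : e.1.1 ∈ verts I := by
      unfold verts
      rw [Finset.mem_biUnion]
      exact ⟨e, he, by simp⟩
    have h2 : e.1.2 ∈ verts I := by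
      unfold verts
      rw [Finset.mem_biUnion]
      exact ⟨e, he, by simp⟩
    rw [hSp _ (hIS h1), hSp _ (hIS h2)]
  have := steinitz (star J j₀) M hM.om I hI hspan
  omega

end Pool.Agent.Sweep
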