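import Pool.Agent.Lib.MP_26a7e2_co.NDef

/-!
# MP_26a7e2_co : basic properties of the oriented matroid `N`
-/

namespace Pool.Agent.Sweep

theorem cd_bit1 (X : SV (Fin 10)) (i : Fin 10) : (cd X).1.testBit i = (X i == 1) := by
  simp [cd]

theorem cd_bit2 (X : SV (Fin 10)) (i : Fin 10) : (cd X).2.testBit i = (X i == -1) := by
  simp [cd]

theorem cd_bit1' (X : SV (Fin 10)) (i : ℕ) (h : 10 ≤ i) : (cd X).1.testBit i = false := by
  simp [cd, h]

theorem cd_bit2' (X : SV (Fin 10)) (i : ℕ) (h : 10 ≤ i) : (cd X).2.testBit i = false := by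
  simp [cd, h]

theorem cd_lt1 (X : SV (Fin 10)) : (cd X).1 < 2 ^ 10 := Nat.ofBits_lt_two_pow _

theorem cd_lt2 (X : SV (Fin 10)) : (cd X).2 < 2 ^ 10 := Nat.ofBits_lt_two_pow _

theorem land_eq_zero (a b : ℕ) : Nat.land a b = 0 ↔
    ∀ i, ¬ (a.testBit i = true ∧ b.testBit i = true) := by
  constructor
  · intro h i hi
    have h1 : (Nat.land a b).testBit i = true := by
      change (a &&& b).testBit i = true
      rw [Nat.testBit_and, hi.1, hi.2]
      rfl
    rw [h] at h1
    simp at h1
  · intro h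
    apply Nat.eq_of_testBit_eq
    intro i
    change (a &&& b).testBit i = _
    rw [Nat.testBit_and, Nat.zero_testBit]
    have := h i
    revert this
    cases a.testBit i <;> cases b.testBit i <;> simp

theorem lor_eq_zero (a b : ℕ) : Nat.lor a b = 0 ↔ a = 0 ∧ b = 0 := by
  change (a ||| b) = 0 ↔ _
  constructor
  · intro h
    constructor
    · apply Nat.eq_of_testBit_eq
      intro i
      have h1 : (a ||| b).testBit i = (0 : ℕ).testBit i := by rw [h]
      rw [Nat.testBit_or, Nat.zero_testBit] at h1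
      rw [Nat.zero_testBit]
      revert h1
      cases a.testBit i <;> simp
    · apply Nat.eq_of_testBit_eq
      intro i
      have h1 : (a ||| b).testBit i = (0 : ℕ).testBit i := by rw [h]
      rw [Nat.testBit_or, Nat.zero_testBit] at h1
      rw [Nat.zero_testBit]
      revert h1
      cases b.testBit i <;> simp
  · rintro ⟨rfl, rfl⟩
    rfl

/-- `X` and `c` agree somewhere -/
def hit (c : ℕ × ℕ) (X : SV (Fin 10)) : Prop :=
  ∃ i : Fin 10, (X i = 1 ∧ c.1.testBit i = true) ∨ (X i = -1 ∧ c.2.testBit i = true)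

theorem beq_hit (c : ℕ × ℕ) (X : SV (Fin 10)) :
    Nat.beq (Nat.lor (Nat.land (cd X).1 c.1) (Nat.land (cd X).2 c.2)) 0 = true ↔ ¬ hit c X := by
  rw [Nat.beq_eq, lor_eq_zero, land_eq_zero, land_eq_zero]
  constructor
  · rintro ⟨h1, h2⟩ ⟨i, h | h⟩
    · refine h1 i ⟨?_, h.2⟩
      rw [cd_bit1, h.1]
      rfl
    · refine h2 i ⟨?_, h.2⟩
      rw [cd_bit2, h.1]
      rfl
  · intro h
    constructor
    · rintro i ⟨h1, h2⟩
      rcases lt_or_ge i 10 with h3 | h3
      · refine h ⟨⟨i, h3⟩, Or.inl ⟨?_, h2⟩⟩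
        have h4 := cd_bit1 X ⟨i, h3⟩
        simp only at h4
        rw [h4] at h1
        simpa using h1
      · rw [cd_bit1' X i h3] at h1
        exact absurd h1 (by simp)
    · rintro i ⟨h1, h2⟩
      rcases lt_or_ge i 10 with h3 | h3
      · refine h ⟨⟨i, h3⟩, Or.inr ⟨?_, h2⟩⟩
        have h4 := cd_bit2 X ⟨i, h3⟩
        simp only at h4
        rw [h4] at h1
        simpa using h1
      · rw [cd_bit2' X i h3] at h1
        exact absurd h1 (by simp)

theorem okc_iff (c : ℕ × ℕ) (X : SV (Fin 10)) :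
    okc c (cd X) = true ↔ (hit c X ↔ hit (c.2, c.1) X) := by
  have h1 := beq_hit c X
  have h2 := beq_hit (c.2, c.1) X
  simp only at h2
  unfold okc
  rw [beq_iff_eq]
  constructor
  · intro h
    rw [h] at h1
    rw [← not_iff_not]
    exact h1.symm.trans h2
  · intro h
    rw [Bool.eq_iff_iff, h1, h2, h]

theorem NN_zero : (fun _ => 0) ∈ NN := by
  intro k hk c hc
  rw [okc_iff]
  constructor
  · rintro ⟨i, h | h⟩
    · exact absurd h.1 (show ¬ ((0 : SignType) = 1) by decide)
    · exact absurd h.1 (show ¬ ((0 : SignType) = -1) by decide)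
  · rintro ⟨i, h | h⟩
    · exact absurd h.1 (show ¬ ((0 : SignType) = 1) by decide)
    · exact absurd h.1 (show ¬ ((0 : SignType) = -1) by decide)

theorem hit_neg (c : ℕ × ℕ) (X : SV (Fin 10)) :
    hit c (fun e => -X e) ↔ hit (c.2, c.1) X := by
  unfold hit
  refine exists_congr fun i => ?_
  have h1 : (-X i = 1) ↔ X i = -1 := by
    generalize X i = a
    revert a
    decide
  have h2 : (-X i = -1) ↔ X i = 1 := by
    generalize X i = a
    revert a
    decide
  rw [h1, h2]
  tauto

theorem NN_neg : ∀ X ∈ NN, (fun e => -X e) ∈ NN := by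
  intro X hX k hk c hc
  have h := hX k hk c hc
  rw [okc_iff] at h ⊢
  rw [hit_neg, hit_neg]
  exact h.symm

theorem NN_comp : ∀ X ∈ NN, ∀ Y ∈ NN, scomp X Y ∈ NN := by
  intro X hX Y hY k hk c hc
  have h1 := hX k hk c hc
  have h2 := hY k hk c hc
  rw [okc_iff] at h1 h2 ⊢
  have mono : ∀ d : ℕ × ℕ, hit d X → hit d (scomp X Y) := by
    rintro d ⟨i, h | h⟩
    · exact ⟨i, Or.inl ⟨by simp [scomp, h.1], h.2⟩⟩
    · exact ⟨i, Or.inr ⟨by simp [scomp, h.1], h.2⟩⟩
  by_cases h : hit c X
  · exact ⟨fun _ => mono _ (h1.1 h), fun _ => mono _ h⟩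
  · have h' : ¬ hit (c.2, c.1) X := fun h3 => h (h1.2 h3)
    have hval : ∀ i : Fin 10, (c.1.testBit i = true ∨ c.2.testBit i = true) → X i = 0 := by
      intro i hi
      by_contra h0
      have h5 : X i = 1 ∨ X i = -1 := by
        revert h0
        generalize X i = a
        revert a
        decide
      rcases h5 with h5 | h5 <;> rcases hi with hi | hi
      · exact h ⟨i, Or.inl ⟨h5, hi⟩⟩
      · exact h' ⟨i, Or.inl ⟨h5, hi⟩⟩
      · exact h' ⟨i, Or.inr ⟨h5, hi⟩⟩
      · exact h ⟨i, Or.inr ⟨h5, hi⟩⟩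
    have e1 : hit c (scomp X Y) ↔ hit c Y := by
      unfold hit
      refine exists_congr fun i => ?_
      by_cases h6 : c.1.testBit i = true ∨ c.2.testBit i = true
      · have h7 := hval i h6
        have h8 : scomp X Y i = Y i := by simp [scomp, h7]
        rw [h8]
      · push Not at h6
        simp [h6.1, h6.2]
    have e2 : hit (c.2, c.1) (scomp X Y) ↔ hit (c.2, c.1) Y := by
      unfold hit
      refine exists_congr fun i => ?_
      by_cases h6 : c.1.testBit i = true ∨ c.2.testBit i = true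
      · have h7 := hval i h6
        have h8 : scomp X Y i = Y i := by simp [scomp, h7]
        rw [h8]
      · push Not at h6
        simp [h6.1, h6.2]
    rw [e1, e2]
    exact h2

theorem circs_lt : ∀ k < 10, ∀ c ∈ circs k, c.1 < 2 ^ (k + 1) ∧ c.2 < 2 ^ (k + 1) := by
  decide

theorem land_mod (a c k : ℕ) (h : c < 2 ^ k) : Nat.land (a % 2 ^ k) c = Nat.land a c := by
  apply Nat.eq_of_testBit_eq
  intro i
  change (a % 2 ^ k &&& c).testBit i = (a &&& c).testBit i
  rw [Nat.testBit_and, Nat.testBit_and, Nat.testBit_mod_two_pow]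
  by_cases hi : i < k
  · simp [hi]
  · have h1 : c.testBit i = false :=
      Nat.testBit_lt_two_pow (lt_of_lt_of_le h (Nat.pow_le_pow_right (by norm_num) (by omega)))
    simp [h1]

theorem okc_mod (c x : ℕ × ℕ) (k : ℕ) (h1 : c.1 < 2 ^ k) (h2 : c.2 < 2 ^ k) :
    okc c (x.1 % 2 ^ k, x.2 % 2 ^ k) = okc c x := by
  unfold okc
  simp only [land_mod _ _ _ h1, land_mod _ _ _ h2]

/-- completeness of the list -/
theorem cd_mem_lst {X : SV (Fin 10)} (hX : X ∈ NN) : cd X ∈ lst 10 := by
  have key : ∀ k ≤ 10, ((cd X).1 % 2 ^ k, (cd X).2 % 2 ^ k) ∈ lst k := by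
    intro k
    induction k with
    | zero =>
      intro _
      simp [lst, Nat.mod_one]
    | succ k ih =>
      intro hk
      have h1 := ih (by omega)
      have hk' : k < 10 := by omega
      unfold lst
      rw [List.mem_flatMap]
      refine ⟨_, h1, ?_⟩
      rw [List.mem_filter]
      constructor
      · have hb1 := cd_bit1 X ⟨k, hk'⟩
        have hb2 := cd_bit2 X ⟨k, hk'⟩
        simp only at hb1 hb2
        have e1 : (cd X).1 % 2 ^ (k + 1) = (cd X).1 % 2 ^ k + 2 ^ k * ((cd X).1.testBit k).toNat := by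
          rw [Nat.mod_pow_succ, Nat.toNat_testBit]
        have e2 : (cd X).2 % 2 ^ (k + 1) = (cd X).2 % 2 ^ k + 2 ^ k * ((cd X).2.testBit k).toNat := by
          rw [Nat.mod_pow_succ, Nat.toNat_testBit]
        rw [e1, e2, hb1, hb2]
        generalize X ⟨k, hk'⟩ = a
        have ha : a = 0 ∨ a = 1 ∨ a = -1 := by
          revert a
          decide
        rcases ha with rfl | rfl | rfl
        · have h1 : (((0 : SignType) == 1).toNat : ℕ) = 0 := by decide
          have h2 : (((0 : SignType) == -1).toNat : ℕ) = 0 := by decide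
          rw [h1, h2]
          simp
        · have h1 : (((1 : SignType) == 1).toNat : ℕ) = 1 := by decide
          have h2 : (((1 : SignType) == -1).toNat : ℕ) = 0 := by decide
          rw [h1, h2]
          simp
        · have h1 : (((-1 : SignType) == 1).toNat : ℕ) = 0 := by decide
          have h2 : (((-1 : SignType) == -1).toNat : ℕ) = 1 := by decide
          rw [h1, h2]
          simp
      · rw [List.all_eq_true]
        intro c hc
        have h3 := circs_lt k hk' c hc
        rw [okc_mod c (cd X) (k + 1) h3.1 h3.2]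
        exact hX k hk' c hc
  have h := key 10 le_rfl
  rw [Nat.mod_eq_of_lt (cd_lt1 X), Nat.mod_eq_of_lt (cd_lt2 X)] at h
  exact h

/-- the sign vector with given masks -/
def dec (x : ℕ × ℕ) : SV (Fin 10) := fun i =>
  if x.1.testBit i then 1 else if x.2.testBit i then -1 else 0

end Pool.Agent.Sweep
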