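import Pool.Agent.Lib.MP_26a7e2_co.NBasic

/-!
# MP_26a7e2_co : the covectors of `N` with their facets
-/

namespace Pool.Agent.Sweep

private def d1023_0 : List (ℕ × ℕ × List ℕ) :=
  [(1023, 0, [1, 2, 4, 8, 16, 32, 64, 128, 256, 512]), (511, 512, [8, 16, 32, 256, 512]), (767,
  256, [4, 8, 128, 256, 512]), (255, 768, [4, 8, 32, 128, 256, 512]), (895, 128, [2, 4, 64, 128,
  256]), (639, 384, [2, 4, 64, 128, 256, 512]), (127, 896, [2, 4, 32, 64, 128, 512]), (959, 64,
  [1, 2, 32, 64, 128]), (831, 192, [1, 2, 32, 64, 128, 256]), (575, 448, [1, 2, 32, 64, 256,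
  512]), (63, 960, [1, 2, 32, 64, 512]), (991, 32, [1, 16, 32, 64, 512]), (479, 544, [8, 16, 32,
  64, 256, 512]), (223, 800, [4, 8, 32, 64, 128, 256]), (95, 928, [2, 4, 32, 64, 128]), (927,
  96, [1, 16, 32, 64, 128, 512]), (415, 608, [8, 16, 64, 128, 256, 512]), (159, 864, [4, 8, 64,
  128, 256]), (799, 224, [1, 16, 32, 128, 256, 512]), (287, 736, [8, 16, 128, 256, 512]), (543,
  480, [1, 16, 32, 256, 512]), (31, 992, [1, 2, 4, 8, 16, 32, 64, 128, 256, 512]), (1007, 16,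
  [1, 8, 16, 32, 512]), (495, 528, [8, 16, 32, 512]), (975, 48, [1, 8, 16, 32, 64, 512]), (463,
  560, [8, 16, 32, 64, 512]), (911, 112, [1, 8, 16, 64, 128, 512]), (399, 624, [1, 8, 16, 64,
  128, 512]), (783, 240, [1, 16, 128, 256, 512]), (271, 752, [1, 8, 16, 128, 256, 512]), (527,
  496, [1, 16, 256, 512]), (15, 1008, [1, 8, 16, 256, 512]), (1015, 8, [4, 8, 16, 256, 512]),
  (503, 520, [4, 8, 16, 32, 256, 512]), (759, 264, [4, 8, 256, 512]), (247, 776, [4, 8, 32, 256,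
  512]), (471, 552, [4, 8, 16, 32, 64, 256]), (215, 808, [4, 8, 16, 32, 64, 256]), (407, 616,
  [8, 16, 64, 128, 256]), (151, 872, [4, 8, 16, 64, 128, 256]), (279, 744, [8, 16, 128, 256]),
  (23, 1000, [4, 8, 16, 128, 256]), (999, 24, [1, 4, 8, 16, 32, 512]), (487, 536, [4, 8, 16, 32,
  512]), (967, 56, [1, 4, 8, 32, 64, 512]), (455, 568, [1, 4, 8, 16, 32, 64, 256, 512]), (199,
  824, [4, 16, 64, 256]), (903, 120, [1, 8, 64, 512]), (391, 632, [1, 4, 8, 16, 64, 128, 256,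
  512]), (135, 888, [1, 4, 16, 64, 128, 256]), (263, 760, [1, 8, 16, 128, 256]), (7, 1016, [1,
  4, 8, 16, 128, 256]), (1019, 4, [2, 4, 8, 128, 256]), (763, 260, [2, 4, 8, 128, 256, 512]),
  (251, 772, [2, 4, 8, 32, 128, 512]), (891, 132, [2, 4, 128, 256]), (635, 388, [2, 4, 128, 256,
  512]), (123, 900, [2, 4, 8, 32, 128, 512]), (219, 804, [4, 8, 32, 64, 128]), (91, 932, [2, 4,
  8, 32, 64, 128]), (155, 868, [4, 8, 64, 128])]

private def d1023_1 : List (ℕ × ℕ × List ℕ) :=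
  [(27, 996, [2, 4, 8, 64, 128]), (1011, 12, [2, 4, 8, 16, 256, 512]), (499, 524, [2, 4, 16, 32,
  256, 512]), (755, 268, [2, 4, 8, 256, 512]), (243, 780, [2, 4, 8, 16, 32, 128, 256, 512]),
  (115, 908, [2, 8, 32, 128]), (467, 556, [4, 16, 32, 256]), (211, 812, [2, 4, 8, 16, 32, 64,
  128, 256]), (83, 940, [2, 8, 16, 32, 64, 128]), (147, 876, [4, 8, 16, 64, 128]), (19, 1004,
  [2, 4, 8, 16, 64, 128]), (995, 28, [1, 2, 4, 16, 32, 512]), (483, 540, [2, 4, 16, 32, 256,
  512]), (227, 796, [2, 16, 32, 256]), (963, 60, [1, 2, 4, 32, 512]), (451, 572, [1, 2, 4, 16,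
  32, 64, 256, 512]), (195, 828, [1, 2, 4, 16, 32, 64, 128, 256]), (67, 956, [1, 2, 16, 64,
  128]), (387, 636, [1, 4, 64, 256]), (131, 892, [1, 4, 16, 64, 128, 256]), (3, 1020, [1, 2, 4,
  16, 64, 128]), (1021, 2, [1, 2, 4, 64, 128]), (893, 130, [1, 2, 4, 64, 128, 256]), (637, 386,
  [1, 2, 4, 64, 256, 512]), (125, 898, [2, 4, 32, 64, 512]), (957, 66, [1, 2, 64, 128]), (829,
  194, [1, 2, 64, 128, 256]), (573, 450, [1, 2, 4, 64, 256, 512]), (61, 962, [1, 2, 4, 32, 64,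
  512]), (93, 930, [2, 4, 32, 64]), (29, 994, [1, 2, 4, 32, 64]), (1017, 6, [1, 2, 4, 8, 128,
  256]), (761, 262, [1, 2, 8, 128, 256, 512]), (249, 774, [2, 8, 128, 512]), (889, 134, [1, 2,
  4, 128, 256]), (633, 390, [1, 2, 4, 8, 64, 128, 256, 512]), (121, 902, [1, 2, 4, 8, 32, 64,
  128, 512]), (569, 454, [1, 4, 64, 512]), (57, 966, [1, 4, 8, 32, 64, 512]), (89, 934, [2, 4,
  8, 32, 64]), (25, 998, [1, 2, 4, 8, 32, 64]), (1009, 14, [1, 2, 8, 16, 256, 512]), (497, 526,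
  [1, 2, 16, 256, 512]), (753, 270, [1, 2, 8, 128, 256, 512]), (241, 782, [1, 2, 8, 16, 32, 128,
  256, 512]), (625, 398, [1, 8, 128, 512]), (113, 910, [1, 2, 8, 16, 32, 64, 128, 512]), (49,
  974, [1, 8, 16, 32, 64]), (209, 814, [2, 16, 32, 128]), (81, 942, [2, 8, 16, 32, 64, 128]),
  (17, 1006, [1, 2, 8, 16, 32, 64]), (993, 30, [1, 2, 16, 32, 512]), (481, 542, [1, 2, 16, 32,
  256, 512]), (225, 798, [1, 2, 16, 32, 128, 256]), (97, 926, [1, 16, 32, 64, 128]), (33, 990,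
  [1, 16, 32, 64]), (961, 62, [1, 2, 32, 512]), (449, 574, [1, 2, 32, 256, 512]), (193, 830, [1,
  2, 16, 32, 128, 256]), (65, 958, [1, 2, 16, 32, 64, 128]), (1, 1022, [1, 2, 16, 32, 64])]

private def d1023_2 : List (ℕ × ℕ × List ℕ) :=
  [(1022, 1, [1, 2, 16, 32, 64]), (958, 65, [1, 2, 16, 32, 64, 128]), (830, 193, [1, 2, 16, 32,
  128, 256]), (574, 449, [1, 2, 32, 256, 512]), (62, 961, [1, 2, 32, 512]), (990, 33, [1, 16,
  32, 64]), (926, 97, [1, 16, 32, 64, 128]), (798, 225, [1, 2, 16, 32, 128, 256]), (542, 481,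
  [1, 2, 16, 32, 256, 512]), (30, 993, [1, 2, 16, 32, 512]), (1006, 17, [1, 2, 8, 16, 32, 64]),
  (942, 81, [2, 8, 16, 32, 64, 128]), (814, 209, [2, 16, 32, 128]), (974, 49, [1, 8, 16, 32,
  64]), (910, 113, [1, 2, 8, 16, 32, 64, 128, 512]), (398, 625, [1, 8, 128, 512]), (782, 241,
  [1, 2, 8, 16, 32, 128, 256, 512]), (270, 753, [1, 2, 8, 128, 256, 512]), (526, 497, [1, 2, 16,
  256, 512]), (14, 1009, [1, 2, 8, 16, 256, 512]), (998, 25, [1, 2, 4, 8, 32, 64]), (934, 89,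
  [2, 4, 8, 32, 64]), (966, 57, [1, 4, 8, 32, 64, 512]), (454, 569, [1, 4, 64, 512]), (902, 121,
  [1, 2, 4, 8, 32, 64, 128, 512]), (390, 633, [1, 2, 4, 8, 64, 128, 256, 512]), (134, 889, [1,
  2, 4, 128, 256]), (774, 249, [2, 8, 128, 512]), (262, 761, [1, 2, 8, 128, 256, 512]), (6,
  1017, [1, 2, 4, 8, 128, 256]), (994, 29, [1, 2, 4, 32, 64]), (930, 93, [2, 4, 32, 64]), (962,
  61, [1, 2, 4, 32, 64, 512]), (450, 573, [1, 2, 4, 64, 256, 512]), (194, 829, [1, 2, 64, 128,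
  256]), (66, 957, [1, 2, 64, 128]), (898, 125, [2, 4, 32, 64, 512]), (386, 637, [1, 2, 4, 64,
  256, 512]), (130, 893, [1, 2, 4, 64, 128, 256]), (2, 1021, [1, 2, 4, 64, 128]), (1020, 3, [1,
  2, 4, 16, 64, 128]), (892, 131, [1, 4, 16, 64, 128, 256]), (636, 387, [1, 4, 64, 256]), (956,
  67, [1, 2, 16, 64, 128]), (828, 195, [1, 2, 4, 16, 32, 64, 128, 256]), (572, 451, [1, 2, 4,
  16, 32, 64, 256, 512]), (60, 963, [1, 2, 4, 32, 512]), (796, 227, [2, 16, 32, 256]), (540,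
  483, [2, 4, 16, 32, 256, 512]), (28, 995, [1, 2, 4, 16, 32, 512]), (1004, 19, [2, 4, 8, 16,
  64, 128]), (876, 147, [4, 8, 16, 64, 128]), (940, 83, [2, 8, 16, 32, 64, 128]), (812, 211, [2,
  4, 8, 16, 32, 64, 128, 256]), (556, 467, [4, 16, 32, 256]), (908, 115, [2, 8, 32, 128]), (780,
  243, [2, 4, 8, 16, 32, 128, 256, 512]), (268, 755, [2, 4, 8, 256, 512]), (524, 499, [2, 4, 16,
  32, 256, 512]), (12, 1011, [2, 4, 8, 16, 256, 512]), (996, 27, [2, 4, 8, 64, 128])]

private def d1023_3 : List (ℕ × ℕ × List ℕ) :=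
  [(868, 155, [4, 8, 64, 128]), (932, 91, [2, 4, 8, 32, 64, 128]), (804, 219, [4, 8, 32, 64,
  128]), (900, 123, [2, 4, 8, 32, 128, 512]), (388, 635, [2, 4, 128, 256, 512]), (132, 891, [2,
  4, 128, 256]), (772, 251, [2, 4, 8, 32, 128, 512]), (260, 763, [2, 4, 8, 128, 256, 512]), (4,
  1019, [2, 4, 8, 128, 256]), (1016, 7, [1, 4, 8, 16, 128, 256]), (760, 263, [1, 8, 16, 128,
  256]), (888, 135, [1, 4, 16, 64, 128, 256]), (632, 391, [1, 4, 8, 16, 64, 128, 256, 512]),
  (120, 903, [1, 8, 64, 512]), (824, 199, [4, 16, 64, 256]), (568, 455, [1, 4, 8, 16, 32, 64,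
  256, 512]), (56, 967, [1, 4, 8, 32, 64, 512]), (536, 487, [4, 8, 16, 32, 512]), (24, 999, [1,
  4, 8, 16, 32, 512]), (1000, 23, [4, 8, 16, 128, 256]), (744, 279, [8, 16, 128, 256]), (872,
  151, [4, 8, 16, 64, 128, 256]), (616, 407, [8, 16, 64, 128, 256]), (808, 215, [4, 8, 16, 32,
  64, 256]), (552, 471, [4, 8, 16, 32, 64, 256]), (776, 247, [4, 8, 32, 256, 512]), (264, 759,
  [4, 8, 256, 512]), (520, 503, [4, 8, 16, 32, 256, 512]), (8, 1015, [4, 8, 16, 256, 512]),
  (1008, 15, [1, 8, 16, 256, 512]), (496, 527, [1, 16, 256, 512]), (752, 271, [1, 8, 16, 128,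
  256, 512]), (240, 783, [1, 16, 128, 256, 512]), (624, 399, [1, 8, 16, 64, 128, 512]), (112,
  911, [1, 8, 16, 64, 128, 512]), (560, 463, [8, 16, 32, 64, 512]), (48, 975, [1, 8, 16, 32, 64,
  512]), (528, 495, [8, 16, 32, 512]), (16, 1007, [1, 8, 16, 32, 512]), (992, 31, [1, 2, 4, 8,
  16, 32, 64, 128, 256, 512]), (480, 543, [1, 16, 32, 256, 512]), (736, 287, [8, 16, 128, 256,
  512]), (224, 799, [1, 16, 32, 128, 256, 512]), (864, 159, [4, 8, 64, 128, 256]), (608, 415,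
  [8, 16, 64, 128, 256, 512]), (96, 927, [1, 16, 32, 64, 128, 512]), (928, 95, [2, 4, 32, 64,
  128]), (800, 223, [4, 8, 32, 64, 128, 256]), (544, 479, [8, 16, 32, 64, 256, 512]), (32, 991,
  [1, 16, 32, 64, 512]), (960, 63, [1, 2, 32, 64, 512]), (448, 575, [1, 2, 32, 64, 256, 512]),
  (192, 831, [1, 2, 32, 64, 128, 256]), (64, 959, [1, 2, 32, 64, 128]), (896, 127, [2, 4, 32,
  64, 128, 512]), (384, 639, [2, 4, 64, 128, 256, 512]), (128, 895, [2, 4, 64, 128, 256]), (768,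
  255, [4, 8, 32, 128, 256, 512]), (256, 767, [4, 8, 128, 256, 512]), (512, 511, [8, 16, 32,
  256, 512]), (0, 1023, [1, 2, 4, 8, 16, 32, 64, 128, 256, 512])]

private def d511_0 : List (ℕ × ℕ × List ℕ) :=
  [(511, 0, [8, 16, 32, 256]), (255, 256, [4, 8, 128, 256]), (127, 384, [2, 4, 64, 128]), (63,
  448, [1, 2, 32, 64]), (479, 32, [16, 32, 64]), (415, 96, [16, 64, 128]), (287, 224, [16, 128,
  256]), (31, 480, [1, 16, 32, 256]), (495, 16, [8, 16, 32]), (463, 48, [8, 16, 32, 64]), (399,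
  112, [1, 8, 16, 64, 128]), (271, 240, [1, 16, 128, 256]), (15, 496, [1, 16, 256]), (503, 8,
  [4, 8, 16, 256]), (247, 264, [4, 8, 256]), (487, 24, [4, 8, 16, 32]), (455, 56, [1, 4, 8, 32,
  64]), (391, 120, [1, 8, 64]), (251, 260, [2, 4, 8, 128]), (123, 388, [2, 4, 128]), (499, 12,
  [2, 4, 16, 256]), (243, 268, [2, 4, 8, 256]), (483, 28, [2, 4, 16, 32]), (451, 60, [1, 2, 4,
  32]), (125, 386, [2, 4, 64]), (61, 450, [1, 2, 4, 64]), (249, 262, [2, 8, 128]), (121, 390,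
  [1, 2, 4, 8, 64, 128]), (57, 454, [1, 4, 64]), (497, 14, [1, 2, 16, 256]), (241, 270, [1, 2,
  8, 128, 256]), (113, 398, [1, 8, 128]), (481, 30, [1, 2, 16, 32]), (449, 62, [1, 2, 32]), (62,
  449, [1, 2, 32]), (30, 481, [1, 2, 16, 32]), (398, 113, [1, 8, 128]), (270, 241, [1, 2, 8,
  128, 256]), (14, 497, [1, 2, 16, 256]), (454, 57, [1, 4, 64]), (390, 121, [1, 2, 4, 8, 64,
  128]), (262, 249, [2, 8, 128]), (450, 61, [1, 2, 4, 64]), (386, 125, [2, 4, 64]), (60, 451,
  [1, 2, 4, 32]), (28, 483, [2, 4, 16, 32]), (268, 243, [2, 4, 8, 256]), (12, 499, [2, 4, 16,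
  256]), (388, 123, [2, 4, 128]), (260, 251, [2, 4, 8, 128]), (120, 391, [1, 8, 64]), (56, 455,
  [1, 4, 8, 32, 64]), (24, 487, [4, 8, 16, 32]), (264, 247, [4, 8, 256]), (8, 503, [4, 8, 16,
  256]), (496, 15, [1, 16, 256]), (240, 271, [1, 16, 128, 256]), (112, 399, [1, 8, 16, 64,
  128]), (48, 463, [8, 16, 32, 64]), (16, 495, [8, 16, 32]), (480, 31, [1, 16, 32, 256])]

private def d511_1 : List (ℕ × ℕ × List ℕ) :=
  [(224, 287, [16, 128, 256]), (96, 415, [16, 64, 128]), (32, 479, [16, 32, 64]), (448, 63, [1,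
  2, 32, 64]), (384, 127, [2, 4, 64, 128]), (256, 255, [4, 8, 128, 256]), (0, 511, [8, 16, 32,
  256])]

private def d767_0 : List (ℕ × ℕ × List ℕ) :=
  [(767, 0, [4, 8, 128, 512]), (255, 512, [8, 32, 512]), (639, 128, [2, 4, 64, 128]), (575, 192,
  [1, 2, 32, 64]), (223, 544, [8, 32, 64]), (159, 608, [8, 64, 128]), (543, 224, [1, 16, 32,
  512]), (31, 736, [8, 16, 128, 512]), (527, 240, [1, 16, 512]), (15, 752, [1, 8, 16, 512]),
  (759, 8, [4, 8, 512]), (247, 520, [4, 8, 32, 512]), (215, 552, [4, 8, 16, 32, 64]), (151, 616,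
  [8, 16, 64, 128]), (23, 744, [8, 16, 128]), (199, 568, [4, 16, 64]), (135, 632, [1, 4, 16, 64,
  128]), (7, 760, [1, 8, 16, 128]), (763, 4, [2, 4, 8, 128]), (635, 132, [2, 4, 128]), (755, 12,
  [2, 4, 8, 512]), (243, 524, [2, 4, 16, 32, 512]), (211, 556, [4, 16, 32]), (227, 540, [2, 16,
  32]), (195, 572, [1, 2, 4, 16, 32, 64]), (131, 636, [1, 4, 64]), (637, 130, [1, 2, 4, 64]),
  (573, 194, [1, 2, 64]), (761, 6, [1, 2, 8, 128]), (633, 134, [1, 2, 4, 128]), (753, 14, [1, 2,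
  8, 512]), (241, 526, [1, 2, 16, 512]), (225, 542, [1, 2, 16, 32]), (193, 574, [1, 2, 32]),
  (574, 193, [1, 2, 32]), (542, 225, [1, 2, 16, 32]), (526, 241, [1, 2, 16, 512]), (14, 753, [1,
  2, 8, 512]), (134, 633, [1, 2, 4, 128]), (6, 761, [1, 2, 8, 128]), (194, 573, [1, 2, 64]),
  (130, 637, [1, 2, 4, 64]), (636, 131, [1, 4, 64]), (572, 195, [1, 2, 4, 16, 32, 64]), (540,
  227, [2, 16, 32]), (556, 211, [4, 16, 32]), (524, 243, [2, 4, 16, 32, 512]), (12, 755, [2, 4,
  8, 512]), (132, 635, [2, 4, 128]), (4, 763, [2, 4, 8, 128]), (760, 7, [1, 8, 16, 128]), (632,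
  135, [1, 4, 16, 64, 128]), (568, 199, [4, 16, 64]), (744, 23, [8, 16, 128]), (616, 151, [8,
  16, 64, 128]), (552, 215, [4, 8, 16, 32, 64]), (520, 247, [4, 8, 32, 512]), (8, 759, [4, 8,
  512]), (752, 15, [1, 8, 16, 512]), (240, 527, [1, 16, 512]), (736, 31, [8, 16, 128, 512])]

private def d767_1 : List (ℕ × ℕ × List ℕ) :=
  [(224, 543, [1, 16, 32, 512]), (608, 159, [8, 64, 128]), (544, 223, [8, 32, 64]), (192, 575,
  [1, 2, 32, 64]), (128, 639, [2, 4, 64, 128]), (512, 255, [8, 32, 512]), (0, 767, [4, 8, 128,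
  512])]

private def d895_0 : List (ℕ × ℕ × List ℕ) :=
  [(895, 0, [2, 4, 64, 256]), (639, 256, [4, 256, 512]), (127, 768, [4, 32, 512]), (831, 64, [1,
  2, 32, 64]), (95, 800, [4, 32, 64]), (799, 96, [1, 16, 32, 512]), (287, 608, [8, 16, 256,
  512]), (31, 864, [4, 8, 64, 256]), (783, 112, [1, 16, 512]), (271, 624, [1, 8, 16, 512]),
  (279, 616, [8, 16, 256]), (23, 872, [4, 8, 16, 256]), (263, 632, [1, 8, 16, 256]), (7, 888,
  [1, 4, 16, 256]), (891, 4, [2, 4, 256]), (635, 260, [2, 4, 256, 512]), (123, 772, [2, 4, 8,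
  32, 512]), (91, 804, [4, 8, 32, 64]), (27, 868, [4, 8, 64]), (115, 780, [2, 8, 32]), (83, 812,
  [2, 8, 16, 32, 64]), (19, 876, [4, 8, 16, 64]), (67, 828, [1, 2, 16, 64]), (3, 892, [1, 4, 16,
  64]), (893, 2, [1, 2, 4, 64]), (829, 66, [1, 2, 64]), (889, 6, [1, 2, 4, 256]), (633, 262, [1,
  2, 8, 256, 512]), (121, 774, [2, 8, 512]), (625, 270, [1, 8, 512]), (113, 782, [1, 2, 8, 16,
  32, 512]), (81, 814, [2, 16, 32]), (97, 798, [1, 16, 32]), (65, 830, [1, 2, 16, 32]), (830,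
  65, [1, 2, 16, 32]), (798, 97, [1, 16, 32]), (814, 81, [2, 16, 32]), (782, 113, [1, 2, 8, 16,
  32, 512]), (270, 625, [1, 8, 512]), (774, 121, [2, 8, 512]), (262, 633, [1, 2, 8, 256, 512]),
  (6, 889, [1, 2, 4, 256]), (66, 829, [1, 2, 64]), (2, 893, [1, 2, 4, 64]), (892, 3, [1, 4, 16,
  64]), (828, 67, [1, 2, 16, 64]), (876, 19, [4, 8, 16, 64]), (812, 83, [2, 8, 16, 32, 64]),
  (780, 115, [2, 8, 32]), (868, 27, [4, 8, 64]), (804, 91, [4, 8, 32, 64]), (772, 123, [2, 4, 8,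
  32, 512]), (260, 635, [2, 4, 256, 512]), (4, 891, [2, 4, 256]), (888, 7, [1, 4, 16, 256]),
  (632, 263, [1, 8, 16, 256]), (872, 23, [4, 8, 16, 256]), (616, 279, [8, 16, 256]), (624, 271,
  [1, 8, 16, 512]), (112, 783, [1, 16, 512]), (864, 31, [4, 8, 64, 256])]

private def d895_1 : List (ℕ × ℕ × List ℕ) :=
  [(608, 287, [8, 16, 256, 512]), (96, 799, [1, 16, 32, 512]), (800, 95, [4, 32, 64]), (64, 831,
  [1, 2, 32, 64]), (768, 127, [4, 32, 512]), (256, 639, [4, 256, 512]), (0, 895, [2, 4, 64,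
  256])]

private def d959_0 : List (ℕ × ℕ × List ℕ) :=
  [(959, 0, [1, 2, 32, 128]), (831, 128, [2, 128, 256]), (575, 384, [2, 256, 512]), (63, 896, [2,
  32, 512]), (927, 32, [1, 16, 32, 512]), (415, 544, [8, 16, 256, 512]), (159, 800, [4, 8, 128,
  256]), (31, 928, [2, 4, 32, 128]), (911, 48, [1, 8, 16, 512]), (399, 560, [8, 16, 512]), (407,
  552, [8, 16, 256]), (151, 808, [4, 8, 16, 256]), (903, 56, [1, 8, 512]), (391, 568, [1, 4, 8,
  16, 256, 512]), (135, 824, [4, 16, 256]), (155, 804, [4, 8, 128]), (27, 932, [2, 4, 8, 128]),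
  (147, 812, [4, 8, 16, 128]), (19, 940, [2, 8, 16, 128]), (387, 572, [1, 4, 256]), (131, 828,
  [1, 4, 16, 128, 256]), (3, 956, [1, 2, 16, 128]), (957, 2, [1, 2, 128]), (829, 130, [1, 2,
  128, 256]), (573, 386, [1, 2, 4, 256, 512]), (61, 898, [2, 4, 32, 512]), (29, 930, [2, 4,
  32]), (569, 390, [1, 4, 512]), (57, 902, [1, 4, 8, 32, 512]), (25, 934, [2, 4, 8, 32]), (49,
  910, [1, 8, 16, 32]), (17, 942, [2, 8, 16, 32]), (33, 926, [1, 16, 32]), (1, 958, [1, 2, 16,
  32]), (958, 1, [1, 2, 16, 32]), (926, 33, [1, 16, 32]), (942, 17, [2, 8, 16, 32]), (910, 49,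
  [1, 8, 16, 32]), (934, 25, [2, 4, 8, 32]), (902, 57, [1, 4, 8, 32, 512]), (390, 569, [1, 4,
  512]), (930, 29, [2, 4, 32]), (898, 61, [2, 4, 32, 512]), (386, 573, [1, 2, 4, 256, 512]),
  (130, 829, [1, 2, 128, 256]), (2, 957, [1, 2, 128]), (956, 3, [1, 2, 16, 128]), (828, 131, [1,
  4, 16, 128, 256]), (572, 387, [1, 4, 256]), (940, 19, [2, 8, 16, 128]), (812, 147, [4, 8, 16,
  128]), (932, 27, [2, 4, 8, 128]), (804, 155, [4, 8, 128]), (824, 135, [4, 16, 256]), (568,
  391, [1, 4, 8, 16, 256, 512]), (56, 903, [1, 8, 512]), (808, 151, [4, 8, 16, 256]), (552, 407,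
  [8, 16, 256]), (560, 399, [8, 16, 512]), (48, 911, [1, 8, 16, 512]), (928, 31, [2, 4, 32,
  128])]

private def d959_1 : List (ℕ × ℕ × List ℕ) :=
  [(800, 159, [4, 8, 128, 256]), (544, 415, [8, 16, 256, 512]), (32, 927, [1, 16, 32, 512]),
  (896, 63, [2, 32, 512]), (384, 575, [2, 256, 512]), (128, 831, [2, 128, 256]), (0, 959, [1, 2,
  32, 128])]

private def d991_0 : List (ℕ × ℕ × List ℕ) :=
  [(991, 0, [1, 16, 64, 512]), (479, 512, [8, 16, 256, 512]), (223, 768, [4, 8, 128, 256]), (95,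
  896, [2, 4, 64, 128]), (927, 64, [1, 64, 128]), (799, 192, [1, 128, 256]), (543, 448, [1, 256,
  512]), (31, 960, [1, 2, 64, 512]), (975, 16, [1, 8, 16, 512]), (463, 528, [8, 16, 512]), (471,
  520, [4, 8, 16, 256]), (215, 776, [4, 8, 256]), (967, 24, [1, 4, 8, 512]), (455, 536, [4, 8,
  16, 512]), (219, 772, [4, 8, 128]), (91, 900, [2, 4, 8, 128]), (467, 524, [4, 16, 256]), (211,
  780, [2, 4, 8, 16, 128, 256]), (83, 908, [2, 8, 128]), (963, 28, [1, 2, 4, 512]), (451, 540,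
  [2, 4, 16, 256, 512]), (195, 796, [2, 16, 256]), (93, 898, [2, 4, 64]), (29, 962, [1, 2, 4,
  64]), (89, 902, [2, 4, 8, 64]), (25, 966, [1, 4, 8, 64]), (209, 782, [2, 16, 128]), (81, 910,
  [2, 8, 16, 64, 128]), (17, 974, [1, 8, 16, 64]), (961, 30, [1, 2, 512]), (449, 542, [1, 2,
  256, 512]), (193, 798, [1, 2, 16, 128, 256]), (65, 926, [1, 16, 64, 128]), (1, 990, [1, 16,
  64]), (990, 1, [1, 16, 64]), (926, 65, [1, 16, 64, 128]), (798, 193, [1, 2, 16, 128, 256]),
  (542, 449, [1, 2, 256, 512]), (30, 961, [1, 2, 512]), (974, 17, [1, 8, 16, 64]), (910, 81, [2,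
  8, 16, 64, 128]), (782, 209, [2, 16, 128]), (966, 25, [1, 4, 8, 64]), (902, 89, [2, 4, 8,
  64]), (962, 29, [1, 2, 4, 64]), (898, 93, [2, 4, 64]), (796, 195, [2, 16, 256]), (540, 451,
  [2, 4, 16, 256, 512]), (28, 963, [1, 2, 4, 512]), (908, 83, [2, 8, 128]), (780, 211, [2, 4, 8,
  16, 128, 256]), (524, 467, [4, 16, 256]), (900, 91, [2, 4, 8, 128]), (772, 219, [4, 8, 128]),
  (536, 455, [4, 8, 16, 512]), (24, 967, [1, 4, 8, 512]), (776, 215, [4, 8, 256]), (520, 471,
  [4, 8, 16, 256]), (528, 463, [8, 16, 512]), (16, 975, [1, 8, 16, 512]), (960, 31, [1, 2, 64,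
  512])]

private def d991_1 : List (ℕ × ℕ × List ℕ) :=
  [(448, 543, [1, 256, 512]), (192, 799, [1, 128, 256]), (64, 927, [1, 64, 128]), (896, 95, [2,
  4, 64, 128]), (768, 223, [4, 8, 128, 256]), (512, 479, [8, 16, 256, 512]), (0, 991, [1, 16,
  64, 512])]

private def d1007_0 : List (ℕ × ℕ × List ℕ) :=
  [(1007, 0, [1, 8, 32, 512]), (495, 512, [8, 32, 512]), (975, 32, [1, 32, 64, 512]), (463, 544,
  [8, 32, 64, 512]), (911, 96, [1, 64, 128, 512]), (399, 608, [8, 64, 128, 512]), (783, 224, [1,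
  128, 256, 512]), (271, 736, [8, 128, 256, 512]), (527, 480, [1, 256, 512]), (15, 992, [1, 8,
  256, 512]), (999, 8, [4, 8, 512]), (487, 520, [4, 8, 32, 512]), (455, 552, [4, 8, 32, 64,
  256]), (199, 808, [4, 64, 256]), (391, 616, [8, 64, 128, 256]), (135, 872, [4, 64, 128, 256]),
  (263, 744, [8, 128, 256]), (7, 1000, [4, 8, 128, 256]), (995, 12, [2, 4, 512]), (483, 524, [2,
  4, 32, 256, 512]), (227, 780, [2, 32, 256]), (451, 556, [4, 32, 256]), (195, 812, [2, 4, 32,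
  64, 128, 256]), (67, 940, [2, 64, 128]), (131, 876, [4, 64, 128]), (3, 1004, [2, 4, 64, 128]),
  (993, 14, [1, 2, 512]), (481, 526, [1, 2, 256, 512]), (225, 782, [1, 2, 32, 128, 256]), (97,
  910, [1, 32, 64, 128]), (33, 974, [1, 32, 64]), (193, 814, [2, 32, 128]), (65, 942, [2, 32,
  64, 128]), (1, 1006, [1, 2, 32, 64]), (1006, 1, [1, 2, 32, 64]), (942, 65, [2, 32, 64, 128]),
  (814, 193, [2, 32, 128]), (974, 33, [1, 32, 64]), (910, 97, [1, 32, 64, 128]), (782, 225, [1,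
  2, 32, 128, 256]), (526, 481, [1, 2, 256, 512]), (14, 993, [1, 2, 512]), (1004, 3, [2, 4, 64,
  128]), (876, 131, [4, 64, 128]), (940, 67, [2, 64, 128]), (812, 195, [2, 4, 32, 64, 128,
  256]), (556, 451, [4, 32, 256]), (780, 227, [2, 32, 256]), (524, 483, [2, 4, 32, 256, 512]),
  (12, 995, [2, 4, 512]), (1000, 7, [4, 8, 128, 256]), (744, 263, [8, 128, 256]), (872, 135, [4,
  64, 128, 256]), (616, 391, [8, 64, 128, 256]), (808, 199, [4, 64, 256]), (552, 455, [4, 8, 32,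
  64, 256]), (520, 487, [4, 8, 32, 512]), (8, 999, [4, 8, 512]), (992, 15, [1, 8, 256, 512]),
  (480, 527, [1, 256, 512]), (736, 271, [8, 128, 256, 512])]

private def d1007_1 : List (ℕ × ℕ × List ℕ) :=
  [(224, 783, [1, 128, 256, 512]), (608, 399, [8, 64, 128, 512]), (96, 911, [1, 64, 128, 512]),
  (544, 463, [8, 32, 64, 512]), (32, 975, [1, 32, 64, 512]), (512, 495, [8, 32, 512]), (0, 1007,
  [1, 8, 32, 512])]

private def d1015_0 : List (ℕ × ℕ × List ℕ) :=
  [(1015, 0, [4, 16, 256, 512]), (503, 512, [16, 32, 256, 512]), (759, 256, [4, 256, 512]), (247,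
  768, [4, 32, 256, 512]), (471, 544, [16, 32, 64, 256]), (215, 800, [4, 32, 64, 256]), (407,
  608, [16, 64, 128, 256]), (151, 864, [4, 64, 128, 256]), (279, 736, [16, 128, 256]), (23, 992,
  [4, 16, 128, 256]), (999, 16, [1, 16, 32, 512]), (487, 528, [16, 32, 512]), (967, 48, [1, 32,
  64, 512]), (455, 560, [16, 32, 64, 512]), (903, 112, [1, 64, 512]), (391, 624, [1, 16, 64,
  128, 512]), (263, 752, [1, 16, 128, 256]), (7, 1008, [1, 16, 256]), (1011, 4, [2, 4, 256]),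
  (755, 260, [2, 4, 256, 512]), (243, 772, [2, 4, 32, 128, 512]), (115, 900, [2, 32, 128]),
  (211, 804, [4, 32, 64, 128]), (83, 932, [2, 32, 64, 128]), (147, 868, [4, 64, 128]), (19, 996,
  [2, 4, 64, 128]), (1009, 6, [1, 2, 256]), (753, 262, [1, 2, 128, 256, 512]), (241, 774, [2,
  128, 512]), (625, 390, [1, 128, 512]), (113, 902, [1, 2, 32, 64, 128, 512]), (49, 966, [1, 32,
  64]), (81, 934, [2, 32, 64]), (17, 998, [1, 2, 32, 64]), (998, 17, [1, 2, 32, 64]), (934, 81,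
  [2, 32, 64]), (966, 49, [1, 32, 64]), (902, 113, [1, 2, 32, 64, 128, 512]), (390, 625, [1,
  128, 512]), (774, 241, [2, 128, 512]), (262, 753, [1, 2, 128, 256, 512]), (6, 1009, [1, 2,
  256]), (996, 19, [2, 4, 64, 128]), (868, 147, [4, 64, 128]), (932, 83, [2, 32, 64, 128]),
  (804, 211, [4, 32, 64, 128]), (900, 115, [2, 32, 128]), (772, 243, [2, 4, 32, 128, 512]),
  (260, 755, [2, 4, 256, 512]), (4, 1011, [2, 4, 256]), (1008, 7, [1, 16, 256]), (752, 263, [1,
  16, 128, 256]), (624, 391, [1, 16, 64, 128, 512]), (112, 903, [1, 64, 512]), (560, 455, [16,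
  32, 64, 512]), (48, 967, [1, 32, 64, 512]), (528, 487, [16, 32, 512]), (16, 999, [1, 16, 32,
  512]), (992, 23, [4, 16, 128, 256]), (736, 279, [16, 128, 256]), (864, 151, [4, 64, 128, 256])]

private def d1015_1 : List (ℕ × ℕ × List ℕ) :=
  [(608, 407, [16, 64, 128, 256]), (800, 215, [4, 32, 64, 256]), (544, 471, [16, 32, 64, 256]),
  (768, 247, [4, 32, 256, 512]), (256, 759, [4, 256, 512]), (512, 503, [16, 32, 256, 512]), (0,
  1015, [4, 16, 256, 512])]

private def d1019_0 : List (ℕ × ℕ × List ℕ) :=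
  [(1019, 0, [2, 8, 128, 256]), (763, 256, [8, 128, 256, 512]), (251, 768, [8, 32, 128, 512]),
  (891, 128, [2, 128, 256]), (635, 384, [2, 128, 256, 512]), (123, 896, [2, 32, 128, 512]),
  (219, 800, [8, 32, 64, 128]), (91, 928, [2, 32, 64, 128]), (155, 864, [8, 64, 128]), (27, 992,
  [2, 8, 64, 128]), (1011, 8, [8, 16, 256, 512]), (499, 520, [16, 32, 256, 512]), (755, 264, [8,
  256, 512]), (243, 776, [8, 32, 256, 512]), (467, 552, [16, 32, 256]), (211, 808, [8, 16, 32,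
  64, 256]), (147, 872, [8, 16, 64, 128]), (19, 1000, [8, 16, 128]), (995, 24, [1, 16, 32,
  512]), (483, 536, [16, 32, 512]), (963, 56, [1, 32, 512]), (451, 568, [1, 16, 32, 64, 256,
  512]), (195, 824, [16, 64, 256]), (387, 632, [1, 64, 256]), (131, 888, [1, 16, 64, 128, 256]),
  (3, 1016, [1, 16, 128]), (1017, 2, [1, 2, 128]), (889, 130, [1, 2, 128, 256]), (633, 386, [1,
  2, 64, 256, 512]), (121, 898, [2, 32, 64, 512]), (569, 450, [1, 64, 512]), (57, 962, [1, 32,
  64, 512]), (89, 930, [2, 32, 64]), (25, 994, [1, 2, 32, 64]), (994, 25, [1, 2, 32, 64]), (930,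
  89, [2, 32, 64]), (962, 57, [1, 32, 64, 512]), (450, 569, [1, 64, 512]), (898, 121, [2, 32,
  64, 512]), (386, 633, [1, 2, 64, 256, 512]), (130, 889, [1, 2, 128, 256]), (2, 1017, [1, 2,
  128]), (1016, 3, [1, 16, 128]), (888, 131, [1, 16, 64, 128, 256]), (632, 387, [1, 64, 256]),
  (824, 195, [16, 64, 256]), (568, 451, [1, 16, 32, 64, 256, 512]), (56, 963, [1, 32, 512]),
  (536, 483, [16, 32, 512]), (24, 995, [1, 16, 32, 512]), (1000, 19, [8, 16, 128]), (872, 147,
  [8, 16, 64, 128]), (808, 211, [8, 16, 32, 64, 256]), (552, 467, [16, 32, 256]), (776, 243, [8,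
  32, 256, 512]), (264, 755, [8, 256, 512]), (520, 499, [16, 32, 256, 512]), (8, 1011, [8, 16,
  256, 512]), (992, 27, [2, 8, 64, 128]), (864, 155, [8, 64, 128]), (928, 91, [2, 32, 64, 128])]

private def d1019_1 : List (ℕ × ℕ × List ℕ) :=
  [(800, 219, [8, 32, 64, 128]), (896, 123, [2, 32, 128, 512]), (384, 635, [2, 128, 256, 512]),
  (128, 891, [2, 128, 256]), (768, 251, [8, 32, 128, 512]), (256, 763, [8, 128, 256, 512]), (0,
  1019, [2, 8, 128, 256])]

private def d1021_0 : List (ℕ × ℕ × List ℕ) :=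
  [(1021, 0, [1, 4, 64, 128]), (893, 128, [4, 64, 128, 256]), (637, 384, [4, 64, 256, 512]),
  (125, 896, [4, 32, 64, 512]), (957, 64, [1, 64, 128]), (829, 192, [1, 64, 128, 256]), (573,
  448, [1, 64, 256, 512]), (61, 960, [1, 32, 64, 512]), (93, 928, [4, 32, 64]), (29, 992, [1, 4,
  32, 64]), (1017, 4, [4, 8, 128, 256]), (761, 260, [8, 128, 256, 512]), (249, 772, [8, 128,
  512]), (889, 132, [4, 128, 256]), (633, 388, [4, 128, 256, 512]), (121, 900, [4, 8, 32, 128,
  512]), (89, 932, [4, 8, 32, 64]), (25, 996, [4, 8, 64]), (1009, 12, [8, 16, 256, 512]), (497,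
  524, [16, 256, 512]), (753, 268, [8, 256, 512]), (241, 780, [8, 16, 32, 128, 256, 512]), (113,
  908, [8, 32, 128]), (209, 812, [16, 32, 128]), (81, 940, [8, 16, 32, 64, 128]), (17, 1004, [8,
  16, 64]), (993, 28, [1, 16, 32, 512]), (481, 540, [16, 32, 256, 512]), (225, 796, [16, 32,
  256]), (961, 60, [1, 32, 512]), (449, 572, [1, 32, 256, 512]), (193, 828, [1, 16, 32, 128,
  256]), (65, 956, [1, 16, 64, 128]), (1, 1020, [1, 16, 64]), (1020, 1, [1, 16, 64]), (956, 65,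
  [1, 16, 64, 128]), (828, 193, [1, 16, 32, 128, 256]), (572, 449, [1, 32, 256, 512]), (60, 961,
  [1, 32, 512]), (796, 225, [16, 32, 256]), (540, 481, [16, 32, 256, 512]), (28, 993, [1, 16,
  32, 512]), (1004, 17, [8, 16, 64]), (940, 81, [8, 16, 32, 64, 128]), (812, 209, [16, 32,
  128]), (908, 113, [8, 32, 128]), (780, 241, [8, 16, 32, 128, 256, 512]), (268, 753, [8, 256,
  512]), (524, 497, [16, 256, 512]), (12, 1009, [8, 16, 256, 512]), (996, 25, [4, 8, 64]), (932,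
  89, [4, 8, 32, 64]), (900, 121, [4, 8, 32, 128, 512]), (388, 633, [4, 128, 256, 512]), (132,
  889, [4, 128, 256]), (772, 249, [8, 128, 512]), (260, 761, [8, 128, 256, 512]), (4, 1017, [4,
  8, 128, 256]), (992, 29, [1, 4, 32, 64]), (928, 93, [4, 32, 64]), (960, 61, [1, 32, 64, 512])]

private def d1021_1 : List (ℕ × ℕ × List ℕ) :=
  [(448, 573, [1, 64, 256, 512]), (192, 829, [1, 64, 128, 256]), (64, 957, [1, 64, 128]), (896,
  125, [4, 32, 64, 512]), (384, 637, [4, 64, 256, 512]), (128, 893, [4, 64, 128, 256]), (0,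
  1021, [1, 4, 64, 128])]

private def d1022_0 : List (ℕ × ℕ × List ℕ) :=
  [(1022, 0, [2, 16, 32, 64]), (958, 64, [2, 32, 64, 128]), (830, 192, [2, 32, 128, 256]), (574,
  448, [2, 32, 256, 512]), (62, 960, [2, 32, 512]), (990, 32, [16, 32, 64]), (926, 96, [16, 32,
  64, 128]), (798, 224, [16, 32, 128, 256]), (542, 480, [16, 32, 256, 512]), (30, 992, [2, 16,
  32, 512]), (1006, 16, [8, 16, 32]), (974, 48, [8, 16, 32, 64]), (910, 112, [8, 16, 64, 128,
  512]), (398, 624, [8, 128, 512]), (782, 240, [16, 128, 256, 512]), (270, 752, [8, 128, 256,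
  512]), (526, 496, [16, 256, 512]), (14, 1008, [8, 16, 256, 512]), (998, 24, [4, 8, 32]), (966,
  56, [4, 8, 32, 64, 512]), (454, 568, [4, 64, 512]), (902, 120, [8, 64, 512]), (390, 632, [4,
  8, 64, 128, 256, 512]), (134, 888, [4, 128, 256]), (262, 760, [8, 128, 256]), (6, 1016, [4, 8,
  128, 256]), (994, 28, [2, 4, 32]), (962, 60, [2, 4, 32, 512]), (450, 572, [2, 4, 64, 256,
  512]), (194, 828, [2, 64, 128, 256]), (66, 956, [2, 64, 128]), (386, 636, [4, 64, 256]), (130,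
  892, [4, 64, 128, 256]), (2, 1020, [2, 4, 64, 128]), (1020, 2, [2, 4, 64, 128]), (892, 130,
  [4, 64, 128, 256]), (636, 386, [4, 64, 256]), (956, 66, [2, 64, 128]), (828, 194, [2, 64, 128,
  256]), (572, 450, [2, 4, 64, 256, 512]), (60, 962, [2, 4, 32, 512]), (28, 994, [2, 4, 32]),
  (1016, 6, [4, 8, 128, 256]), (760, 262, [8, 128, 256]), (888, 134, [4, 128, 256]), (632, 390,
  [4, 8, 64, 128, 256, 512]), (120, 902, [8, 64, 512]), (568, 454, [4, 64, 512]), (56, 966, [4,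
  8, 32, 64, 512]), (24, 998, [4, 8, 32]), (1008, 14, [8, 16, 256, 512]), (496, 526, [16, 256,
  512]), (752, 270, [8, 128, 256, 512]), (240, 782, [16, 128, 256, 512]), (624, 398, [8, 128,
  512]), (112, 910, [8, 16, 64, 128, 512]), (48, 974, [8, 16, 32, 64]), (16, 1006, [8, 16, 32]),
  (992, 30, [2, 16, 32, 512]), (480, 542, [16, 32, 256, 512]), (224, 798, [16, 32, 128, 256])]

private def d1022_1 : List (ℕ × ℕ × List ℕ) :=
  [(96, 926, [16, 32, 64, 128]), (32, 990, [16, 32, 64]), (960, 62, [2, 32, 512]), (448, 574, [2,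
  32, 256, 512]), (192, 830, [2, 32, 128, 256]), (64, 958, [2, 32, 64, 128]), (0, 1022, [2, 16,
  32, 64])]

private def d255_0 : List (ℕ × ℕ × List ℕ) :=
  [(255, 0, [8, 224]), (31, 224, [16, 224]), (15, 240, [1, 16]), (247, 8, [4, 8]), (243, 12, [2,
  4]), (241, 14, [1, 2]), (14, 241, [1, 2]), (12, 243, [2, 4]), (8, 247, [4, 8]), (240, 15, [1,
  16]), (224, 31, [16, 224]), (0, 255, [8, 224])]

private def d383_0 : List (ℕ × ℕ × List ℕ) :=
  [(127, 256, [4, 352]), (287, 96, [16, 352]), (271, 112, [1, 16]), (123, 260, [2, 4]), (121,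
  262, [2, 8]), (113, 270, [1, 8]), (270, 113, [1, 8]), (262, 121, [2, 8]), (260, 123, [2, 4]),
  (112, 271, [1, 16]), (96, 287, [16, 352]), (256, 127, [4, 352])]

private def d447_0 : List (ℕ × ℕ × List ℕ) :=
  [(63, 384, [2, 416]), (415, 32, [16, 416]), (399, 48, [8, 16]), (391, 56, [1, 8]), (61, 386,
  [2, 4]), (57, 390, [1, 4]), (390, 57, [1, 4]), (386, 61, [2, 4]), (56, 391, [1, 8]), (48, 399,
  [8, 16]), (32, 415, [16, 416]), (384, 63, [2, 416])]

private def d479_0 : List (ℕ × ℕ × List ℕ) :=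
  [(479, 0, [16, 448]), (31, 448, [1, 448]), (463, 16, [8, 16]), (455, 24, [4, 8]), (451, 28, [2,
  4]), (449, 30, [1, 2]), (30, 449, [1, 2]), (28, 451, [2, 4]), (24, 455, [4, 8]), (16, 463, [8,
  16]), (448, 31, [1, 448]), (0, 479, [16, 448])]

private def d495_0 : List (ℕ × ℕ × List ℕ) :=
  [(495, 0, [8, 32]), (463, 32, [32, 64]), (399, 96, [64, 128]), (271, 224, [128, 256]), (15,
  480, [1, 256]), (487, 8, [4, 8]), (483, 12, [2, 4]), (481, 14, [1, 2]), (14, 481, [1, 2]),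
  (12, 483, [2, 4]), (8, 487, [4, 8]), (480, 15, [1, 256]), (224, 271, [128, 256]), (96, 399,
  [64, 128]), (32, 463, [32, 64]), (0, 495, [8, 32])]

private def d503_0 : List (ℕ × ℕ × List ℕ) :=
  [(503, 0, [16, 256]), (247, 256, [4, 256]), (487, 16, [16, 32]), (455, 48, [32, 64]), (391,
  112, [1, 64]), (243, 260, [2, 4]), (241, 262, [2, 128]), (113, 390, [1, 128]), (390, 113, [1,
  128]), (262, 241, [2, 128]), (260, 243, [2, 4]), (112, 391, [1, 64]), (48, 455, [32, 64]),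
  (16, 487, [16, 32]), (256, 247, [4, 256]), (0, 503, [16, 256])]

private def d507_0 : List (ℕ × ℕ × List ℕ) :=
  [(251, 256, [8, 128]), (123, 384, [2, 128]), (499, 8, [16, 256]), (243, 264, [8, 256]), (483,
  24, [16, 32]), (451, 56, [1, 32]), (121, 386, [2, 64]), (57, 450, [1, 64]), (450, 57, [1,
  64]), (386, 121, [2, 64]), (56, 451, [1, 32]), (24, 483, [16, 32]), (264, 243, [8, 256]), (8,
  499, [16, 256]), (384, 123, [2, 128]), (256, 251, [8, 128])]

private def d509_0 : List (ℕ × ℕ × List ℕ) :=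
  [(125, 384, [4, 64]), (61, 448, [1, 64]), (249, 260, [8, 128]), (121, 388, [4, 128]), (497, 12,
  [16, 256]), (241, 268, [8, 256]), (481, 28, [16, 32]), (449, 60, [1, 32]), (60, 449, [1, 32]),
  (28, 481, [16, 32]), (268, 241, [8, 256]), (12, 497, [16, 256]), (388, 121, [4, 128]), (260,
  249, [8, 128]), (448, 61, [1, 64]), (384, 125, [4, 64])]

private def d510_0 : List (ℕ × ℕ × List ℕ) :=
  [(62, 448, [2, 32]), (30, 480, [16, 32]), (398, 112, [8, 128]), (270, 240, [128, 256]), (14,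
  496, [16, 256]), (454, 56, [4, 64]), (390, 120, [8, 64]), (450, 60, [2, 4]), (60, 450, [2,
  4]), (120, 390, [8, 64]), (56, 454, [4, 64]), (496, 14, [16, 256]), (240, 270, [128, 256]),
  (112, 398, [8, 128]), (480, 30, [16, 32]), (448, 62, [2, 32])]

private def d639_0 : List (ℕ × ℕ × List ℕ) :=
  [(639, 0, [4, 608]), (31, 608, [8, 608]), (23, 616, [8, 16]), (7, 632, [1, 16]), (635, 4, [2,
  4]), (633, 6, [1, 2]), (6, 633, [1, 2]), (4, 635, [2, 4]), (632, 7, [1, 16]), (616, 23, [8,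
  16]), (608, 31, [8, 608]), (0, 639, [4, 608])]

private def d703_0 : List (ℕ × ℕ × List ℕ) :=
  [(575, 128, [2, 672]), (159, 544, [8, 672]), (151, 552, [8, 16]), (135, 568, [4, 16]), (131,
  572, [1, 4]), (573, 130, [1, 2]), (130, 573, [1, 2]), (572, 131, [1, 4]), (568, 135, [4, 16]),
  (552, 151, [8, 16]), (544, 159, [8, 672]), (128, 575, [2, 672])]

private def d735_0 : List (ℕ × ℕ × List ℕ) :=
  [(223, 512, [8, 704]), (543, 192, [1, 704]), (215, 520, [4, 8]), (211, 524, [4, 16]), (195,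
  540, [2, 16]), (193, 542, [1, 2]), (542, 193, [1, 2]), (540, 195, [2, 16]), (524, 211, [4,
  16]), (520, 215, [4, 8]), (192, 543, [1, 704]), (512, 223, [8, 704])]

private def d751_0 : List (ℕ × ℕ × List ℕ) :=
  [(527, 224, [1, 512]), (15, 736, [8, 512]), (199, 552, [4, 64]), (135, 616, [64, 128]), (7,
  744, [8, 128]), (227, 524, [2, 32]), (195, 556, [4, 32]), (225, 526, [1, 2]), (526, 225, [1,
  2]), (556, 195, [4, 32]), (524, 227, [2, 32]), (744, 7, [8, 128]), (616, 135, [64, 128]),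
  (552, 199, [4, 64]), (736, 15, [8, 512]), (224, 527, [1, 512])]

private def d759_0 : List (ℕ × ℕ × List ℕ) :=
  [(759, 0, [4, 512]), (247, 512, [32, 512]), (215, 544, [32, 64]), (151, 608, [64, 128]), (23,
  736, [16, 128]), (7, 752, [1, 16]), (755, 4, [2, 4]), (753, 6, [1, 2]), (6, 753, [1, 2]), (4,
  755, [2, 4]), (752, 7, [1, 16]), (736, 23, [16, 128]), (608, 151, [64, 128]), (544, 215, [32,
  64]), (512, 247, [32, 512]), (0, 759, [4, 512])]

private def d763_0 : List (ℕ × ℕ × List ℕ) :=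
  [(763, 0, [8, 128]), (635, 128, [2, 128]), (755, 8, [8, 512]), (243, 520, [32, 512]), (211,
  552, [16, 32]), (195, 568, [16, 64]), (131, 632, [1, 64]), (633, 130, [1, 2]), (130, 633, [1,
  2]), (632, 131, [1, 64]), (568, 195, [16, 64]), (552, 211, [16, 32]), (520, 243, [32, 512]),
  (8, 755, [8, 512]), (128, 635, [2, 128]), (0, 763, [8, 128])]

private def d765_0 : List (ℕ × ℕ × List ℕ) :=
  [(637, 128, [4, 64]), (573, 192, [1, 64]), (761, 4, [8, 128]), (633, 132, [4, 128]), (753, 12,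
  [8, 512]), (241, 524, [16, 512]), (225, 540, [16, 32]), (193, 572, [1, 32]), (572, 193, [1,
  32]), (540, 225, [16, 32]), (524, 241, [16, 512]), (12, 753, [8, 512]), (132, 633, [4, 128]),
  (4, 761, [8, 128]), (192, 573, [1, 64]), (128, 637, [4, 64])]

private def d766_0 : List (ℕ × ℕ × List ℕ) :=
  [(574, 192, [2, 32]), (542, 224, [16, 32]), (526, 240, [16, 512]), (14, 752, [8, 512]), (134,
  632, [4, 128]), (6, 760, [8, 128]), (194, 572, [2, 64]), (130, 636, [4, 64]), (636, 130, [4,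
  64]), (572, 194, [2, 64]), (760, 6, [8, 128]), (632, 134, [4, 128]), (752, 14, [8, 512]),
  (240, 526, [16, 512]), (224, 542, [16, 32]), (192, 574, [2, 32])]

private def d831_0 : List (ℕ × ℕ × List ℕ) :=
  [(831, 0, [2, 800]), (31, 800, [4, 800]), (27, 804, [4, 8]), (19, 812, [8, 16]), (3, 828, [1,
  16]), (829, 2, [1, 2]), (2, 829, [1, 2]), (828, 3, [1, 16]), (812, 19, [8, 16]), (804, 27, [4,
  8]), (800, 31, [4, 800]), (0, 831, [2, 800])]

private def d863_0 : List (ℕ × ℕ × List ℕ) :=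
  [(95, 768, [4, 832]), (799, 64, [1, 832]), (91, 772, [4, 8]), (83, 780, [2, 8]), (81, 782, [2,
  16]), (65, 798, [1, 16]), (798, 65, [1, 16]), (782, 81, [2, 16]), (780, 83, [2, 8]), (772, 91,
  [4, 8]), (64, 799, [1, 832]), (768, 95, [4, 832])]

private def d879_0 : List (ℕ × ℕ × List ℕ) :=
  [(783, 96, [1, 512]), (271, 608, [8, 512]), (263, 616, [8, 256]), (7, 872, [4, 256]), (67, 812,
  [2, 64]), (3, 876, [4, 64]), (97, 782, [1, 32]), (65, 814, [2, 32]), (814, 65, [2, 32]), (782,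
  97, [1, 32]), (876, 3, [4, 64]), (812, 67, [2, 64]), (872, 7, [4, 256]), (616, 263, [8, 256]),
  (608, 271, [8, 512]), (96, 783, [1, 512])]

private def d887_0 : List (ℕ × ℕ × List ℕ) :=
  [(279, 608, [16, 256]), (23, 864, [4, 256]), (263, 624, [1, 16]), (115, 772, [2, 32]), (83,
  804, [32, 64]), (19, 868, [4, 64]), (625, 262, [1, 512]), (113, 774, [2, 512]), (774, 113, [2,
  512]), (262, 625, [1, 512]), (868, 19, [4, 64]), (804, 83, [32, 64]), (772, 115, [2, 32]),
  (624, 263, [1, 16]), (864, 23, [4, 256]), (608, 279, [16, 256])]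

private def d891_0 : List (ℕ × ℕ × List ℕ) :=
  [(891, 0, [2, 256]), (635, 256, [256, 512]), (123, 768, [32, 512]), (91, 800, [32, 64]), (27,
  864, [8, 64]), (19, 872, [8, 16]), (3, 888, [1, 16]), (889, 2, [1, 2]), (2, 889, [1, 2]),
  (888, 3, [1, 16]), (872, 19, [8, 16]), (864, 27, [8, 64]), (800, 91, [32, 64]), (768, 123,
  [32, 512]), (256, 635, [256, 512]), (0, 891, [2, 256])]

private def d893_0 : List (ℕ × ℕ × List ℕ) :=
  [(893, 0, [4, 64]), (829, 64, [1, 64]), (889, 4, [4, 256]), (633, 260, [256, 512]), (121, 772,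
  [8, 512]), (113, 780, [8, 32]), (81, 812, [16, 32]), (65, 828, [1, 16]), (828, 65, [1, 16]),
  (812, 81, [16, 32]), (780, 113, [8, 32]), (772, 121, [8, 512]), (260, 633, [256, 512]), (4,
  889, [4, 256]), (64, 829, [1, 64]), (0, 893, [4, 64])]

private def d894_0 : List (ℕ × ℕ × List ℕ) :=
  [(830, 64, [2, 32]), (798, 96, [16, 32]), (782, 112, [16, 512]), (270, 624, [8, 512]), (262,
  632, [8, 256]), (6, 888, [4, 256]), (66, 828, [2, 64]), (2, 892, [4, 64]), (892, 2, [4, 64]),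
  (828, 66, [2, 64]), (888, 6, [4, 256]), (632, 262, [8, 256]), (624, 270, [8, 512]), (112, 782,
  [16, 512]), (96, 798, [16, 32]), (64, 830, [2, 32])]

private def d927_0 : List (ℕ × ℕ × List ℕ) :=
  [(927, 0, [1, 896]), (31, 896, [2, 896]), (29, 898, [2, 4]), (25, 902, [4, 8]), (17, 910, [8,
  16]), (1, 926, [1, 16]), (926, 1, [1, 16]), (910, 17, [8, 16]), (902, 25, [4, 8]), (898, 29,
  [2, 4]), (896, 31, [2, 896]), (0, 927, [1, 896])]

private def d943_0 : List (ℕ × ℕ × List ℕ) :=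
  [(911, 32, [1, 512]), (399, 544, [8, 512]), (391, 552, [8, 256]), (135, 808, [4, 256]), (131,
  812, [4, 128]), (3, 940, [2, 128]), (33, 910, [1, 32]), (1, 942, [2, 32]), (942, 1, [2, 32]),
  (910, 33, [1, 32]), (940, 3, [2, 128]), (812, 131, [4, 128]), (808, 135, [4, 256]), (552, 391,
  [8, 256]), (544, 399, [8, 512]), (32, 911, [1, 512])]

private def d951_0 : List (ℕ × ℕ × List ℕ) :=
  [(407, 544, [16, 256]), (151, 800, [4, 256]), (903, 48, [1, 512]), (391, 560, [16, 512]), (147,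
  804, [4, 128]), (19, 932, [2, 128]), (49, 902, [1, 32]), (17, 934, [2, 32]), (934, 17, [2,
  32]), (902, 49, [1, 32]), (932, 19, [2, 128]), (804, 147, [4, 128]), (560, 391, [16, 512]),
  (48, 903, [1, 512]), (800, 151, [4, 256]), (544, 407, [16, 256])]

private def d955_0 : List (ℕ × ℕ × List ℕ) :=
  [(155, 800, [8, 128]), (27, 928, [2, 128]), (147, 808, [8, 16]), (387, 568, [1, 256]), (131,
  824, [16, 256]), (569, 386, [1, 512]), (57, 898, [32, 512]), (25, 930, [2, 32]), (930, 25, [2,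
  32]), (898, 57, [32, 512]), (386, 569, [1, 512]), (824, 131, [16, 256]), (568, 387, [1, 256]),
  (808, 147, [8, 16]), (928, 27, [2, 128]), (800, 155, [8, 128])]

private def d957_0 : List (ℕ × ℕ × List ℕ) :=
  [(957, 0, [1, 128]), (829, 128, [128, 256]), (573, 384, [256, 512]), (61, 896, [32, 512]), (29,
  928, [4, 32]), (25, 932, [4, 8]), (17, 940, [8, 16]), (1, 956, [1, 16]), (956, 1, [1, 16]),
  (940, 17, [8, 16]), (932, 25, [4, 8]), (928, 29, [4, 32]), (896, 61, [32, 512]), (384, 573,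
  [256, 512]), (128, 829, [128, 256]), (0, 957, [1, 128])]

private def d958_0 : List (ℕ × ℕ × List ℕ) :=
  [(958, 0, [2, 32]), (926, 32, [16, 32]), (910, 48, [8, 16]), (902, 56, [8, 512]), (390, 568,
  [4, 512]), (386, 572, [4, 256]), (130, 828, [128, 256]), (2, 956, [2, 128]), (956, 2, [2,
  128]), (828, 130, [128, 256]), (572, 386, [4, 256]), (568, 390, [4, 512]), (56, 902, [8,
  512]), (48, 910, [8, 16]), (32, 926, [16, 32]), (0, 958, [2, 32])]

private def d975_0 : List (ℕ × ℕ × List ℕ) :=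
  [(975, 0, [1, 512]), (463, 512, [8, 512]), (455, 520, [4, 8]), (451, 524, [4, 256]), (195, 780,
  [2, 256]), (193, 782, [2, 128]), (65, 910, [64, 128]), (1, 974, [1, 64]), (974, 1, [1, 64]),
  (910, 65, [64, 128]), (782, 193, [2, 128]), (780, 195, [2, 256]), (524, 451, [4, 256]), (520,
  455, [4, 8]), (512, 463, [8, 512]), (0, 975, [1, 512])]

private def d983_0 : List (ℕ × ℕ × List ℕ) :=
  [(471, 512, [16, 256]), (215, 768, [4, 256]), (967, 16, [1, 512]), (455, 528, [16, 512]), (211,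
  772, [4, 128]), (83, 900, [2, 128]), (81, 902, [2, 64]), (17, 966, [1, 64]), (966, 17, [1,
  64]), (902, 81, [2, 64]), (900, 83, [2, 128]), (772, 211, [4, 128]), (528, 455, [16, 512]),
  (16, 967, [1, 512]), (768, 215, [4, 256]), (512, 471, [16, 256])]

private def d987_0 : List (ℕ × ℕ × List ℕ) :=
  [(219, 768, [8, 128]), (91, 896, [2, 128]), (467, 520, [16, 256]), (211, 776, [8, 256]), (963,
  24, [1, 512]), (451, 536, [16, 512]), (89, 898, [2, 64]), (25, 962, [1, 64]), (962, 25, [1,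
  64]), (898, 89, [2, 64]), (536, 451, [16, 512]), (24, 963, [1, 512]), (776, 211, [8, 256]),
  (520, 467, [16, 256]), (896, 91, [2, 128]), (768, 219, [8, 128])]

private def d989_0 : List (ℕ × ℕ × List ℕ) :=
  [(93, 896, [4, 64]), (29, 960, [1, 64]), (89, 900, [4, 8]), (209, 780, [16, 128]), (81, 908,
  [8, 128]), (961, 28, [1, 512]), (449, 540, [256, 512]), (193, 796, [16, 256]), (796, 193, [16,
  256]), (540, 449, [256, 512]), (28, 961, [1, 512]), (908, 81, [8, 128]), (780, 209, [16,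
  128]), (900, 89, [4, 8]), (960, 29, [1, 64]), (896, 93, [4, 64])]

private def d990_0 : List (ℕ × ℕ × List ℕ) :=
  [(990, 0, [16, 64]), (926, 64, [64, 128]), (798, 192, [128, 256]), (542, 448, [256, 512]), (30,
  960, [2, 512]), (974, 16, [8, 16]), (966, 24, [4, 8]), (962, 28, [2, 4]), (28, 962, [2, 4]),
  (24, 966, [4, 8]), (16, 974, [8, 16]), (960, 30, [2, 512]), (448, 542, [256, 512]), (192, 798,
  [128, 256]), (64, 926, [64, 128]), (0, 990, [16, 64])]

private def d999_0 : List (ℕ × ℕ × List ℕ) :=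
  [(999, 0, [7, 512]), (487, 512, [32, 512]), (455, 544, [32, 64]), (391, 608, [64, 128]), (263,
  736, [128, 256]), (7, 992, [7, 256]), (992, 7, [7, 256]), (736, 263, [128, 256]), (608, 391,
  [64, 128]), (544, 455, [32, 64]), (512, 487, [32, 512]), (0, 999, [7, 512])]

private def d1003_0 : List (ℕ × ℕ × List ℕ) :=
  [(995, 8, [11, 512]), (483, 520, [32, 512]), (451, 552, [32, 256]), (195, 808, [64, 256]),
  (131, 872, [64, 128]), (3, 1000, [11, 128]), (1000, 3, [11, 128]), (872, 131, [64, 128]),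
  (808, 195, [64, 256]), (552, 451, [32, 256]), (520, 483, [32, 512]), (8, 995, [11, 512])]

private def d1005_0 : List (ℕ × ℕ × List ℕ) :=
  [(993, 12, [13, 512]), (481, 524, [256, 512]), (225, 780, [32, 256]), (193, 812, [32, 128]),
  (65, 940, [64, 128]), (1, 1004, [13, 64]), (1004, 1, [13, 64]), (940, 65, [64, 128]), (812,
  193, [32, 128]), (780, 225, [32, 256]), (524, 481, [256, 512]), (12, 993, [13, 512])]

private def d1006_0 : List (ℕ × ℕ × List ℕ) :=
  [(1006, 0, [14, 32]), (974, 32, [32, 64]), (910, 96, [64, 128]), (782, 224, [128, 256]), (526,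
  480, [256, 512]), (14, 992, [14, 512]), (992, 14, [14, 512]), (480, 526, [256, 512]), (224,
  782, [128, 256]), (96, 910, [64, 128]), (32, 974, [32, 64]), (0, 1006, [14, 32])]

private def d1011_0 : List (ℕ × ℕ × List ℕ) :=
  [(1011, 0, [19, 256]), (755, 256, [256, 512]), (243, 768, [32, 512]), (211, 800, [32, 64]),
  (147, 864, [64, 128]), (19, 992, [19, 128]), (992, 19, [19, 128]), (864, 147, [64, 128]),
  (800, 211, [32, 64]), (768, 243, [32, 512]), (256, 755, [256, 512]), (0, 1011, [19, 256])]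

private def d1013_0 : List (ℕ × ℕ × List ℕ) :=
  [(1009, 4, [21, 256]), (753, 260, [256, 512]), (241, 772, [128, 512]), (113, 900, [32, 128]),
  (81, 932, [32, 64]), (17, 996, [21, 64]), (996, 17, [21, 64]), (932, 81, [32, 64]), (900, 113,
  [32, 128]), (772, 241, [128, 512]), (260, 753, [256, 512]), (4, 1009, [21, 256])]

private def d1014_0 : List (ℕ × ℕ × List ℕ) :=
  [(998, 16, [22, 32]), (966, 48, [32, 64]), (902, 112, [64, 512]), (390, 624, [128, 512]), (262,
  752, [128, 256]), (6, 1008, [22, 256]), (1008, 6, [22, 256]), (752, 262, [128, 256]), (624,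
  390, [128, 512]), (112, 902, [64, 512]), (48, 966, [32, 64]), (16, 998, [22, 32])]

private def d1017_0 : List (ℕ × ℕ × List ℕ) :=
  [(1017, 0, [25, 128]), (889, 128, [128, 256]), (633, 384, [256, 512]), (121, 896, [32, 512]),
  (89, 928, [32, 64]), (25, 992, [25, 64]), (992, 25, [25, 64]), (928, 89, [32, 64]), (896, 121,
  [32, 512]), (384, 633, [256, 512]), (128, 889, [128, 256]), (0, 1017, [25, 128])]

private def d1018_0 : List (ℕ × ℕ × List ℕ) :=
  [(994, 24, [26, 32]), (962, 56, [32, 512]), (450, 568, [64, 512]), (386, 632, [64, 256]), (130,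
  888, [128, 256]), (2, 1016, [26, 128]), (1016, 2, [26, 128]), (888, 130, [128, 256]), (632,
  386, [64, 256]), (568, 450, [64, 512]), (56, 962, [32, 512]), (24, 994, [26, 32])]

private def d1020_0 : List (ℕ × ℕ × List ℕ) :=
  [(1020, 0, [28, 64]), (956, 64, [64, 128]), (828, 192, [128, 256]), (572, 448, [256, 512]),
  (60, 960, [32, 512]), (28, 992, [28, 32]), (992, 28, [28, 32]), (960, 60, [32, 512]), (448,
  572, [256, 512]), (192, 828, [128, 256]), (64, 956, [64, 128]), (0, 1020, [28, 64])]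

private def d239_0 : List (ℕ × ℕ × List ℕ) :=
  [(15, 224, [239]), (224, 15, [239])]

private def d247_0 : List (ℕ × ℕ × List ℕ) :=
  [(247, 0, [247]), (0, 247, [247])]

private def d251_0 : List (ℕ × ℕ × List ℕ) :=
  [(243, 8, [251]), (8, 243, [251])]

private def d253_0 : List (ℕ × ℕ × List ℕ) :=
  [(241, 12, [253]), (12, 241, [253])]

private def d254_0 : List (ℕ × ℕ × List ℕ) :=
  [(14, 240, [254]), (240, 14, [254])]

private def d367_0 : List (ℕ × ℕ × List ℕ) :=
  [(271, 96, [367]), (96, 271, [367])]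

private def d375_0 : List (ℕ × ℕ × List ℕ) :=
  [(113, 262, [375]), (262, 113, [375])]

private def d379_0 : List (ℕ × ℕ × List ℕ) :=
  [(123, 256, [379]), (256, 123, [379])]

private def d381_0 : List (ℕ × ℕ × List ℕ) :=
  [(121, 260, [381]), (260, 121, [381])]

private def d382_0 : List (ℕ × ℕ × List ℕ) :=
  [(270, 112, [382]), (112, 270, [382])]

private def d431_0 : List (ℕ × ℕ × List ℕ) :=
  [(399, 32, [431]), (32, 399, [431])]

private def d439_0 : List (ℕ × ℕ × List ℕ) :=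
  [(391, 48, [439]), (48, 391, [439])]

private def d443_0 : List (ℕ × ℕ × List ℕ) :=
  [(57, 386, [443]), (386, 57, [443])]

private def d445_0 : List (ℕ × ℕ × List ℕ) :=
  [(61, 384, [445]), (384, 61, [445])]

private def d446_0 : List (ℕ × ℕ × List ℕ) :=
  [(390, 56, [446]), (56, 390, [446])]

private def d463_0 : List (ℕ × ℕ × List ℕ) :=
  [(463, 0, [463]), (0, 463, [463])]

private def d471_0 : List (ℕ × ℕ × List ℕ) :=
  [(455, 16, [471]), (16, 455, [471])]

private def d475_0 : List (ℕ × ℕ × List ℕ) :=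
  [(451, 24, [475]), (24, 451, [475])]

private def d477_0 : List (ℕ × ℕ × List ℕ) :=
  [(449, 28, [477]), (28, 449, [477])]

private def d478_0 : List (ℕ × ℕ × List ℕ) :=
  [(30, 448, [478]), (448, 30, [478])]

private def d487_0 : List (ℕ × ℕ × List ℕ) :=
  [(487, 0, [487]), (0, 487, [487])]

private def d491_0 : List (ℕ × ℕ × List ℕ) :=
  [(483, 8, [491]), (8, 483, [491])]

private def d493_0 : List (ℕ × ℕ × List ℕ) :=
  [(481, 12, [493]), (12, 481, [493])]

private def d494_0 : List (ℕ × ℕ × List ℕ) :=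
  [(14, 480, [494]), (480, 14, [494])]

private def d499_0 : List (ℕ × ℕ × List ℕ) :=
  [(243, 256, [499]), (256, 243, [499])]

private def d501_0 : List (ℕ × ℕ × List ℕ) :=
  [(241, 260, [501]), (260, 241, [501])]

private def d502_0 : List (ℕ × ℕ × List ℕ) :=
  [(390, 112, [502]), (112, 390, [502])]

private def d505_0 : List (ℕ × ℕ × List ℕ) :=
  [(121, 384, [505]), (384, 121, [505])]

private def d506_0 : List (ℕ × ℕ × List ℕ) :=
  [(450, 56, [506]), (56, 450, [506])]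

private def d508_0 : List (ℕ × ℕ × List ℕ) :=
  [(60, 448, [508]), (448, 60, [508])]

private def d623_0 : List (ℕ × ℕ × List ℕ) :=
  [(7, 616, [623]), (616, 7, [623])]

private def d631_0 : List (ℕ × ℕ × List ℕ) :=
  [(23, 608, [631]), (608, 23, [631])]

private def d635_0 : List (ℕ × ℕ × List ℕ) :=
  [(635, 0, [635]), (0, 635, [635])]

private def d637_0 : List (ℕ × ℕ × List ℕ) :=
  [(633, 4, [637]), (4, 633, [637])]

private def d638_0 : List (ℕ × ℕ × List ℕ) :=
  [(6, 632, [638]), (632, 6, [638])]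

private def d687_0 : List (ℕ × ℕ × List ℕ) :=
  [(135, 552, [687]), (552, 135, [687])]

private def d695_0 : List (ℕ × ℕ × List ℕ) :=
  [(151, 544, [695]), (544, 151, [695])]

private def d699_0 : List (ℕ × ℕ × List ℕ) :=
  [(131, 568, [699]), (568, 131, [699])]

private def d701_0 : List (ℕ × ℕ × List ℕ) :=
  [(573, 128, [701]), (128, 573, [701])]

private def d702_0 : List (ℕ × ℕ × List ℕ) :=
  [(130, 572, [702]), (572, 130, [702])]

private def d719_0 : List (ℕ × ℕ × List ℕ) :=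
  [(195, 524, [719]), (524, 195, [719])]

private def d727_0 : List (ℕ × ℕ × List ℕ) :=
  [(215, 512, [727]), (512, 215, [727])]

private def d731_0 : List (ℕ × ℕ × List ℕ) :=
  [(211, 520, [731]), (520, 211, [731])]

private def d733_0 : List (ℕ × ℕ × List ℕ) :=
  [(193, 540, [733]), (540, 193, [733])]

private def d734_0 : List (ℕ × ℕ × List ℕ) :=
  [(542, 192, [734]), (192, 542, [734])]

private def d743_0 : List (ℕ × ℕ × List ℕ) :=
  [(7, 736, [743]), (736, 7, [743])]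

private def d747_0 : List (ℕ × ℕ × List ℕ) :=
  [(195, 552, [747]), (552, 195, [747])]

private def d749_0 : List (ℕ × ℕ × List ℕ) :=
  [(225, 524, [749]), (524, 225, [749])]

private def d750_0 : List (ℕ × ℕ × List ℕ) :=
  [(526, 224, [750]), (224, 526, [750])]

private def d755_0 : List (ℕ × ℕ × List ℕ) :=
  [(755, 0, [755]), (0, 755, [755])]

private def d757_0 : List (ℕ × ℕ × List ℕ) :=
  [(753, 4, [757]), (4, 753, [757])]

private def d758_0 : List (ℕ × ℕ × List ℕ) :=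
  [(6, 752, [758]), (752, 6, [758])]

private def d761_0 : List (ℕ × ℕ × List ℕ) :=
  [(633, 128, [761]), (128, 633, [761])]

private def d762_0 : List (ℕ × ℕ × List ℕ) :=
  [(130, 632, [762]), (632, 130, [762])]

private def d764_0 : List (ℕ × ℕ × List ℕ) :=
  [(572, 192, [764]), (192, 572, [764])]

private def d815_0 : List (ℕ × ℕ × List ℕ) :=
  [(3, 812, [815]), (812, 3, [815])]

private def d823_0 : List (ℕ × ℕ × List ℕ) :=
  [(19, 804, [823]), (804, 19, [823])]

private def d827_0 : List (ℕ × ℕ × List ℕ) :=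
  [(27, 800, [827]), (800, 27, [827])]

private def d829_0 : List (ℕ × ℕ × List ℕ) :=
  [(829, 0, [829]), (0, 829, [829])]

private def d830_0 : List (ℕ × ℕ × List ℕ) :=
  [(2, 828, [830]), (828, 2, [830])]

private def d847_0 : List (ℕ × ℕ × List ℕ) :=
  [(65, 782, [847]), (782, 65, [847])]

private def d855_0 : List (ℕ × ℕ × List ℕ) :=
  [(83, 772, [855]), (772, 83, [855])]

private def d859_0 : List (ℕ × ℕ × List ℕ) :=
  [(91, 768, [859]), (768, 91, [859])]

private def d861_0 : List (ℕ × ℕ × List ℕ) :=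
  [(81, 780, [861]), (780, 81, [861])]

private def d862_0 : List (ℕ × ℕ × List ℕ) :=
  [(798, 64, [862]), (64, 798, [862])]

private def d871_0 : List (ℕ × ℕ × List ℕ) :=
  [(263, 608, [871]), (608, 263, [871])]

private def d875_0 : List (ℕ × ℕ × List ℕ) :=
  [(3, 872, [875]), (872, 3, [875])]

private def d877_0 : List (ℕ × ℕ × List ℕ) :=
  [(65, 812, [877]), (812, 65, [877])]

private def d878_0 : List (ℕ × ℕ × List ℕ) :=
  [(782, 96, [878]), (96, 782, [878])]

private def d883_0 : List (ℕ × ℕ × List ℕ) :=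
  [(19, 864, [883]), (864, 19, [883])]

private def d885_0 : List (ℕ × ℕ × List ℕ) :=
  [(113, 772, [885]), (772, 113, [885])]

private def d886_0 : List (ℕ × ℕ × List ℕ) :=
  [(262, 624, [886]), (624, 262, [886])]

private def d889_0 : List (ℕ × ℕ × List ℕ) :=
  [(889, 0, [889]), (0, 889, [889])]

private def d890_0 : List (ℕ × ℕ × List ℕ) :=
  [(2, 888, [890]), (888, 2, [890])]

private def d892_0 : List (ℕ × ℕ × List ℕ) :=
  [(828, 64, [892]), (64, 828, [892])]

private def d911_0 : List (ℕ × ℕ × List ℕ) :=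
  [(1, 910, [911]), (910, 1, [911])]

private def d919_0 : List (ℕ × ℕ × List ℕ) :=
  [(17, 902, [919]), (902, 17, [919])]

private def d923_0 : List (ℕ × ℕ × List ℕ) :=
  [(25, 898, [923]), (898, 25, [923])]

private def d925_0 : List (ℕ × ℕ × List ℕ) :=
  [(29, 896, [925]), (896, 29, [925])]

private def d926_0 : List (ℕ × ℕ × List ℕ) :=
  [(926, 0, [926]), (0, 926, [926])]

private def d935_0 : List (ℕ × ℕ × List ℕ) :=
  [(391, 544, [935]), (544, 391, [935])]

private def d939_0 : List (ℕ × ℕ × List ℕ) :=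
  [(131, 808, [939]), (808, 131, [939])]

private def d941_0 : List (ℕ × ℕ × List ℕ) :=
  [(1, 940, [941]), (940, 1, [941])]

private def d942_0 : List (ℕ × ℕ × List ℕ) :=
  [(910, 32, [942]), (32, 910, [942])]

private def d947_0 : List (ℕ × ℕ × List ℕ) :=
  [(147, 800, [947]), (800, 147, [947])]

private def d949_0 : List (ℕ × ℕ × List ℕ) :=
  [(17, 932, [949]), (932, 17, [949])]

private def d950_0 : List (ℕ × ℕ × List ℕ) :=
  [(902, 48, [950]), (48, 902, [950])]

private def d953_0 : List (ℕ × ℕ × List ℕ) :=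
  [(25, 928, [953]), (928, 25, [953])]

private def d954_0 : List (ℕ × ℕ × List ℕ) :=
  [(386, 568, [954]), (568, 386, [954])]

private def d956_0 : List (ℕ × ℕ × List ℕ) :=
  [(956, 0, [956]), (0, 956, [956])]

private def d967_0 : List (ℕ × ℕ × List ℕ) :=
  [(455, 512, [967]), (512, 455, [967])]

private def d971_0 : List (ℕ × ℕ × List ℕ) :=
  [(451, 520, [971]), (520, 451, [971])]

private def d973_0 : List (ℕ × ℕ × List ℕ) :=
  [(193, 780, [973]), (780, 193, [973])]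

private def d974_0 : List (ℕ × ℕ × List ℕ) :=
  [(974, 0, [974]), (0, 974, [974])]

private def d979_0 : List (ℕ × ℕ × List ℕ) :=
  [(211, 768, [979]), (768, 211, [979])]

private def d981_0 : List (ℕ × ℕ × List ℕ) :=
  [(81, 900, [981]), (900, 81, [981])]

private def d982_0 : List (ℕ × ℕ × List ℕ) :=
  [(966, 16, [982]), (16, 966, [982])]

private def d985_0 : List (ℕ × ℕ × List ℕ) :=
  [(89, 896, [985]), (896, 89, [985])]

private def d986_0 : List (ℕ × ℕ × List ℕ) :=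
  [(962, 24, [986]), (24, 962, [986])]

private def d988_0 : List (ℕ × ℕ × List ℕ) :=
  [(28, 960, [988]), (960, 28, [988])]

private def d31_0 : List (ℕ × ℕ × List ℕ) :=
  [(31, 0, [31]), (0, 31, [31])]

private def d992_0 : List (ℕ × ℕ × List ℕ) :=
  [(992, 0, [992]), (0, 992, [992])]

private def d0_0 : List (ℕ × ℕ × List ℕ) :=
  [(0, 0, [])]

/-- the covectors of `N`, grouped by the support, with masks of the facets -/
def data : List (ℕ × List (ℕ × ℕ × List ℕ)) :=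
  [(1023, d1023_0 ++ d1023_1 ++ d1023_2 ++ d1023_3), (511, d511_0 ++ d511_1), (767, d767_0 ++
  d767_1), (895, d895_0 ++ d895_1), (959, d959_0 ++ d959_1), (991, d991_0 ++ d991_1), (1007,
  d1007_0 ++ d1007_1), (1015, d1015_0 ++ d1015_1), (1019, d1019_0 ++ d1019_1), (1021, d1021_0 ++
  d1021_1), (1022, d1022_0 ++ d1022_1), (255, d255_0), (383, d383_0), (447, d447_0), (479,
  d479_0), (495, d495_0), (503, d503_0), (507, d507_0), (509, d509_0), (510, d510_0), (639,
  d639_0), (703, d703_0), (735, d735_0), (751, d751_0), (759, d759_0), (763, d763_0), (765,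
  d765_0), (766, d766_0), (831, d831_0), (863, d863_0), (879, d879_0), (887, d887_0), (891,
  d891_0), (893, d893_0), (894, d894_0), (927, d927_0), (943, d943_0), (951, d951_0), (955,
  d955_0), (957, d957_0), (958, d958_0), (975, d975_0), (983, d983_0), (987, d987_0), (989,
  d989_0), (990, d990_0), (999, d999_0), (1003, d1003_0), (1005, d1005_0), (1006, d1006_0),
  (1011, d1011_0), (1013, d1013_0), (1014, d1014_0), (1017, d1017_0), (1018, d1018_0), (1020,
  d1020_0), (239, d239_0), (247, d247_0), (251, d251_0), (253, d253_0), (254, d254_0), (367,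
  d367_0), (375, d375_0), (379, d379_0), (381, d381_0), (382, d382_0), (431, d431_0), (439,
  d439_0), (443, d443_0), (445, d445_0), (446, d446_0), (463, d463_0), (471, d471_0), (475,
  d475_0), (477, d477_0), (478, d478_0), (487, d487_0), (491, d491_0), (493, d493_0), (494,
  d494_0), (499, d499_0), (501, d501_0), (502, d502_0), (505, d505_0), (506, d506_0), (508,
  d508_0), (623, d623_0), (631, d631_0), (635, d635_0), (637, d637_0), (638, d638_0), (687,
  d687_0), (695, d695_0), (699, d699_0), (701, d701_0), (702, d702_0), (719, d719_0), (727,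
  d727_0), (731, d731_0), (733, d733_0), (734, d734_0), (743, d743_0), (747, d747_0), (749,
  d749_0), (750, d750_0), (755, d755_0), (757, d757_0), (758, d758_0), (761, d761_0), (762,
  d762_0), (764, d764_0), (815, d815_0), (823, d823_0), (827, d827_0), (829, d829_0), (830,
  d830_0), (847, d847_0), (855, d855_0), (859, d859_0), (861, d861_0), (862, d862_0), (871,
  d871_0), (875, d875_0), (877, d877_0), (878, d878_0), (883, d883_0), (885, d885_0), (886,
  d886_0), (889, d889_0), (890, d890_0), (892, d892_0), (911, d911_0), (919, d919_0), (923,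
  d923_0), (925, d925_0), (926, d926_0), (935, d935_0), (939, d939_0), (941, d941_0), (942,
  d942_0), (947, d947_0), (949, d949_0), (950, d950_0), (953, d953_0), (954, d954_0), (956,
  d956_0), (967, d967_0), (971, d971_0), (973, d973_0), (974, d974_0), (979, d979_0), (981,
  d981_0), (982, d982_0), (985, d985_0), (986, d986_0), (988, d988_0), (31, d31_0), (992,
  d992_0), (0, d0_0)]

/-- orthogonality with all circuits -/
def okall (x : ℕ × ℕ) : Bool := (List.range 10).all fun k => (circs k).all fun c => okc c x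

/-- the facets are covectors -/
def chk1 : Bool := data.all fun g => g.2.all fun x => Nat.beq (Nat.lor x.1 x.2.1) g.1 &&
  x.2.2.all fun f => !(Nat.beq f 0) && Nat.beq (Nat.land f g.1) f &&
    okall (Nat.land x.1 (1023 - f), Nat.land x.2.1 (1023 - f))

/-- facets between covectors -/
def chk2 : Bool := data.all fun g => data.all fun g' => !(Nat.beq g.1 g'.1) ||
  g.2.all fun x => g'.2.all fun y => (Nat.beq x.1 y.1 && Nat.beq x.2.1 y.2.1) ||
    x.2.2.any fun f =>
      Nat.beq (Nat.land f (Nat.lor (Nat.land x.1 y.2.1) (Nat.land x.2.1 y.1))) f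

/-- completeness -/
def chk3 : Bool := (lst 10).all fun x => data.any fun g => Nat.beq (Nat.lor x.1 x.2) g.1 &&
  g.2.any fun y => Nat.beq x.1 y.1 && Nat.beq x.2 y.2.1

set_option maxRecDepth 100000

theorem chk1_true : chk1 = true := by decide +kernel

theorem chk2_true : chk2 = true := by decide +kernel

theorem chk3_true : chk3 = true := by decide +kernel

end Pool.Agent.Sweep
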