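import Pool.Agent.Lib.MP_26a7e2_co.NData

/-!
# MP_26a7e2_co : `N` is an oriented matroid
-/

namespace Pool.Agent.Sweep

theorem cd_inj {X Y : SV (Fin 10)} (h1 : (cd X).1 = (cd Y).1) (h2 : (cd X).2 = (cd Y).2) :
    X = Y := by
  funext i
  have a := cd_bit1 X i
  have b := cd_bit2 X i
  rw [h1, cd_bit1] at a
  rw [h2, cd_bit2] at b
  revert a b
  generalize X i = x
  generalize Y i = y
  revert x y
  decide

theorem testBit_compl {f : ℕ} (hf : f < 2 ^ 10) {i : ℕ} (hi : i < 10) :
    (1023 - f).testBit i = !f.testBit i := by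
  have h := Nat.testBit_two_pow_sub_succ hf i
  have h1 : 2 ^ 10 - (f + 1) = 1023 - f := by omega
  rw [h1] at h
  rw [h]
  simp [hi]

theorem bit_land (a b i : ℕ) : (Nat.land a b).testBit i = (a.testBit i && b.testBit i) :=
  Nat.testBit_and a b i

theorem bit_lor (a b i : ℕ) : (Nat.lor a b).testBit i = (a.testBit i || b.testBit i) :=
  Nat.testBit_or a b i

private theorem entry {X : SV (Fin 10)} (hX : X ∈ NN) : ∃ g ∈ data,
    Nat.lor (cd X).1 (cd X).2 = g.1 ∧ ∃ y ∈ g.2, (cd X).1 = y.1 ∧ (cd X).2 = y.2.1 := by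
  have h := chk3_true
  unfold chk3 at h
  rw [List.all_eq_true] at h
  have h1 := h _ (cd_mem_lst hX)
  rw [List.any_eq_true] at h1
  obtain ⟨g, hg, h2⟩ := h1
  rw [Bool.and_eq_true, List.any_eq_true] at h2
  obtain ⟨h3, y, hy, h4⟩ := h2
  rw [Bool.and_eq_true] at h4
  exact ⟨g, hg, Nat.eq_of_beq_eq_true h3, y, hy, Nat.eq_of_beq_eq_true h4.1,
    Nat.eq_of_beq_eq_true h4.2⟩

private theorem NN_facets : ∀ X ∈ NN, ∀ Y ∈ NN, (∀ e, X e = 0 ↔ Y e = 0) → X ≠ Y →
    ∃ Z ∈ NN, (∀ e, Z e = 0 ∨ Z e = X e) ∧ (∃ e, Z e = 0 ∧ X e ≠ 0) ∧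
      ∀ e, Z e = 0 → X e ≠ 0 → Y e = -X e := by
  intro X hX Y hY hs hne
  obtain ⟨g, hg, g1, x, hx, x1, x2⟩ := entry hX
  obtain ⟨g', hg', g1', y, hy, y1, y2⟩ := entry hY
  have hsupp : g.1 = g'.1 := by
    rw [← g1, ← g1']
    apply Nat.eq_of_testBit_eq
    intro i
    rw [bit_lor, bit_lor]
    rcases lt_or_ge i 10 with hi | hi
    · have a1 := cd_bit1 X ⟨i, hi⟩
      have a2 := cd_bit2 X ⟨i, hi⟩
      have b1 := cd_bit1 Y ⟨i, hi⟩
      have b2 := cd_bit2 Y ⟨i, hi⟩
      simp only at a1 a2 b1 b2
      rw [a1, a2, b1, b2]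
      have := hs ⟨i, hi⟩
      revert this
      generalize X ⟨i, hi⟩ = a
      generalize Y ⟨i, hi⟩ = b
      revert a b
      decide
    · rw [cd_bit1' X i hi, cd_bit2' X i hi, cd_bit1' Y i hi, cd_bit2' Y i hi]
  have c2 := chk2_true
  unfold chk2 at c2
  rw [List.all_eq_true] at c2
  have c2 := c2 g hg
  rw [List.all_eq_true] at c2
  have c2 := c2 g' hg'
  have hb : (!(Nat.beq g.1 g'.1)) = false := by
    rw [hsupp]
    simp
  rw [hb, Bool.false_or, List.all_eq_true] at c2
  have c2 := c2 x hx
  rw [List.all_eq_true] at c2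
  have c2 := c2 y hy
  rw [Bool.or_eq_true, Bool.and_eq_true, List.any_eq_true] at c2
  rcases c2 with ⟨h1, h2⟩ | ⟨f, hf, h3⟩
  · exfalso
    have e1 := Nat.eq_of_beq_eq_true h1
    have e2 := Nat.eq_of_beq_eq_true h2
    exact hne (cd_inj (by rw [x1, y1, e1]) (by rw [x2, y2, e2]))
  · have h3 := Nat.eq_of_beq_eq_true h3
    have c1 := chk1_true
    unfold chk1 at c1
    rw [List.all_eq_true] at c1
    have c1 := c1 g hg
    rw [List.all_eq_true] at c1
    have c1 := c1 x hx
    rw [Bool.and_eq_true, List.all_eq_true] at c1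
    have c1 := c1.2 f hf
    rw [Bool.and_eq_true, Bool.and_eq_true] at c1
    obtain ⟨⟨h4, h5⟩, h6⟩ := c1
    have h5 := Nat.eq_of_beq_eq_true h5
    have h4 : f ≠ 0 := by
      rintro rfl
      simp at h4
    -- bits of f
    have hfb : ∀ i, f.testBit i = true → g.1.testBit i = true := by
      intro i hi
      rw [← h5, bit_land, Bool.and_eq_true] at hi
      exact hi.2
    have hg10 : ∀ i, 10 ≤ i → g.1.testBit i = false := by
      intro i hi
      rw [← g1, bit_lor, cd_bit1' X i hi, cd_bit2' X i hi]
      rfl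
    have hf10 : f < 2 ^ 10 := by
      apply Nat.lt_of_testBit 10
      · by_contra h
        have := hfb 10 (by simpa using h)
        rw [hg10 10 le_rfl] at this
        exact absurd this (by simp)
      · decide
      · intro j hj
        have h7 : f.testBit j = false := by
          by_contra h
          have := hfb j (by simpa using h)
          rw [hg10 j (by omega)] at this
          exact absurd this (by simp)
        rw [h7]
        symm
        rw [Nat.testBit_two_pow]
        simp
        omega
    -- the facet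
    let Z : SV (Fin 10) := fun i => if f.testBit i then 0 else X i
    have hZ1 : (cd Z).1 = Nat.land x.1 (1023 - f) := by
      apply Nat.eq_of_testBit_eq
      intro i
      rw [bit_land, ← x1]
      rcases lt_or_ge i 10 with hi | hi
      · have a1 := cd_bit1 X ⟨i, hi⟩
        have a2 := cd_bit1 Z ⟨i, hi⟩
        simp only at a1 a2
        rw [a1, a2, testBit_compl hf10 hi]
        simp only [Z]
        cases f.testBit i
        · simp
        · simp
      · rw [cd_bit1' Z i hi, cd_bit1' X i hi]
        rfl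
    have hZ2 : (cd Z).2 = Nat.land x.2.1 (1023 - f) := by
      apply Nat.eq_of_testBit_eq
      intro i
      rw [bit_land, ← x2]
      rcases lt_or_ge i 10 with hi | hi
      · have a1 := cd_bit2 X ⟨i, hi⟩
        have a2 := cd_bit2 Z ⟨i, hi⟩
        simp only at a1 a2
        rw [a1, a2, testBit_compl hf10 hi]
        simp only [Z]
        cases f.testBit i
        · simp
        · simp
      · rw [cd_bit2' Z i hi, cd_bit2' X i hi]
        rfl
    refine ⟨Z, ?_, ?_, ?_, ?_⟩
    · intro k hk c hc
      unfold okall at h6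
      rw [List.all_eq_true] at h6
      have h7 := h6 k (List.mem_range.2 hk)
      rw [List.all_eq_true] at h7
      have h8 := h7 c hc
      have h9 : cd Z = (Nat.land x.1 (1023 - f), Nat.land x.2.1 (1023 - f)) :=
        Prod.ext hZ1 hZ2
      rw [h9]
      exact h8
    · intro e
      by_cases h : f.testBit e = true
      · left; simp [Z, h]
      · right; simp [Z, h]
    · obtain ⟨i, hi⟩ : ∃ i, f.testBit i = true := by
        by_contra hcon
        push Not at hcon
        apply h4
        apply Nat.eq_of_testBit_eq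
        intro i
        rw [Nat.zero_testBit]
        have := hcon i
        simpa using this
      have hi10 : i < 10 := by
        by_contra h
        have := hfb i hi
        rw [hg10 i (by omega)] at this
        exact absurd this (by simp)
      refine ⟨⟨i, hi10⟩, by simp [Z, hi], ?_⟩
      have h7 := hfb i hi
      rw [← g1, bit_lor] at h7
      have a1 := cd_bit1 X ⟨i, hi10⟩
      have a2 := cd_bit2 X ⟨i, hi10⟩
      simp only at a1 a2
      rw [a1, a2] at h7
      intro h8
      rw [h8] at h7
      exact absurd h7 (by decide)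
    · intro e h7 h8
      have h9 : f.testBit e = true := by
        by_contra h
        apply h8
        simpa [Z, h] using h7
      have h10 : (Nat.lor (Nat.land x.1 y.2.1) (Nat.land x.2.1 y.1)).testBit e = true := by
        rw [← h3, bit_land, Bool.and_eq_true] at h9
        exact h9.2
      rw [bit_lor, bit_land, bit_land, ← x1, ← x2, ← y1, ← y2, cd_bit1, cd_bit1, cd_bit2,
        cd_bit2] at h10
      revert h8 h10
      generalize X e = a
      generalize Y e = b
      revert a b
      decide

theorem NN_isOM : IsOM NN := om_of_facets NN NN_zero NN_neg NN_comp NN_facets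

end Pool.Agent.Sweep
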