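import Pool.Agent.Lib.MP_26a7e2_co.Real

/-!
# MP_26a7e2_co : ordered partitions from heights
-/

namespace Pool.Agent.Sweep

theorem exists_op {α : Type} [LinearOrder α] {n : ℕ} (h : Fin n → α) :
    ∃ π : OP n, ∀ i j, π.p i < π.p j ↔ h i < h j := by
  classical
  let s := Finset.univ.image h
  let φ := s.orderIsoOfFin rfl
  refine ⟨⟨s.card, fun i => φ.symm ⟨h i, Finset.mem_image_of_mem _ (Finset.mem_univ _)⟩, ?_⟩, ?_⟩
  · intro k
    obtain ⟨i, -, hi⟩ := Finset.mem_image.1 (φ k).2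
    refine ⟨i, ?_⟩
    rw [OrderIso.symm_apply_eq]
    exact Subtype.ext hi
  · intro i j
    rw [φ.symm.lt_iff_lt]
    exact Subtype.mk_lt_mk

theorem braid_vec {n : ℕ} {X : SV (E n)} (hX : X ∈ braidOM n) : ∃ π : OP n, X = π.vec := by
  obtain ⟨h, hh⟩ := hX
  obtain ⟨π, hπ⟩ := exists_op h
  refine ⟨π, funext fun e => ?_⟩
  rw [hh, dif_apply]
  unfold OP.vec
  rcases lt_trichotomy (h e.1.1) (h e.1.2) with h1 | h1 | h1
  · rw [if_pos ((hπ _ _).2 h1), sign_pos (sub_pos.2 h1)]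
  · have h2 : ¬ π.p e.1.1 < π.p e.1.2 := fun h3 => by
      rw [hπ] at h3
      exact absurd h3 (by rw [h1]; exact lt_irrefl _)
    have h3 : ¬ π.p e.1.2 < π.p e.1.1 := fun h3 => by
      rw [hπ] at h3
      exact absurd h3 (by rw [h1]; exact lt_irrefl _)
    rw [if_neg h2, if_pos (le_antisymm (not_lt.1 h3) (not_lt.1 h2)), h1, sub_self, sign_zero]
  · have h2 := (hπ _ _).2 h1
    rw [if_neg (not_lt.2 h2.le), if_neg h2.ne', sign_neg (sub_neg.2 h1)]

/-- the pair of two different points -/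
def pr {n : ℕ} (i j : Fin n) (h : i ≠ j) : E n :=
  if h' : i < j then ⟨(i, j), h'⟩ else ⟨(j, i), lt_of_le_of_ne (not_lt.1 h') h.symm⟩

theorem vec_zero {n : ℕ} (π : OP n) (e : E n) : π.vec e = 0 ↔ π.p e.1.1 = π.p e.1.2 := by
  unfold OP.vec
  split_ifs with h1 h2
  · exact ⟨fun h => absurd h (by decide), fun h => absurd h1 (by rw [h]; exact lt_irrefl _)⟩
  · exact ⟨fun _ => h2, fun _ => rfl⟩
  · exact ⟨fun h => absurd h (by decide), fun h => absurd h h2⟩

theorem vec_pr {n : ℕ} (π : OP n) (i j : Fin n) (h : i ≠ j) :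
    π.vec (pr i j h) = 0 ↔ π.p i = π.p j := by
  rw [vec_zero]
  unfold pr
  split_ifs
  · exact Iff.rfl
  · exact eq_comm

end Pool.Agent.Sweep
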