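import Pool.Agent.Lib.MP_26a7e2_co.Basic

/-!
# MP_26a7e2_co : realizable oriented matroids, direct sums, restrictions
-/

namespace Pool.Agent.Sweep

/-- realizable oriented matroids -/
theorem real_isOM {E V : Type} [Finite E] [AddCommGroup V] [Module ℝ V] (φ : E → V →ₗ[ℝ] ℝ) :
    IsOM {X : SV E | ∃ x : V, ∀ e, X e = SignType.sign (φ e x)} where
  zero := ⟨0, fun e => by simp⟩
  neg := by
    rintro X ⟨x, hx⟩
    refine ⟨-x, fun e => ?_⟩
    simp only [hx, map_neg, Left.sign_neg]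
  comp := by
    rintro X ⟨x, hx⟩ Y ⟨y, hy⟩
    haveI := Fintype.ofFinite E
    -- a small positive number
    obtain ⟨ε, hε, h⟩ : ∃ ε : ℝ, 0 < ε ∧ ∀ e, φ e x ≠ 0 → ε * |φ e y| < |φ e x| := by
      have h1 : ∀ e, ∃ δ : ℝ, 0 < δ ∧ ∀ ε, 0 < ε → ε ≤ δ → φ e x ≠ 0 →
          ε * |φ e y| < |φ e x| := by
        intro e
        by_cases h : φ e x = 0
        · exact ⟨1, one_pos, fun _ _ _ h' => absurd h h'⟩
        · have h2 : 0 < |φ e x| := abs_pos.2 h
          refine ⟨|φ e x| / (|φ e y| + 1), by positivity, fun ε h0 h3 _ => ?_⟩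
          have h4 : 0 < |φ e y| + 1 := by positivity
          have h5 : ε * (|φ e y| + 1) ≤ |φ e x| := by
            rw [le_div_iff₀ h4] at h3
            exact h3
          nlinarith [abs_nonneg (φ e y)]
      choose δ hδ hδ' using h1
      rcases isEmpty_or_nonempty E with hE | hE
      · exact ⟨1, one_pos, fun e => hE.elim e⟩
      · obtain ⟨e₀, he₀⟩ := Finite.exists_min δ
        exact ⟨δ e₀, hδ e₀, fun e he => hδ' e _ (hδ e₀) (he₀ e) he⟩
    refine ⟨x + ε • y, fun e => ?_⟩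
    unfold scomp
    simp only [hx, hy, map_add, map_smul, smul_eq_mul]
    by_cases h0 : φ e x = 0
    · simp only [h0, sign_zero, if_true, zero_add]
      rw [sign_mul, sign_pos hε, one_mul]
    · have h1 : SignType.sign (φ e x) ≠ 0 := by
        rw [Ne, sign_eq_zero_iff]
        exact h0
      rw [if_neg h1]
      have h2 := h e h0
      have h3 : |ε * φ e y| < |φ e x| := by
        rw [abs_mul, abs_of_pos hε]
        exact h2
      rcases lt_or_gt_of_ne h0 with h4 | h4
      · rw [sign_neg h4, sign_neg]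
        rw [abs_of_neg h4] at h3
        have := (abs_lt.1 h3).2
        linarith
      · rw [sign_pos h4, sign_pos]
        rw [abs_of_pos h4] at h3
        have := (abs_lt.1 h3).1
        linarith
  elim := by
    rintro X ⟨x, hx⟩ Y ⟨y, hy⟩ e ⟨h1, h2⟩
    rw [hx] at h1
    rw [hx, hy] at h2
    have h0 : φ e x ≠ 0 := by
      intro h
      rw [h, sign_zero] at h1
      exact h1 rfl
    -- the combination
    refine ⟨_, ⟨|φ e y| • x + |φ e x| • y, fun _ => rfl⟩, ?_, ?_⟩
    · simp only [map_add, map_smul, smul_eq_mul]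
      rcases lt_or_gt_of_ne h0 with h3 | h3
      · rw [sign_neg h3] at h2
        have h4 : 0 < φ e y := by
          rw [← sign_eq_one_iff, h2]
          decide
        rw [abs_of_neg h3, abs_of_pos h4]
        rw [show φ e y * φ e x + -φ e x * φ e y = 0 by ring, sign_zero]
      · rw [sign_pos h3] at h2
        have h4 : φ e y < 0 := by
          rw [← sign_eq_neg_one_iff, h2]
        rw [abs_of_pos h3, abs_of_neg h4]
        rw [show -φ e y * φ e x + φ e x * φ e y = 0 by ring, sign_zero]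
    · intro f hf
      have hy0 : φ e y ≠ 0 := by
        intro h
        rw [h, sign_zero] at h2
        exact h1 (by simpa using h2.symm)
      have ha : 0 < |φ e y| := abs_pos.2 hy0
      have hb : 0 < |φ e x| := abs_pos.2 h0
      unfold scomp
      unfold Sep at hf
      rw [hx, hy] at hf ⊢
      simp only [map_add, map_smul, smul_eq_mul]
      rcases lt_trichotomy (φ f x) 0 with h3 | h3 | h3
      · rw [sign_neg h3] at hf ⊢
        rw [if_neg (by decide), sign_neg]
        have h4 : φ f y ≤ 0 := by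
          by_contra h
          rw [sign_pos (not_le.1 h)] at hf
          exact hf ⟨by decide, by decide⟩
        nlinarith
      · rw [h3, sign_zero, if_pos rfl, mul_zero, zero_add, sign_mul, sign_pos hb, one_mul]
      · rw [sign_pos h3] at hf ⊢
        rw [if_neg (by decide), sign_pos]
        have h4 : 0 ≤ φ f y := by
          by_contra h
          rw [sign_neg (not_le.1 h)] at hf
          exact hf ⟨by decide, by decide⟩
        nlinarith

/-- direct sums -/
def dsum {E₁ E₂ : Type} (L₁ : Set (SV E₁)) (L₂ : Set (SV E₂)) : Set (SV (E₁ ⊕ E₂)) :=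
  {W | (fun e => W (Sum.inl e)) ∈ L₁ ∧ (fun e => W (Sum.inr e)) ∈ L₂}

theorem dsum_isOM {E₁ E₂ : Type} {L₁ : Set (SV E₁)} {L₂ : Set (SV E₂)} (h₁ : IsOM L₁)
    (h₂ : IsOM L₂) : IsOM (dsum L₁ L₂) where
  zero := ⟨h₁.zero, h₂.zero⟩
  neg X hX := ⟨h₁.neg _ hX.1, h₂.neg _ hX.2⟩
  comp X hX Y hY := ⟨h₁.comp _ hX.1 _ hY.1, h₂.comp _ hX.2 _ hY.2⟩
  elim X hX Y hY e he := by
    rcases e with e | e
    · obtain ⟨Z, hZ, h0, hc⟩ := h₁.elim _ hX.1 _ hY.1 e he
      refine ⟨Sum.elim Z (scomp (fun e => X (Sum.inr e)) (fun e => Y (Sum.inr e))),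
        ⟨hZ, h₂.comp _ hX.2 _ hY.2⟩, h0, ?_⟩
      rintro (f | f) hf
      · exact hc f hf
      · rfl
    · obtain ⟨Z, hZ, h0, hc⟩ := h₂.elim _ hX.2 _ hY.2 e he
      refine ⟨Sum.elim (scomp (fun e => X (Sum.inl e)) (fun e => Y (Sum.inl e))) Z,
        ⟨h₁.comp _ hX.1 _ hY.1, hZ⟩, h0, ?_⟩
      rintro (f | f) hf
      · rfl
      · exact hc f hf

/-- restriction -/
def restr {E E' : Type} (φ : E' → E) (L : Set (SV E)) : Set (SV E') :=
  {X | ∃ W ∈ L, X = fun e => W (φ e)}

theorem restr_isOM {E E' : Type} (φ : E' → E) {L : Set (SV E)} (hL : IsOM L) :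
    IsOM (restr φ L) where
  zero := ⟨_, hL.zero, rfl⟩
  neg := by
    rintro X ⟨W, hW, rfl⟩
    exact ⟨_, hL.neg W hW, rfl⟩
  comp := by
    rintro X ⟨W, hW, rfl⟩ Y ⟨W', hW', rfl⟩
    exact ⟨_, hL.comp W hW W' hW', rfl⟩
  elim := by
    rintro X ⟨W, hW, rfl⟩ Y ⟨W', hW', rfl⟩ e he
    obtain ⟨Z, hZ, h0, hc⟩ := hL.elim W hW W' hW' (φ e) he
    exact ⟨_, ⟨Z, hZ, rfl⟩, h0, fun f hf => hc (φ f) hf⟩

/-- the difference functionals -/
noncomputable def dif (n : ℕ) (e : E n) : (Fin n → ℝ) →ₗ[ℝ] ℝ :=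
  LinearMap.proj (R := ℝ) (φ := fun _ : Fin n => ℝ) e.1.2 -
    LinearMap.proj (R := ℝ) (φ := fun _ : Fin n => ℝ) e.1.1

/-- the braid oriented matroid -/
def braidOM (n : ℕ) : Set (SV (E n)) :=
  {X | ∃ h : Fin n → ℝ, ∀ e, X e = SignType.sign (dif n e h)}

theorem braidOM_isOM (n : ℕ) : IsOM (braidOM n) := real_isOM (dif n)

theorem dif_apply {n : ℕ} (e : E n) (h : Fin n → ℝ) : dif n e h = h e.1.2 - h e.1.1 := rfl

end Pool.Agent.Sweep
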