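import Pool.Agent.Lib.MP_26a7e2_co.Dil

/-!
# MP_26a7e2_co : the star laws and the contradiction
-/

namespace Pool.Agent.Sweep

/-- elimination of an element between `Y` and a multiple of `Z` -/
theorem IsOM.elimS {E : Type} {L : Set (SV E)} (hL : IsOM L) {Y Z : SV E} (hY : Y ∈ L)
    (hZ : Z ∈ L) {e : E} (h1 : Y e ≠ 0) (h2 : Z e ≠ 0) : ∃ A ∈ L, A e = 0 ∧
      (∀ f, Y f = -(Y e * Z e * Z f) → A f = Y f) ∧
      (∀ f, Y f = 0 → A f = -(Y e * Z e * Z f)) ∧ (∀ f, Z f = 0 → A f = Y f) := by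
  have h3 : (fun f => -(Y e * Z e * Z f)) ∈ L := by
    have h4 : Y e * Z e = 1 ∨ Y e * Z e = -1 := by
      revert h1 h2
      generalize Y e = a
      generalize Z e = b
      revert a b
      decide
    rcases h4 with h4 | h4
    · simp only [h4, one_mul]
      exact hL.neg Z hZ
    · have h5 : (fun f => -(Y e * Z e * Z f)) = Z := by
        funext f
        rw [h4]
        generalize Z f = a
        revert a
        decide
      rw [h5]
      exact hZ
  obtain ⟨A, hA, h4, h5, h6, h7⟩ := hL.elim2 hY h3 (e := e) h1 (by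
    revert h1 h2
    generalize Y e = a
    generalize Z e = b
    revert a b
    decide)
  refine ⟨A, hA, h4, h5, h6, fun f hf => h7 f ?_⟩
  simp only [hf]
  generalize Y e * Z e = a
  revert a
  decide

variable {M' : Set (SV (E 12))}

theorem card4 {a b c d : Fin 10} (h1 : a ≠ b) (h2 : a ≠ c) (h3 : a ≠ d) (h4 : b ≠ c) (h5 : b ≠ d)
    (h6 : c ≠ d) : ({a, b, c, d} : Finset (Fin 10)).card = 4 := by
  rw [Finset.card_insert_of_notMem (by simp [*]), Finset.card_insert_of_notMem (by simp [*]),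
    Finset.card_insert_of_notMem (by simp [*]), Finset.card_singleton]

theorem Pre.lift (h : Pre M') {x y z w : Fin 10} (hc : ({x, y, z, w} : Finset (Fin 10)).card = 4)
    (h2 : ∃ p ∈ ({x, y, z, w} : Finset (Fin 10)), ∃ q ∈ ({x, y, z, w} : Finset (Fin 10)),
      ¬ same p q) :
    ∃ Z ∈ M', Z (zz x) = 0 ∧ Z (zz y) = 0 ∧ Z (zz z) = 0 ∧ Z gg = 0 ∧
      ∀ e, chi x y z e ≠ 0 → Z (zz e) = chi x y z e := by
  obtain ⟨X, hX, h3, h4⟩ := MM_surj (chi_mem x y z) 0
  have hI : Indep MM (insert gg (({x, y, z} : Finset (Fin 10)).image zz)) := by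
    refine MM_indep ((NN_indep hc h2).mono ?_)
    intro a ha
    simp only [Finset.mem_insert, Finset.mem_singleton] at ha ⊢
    tauto
  obtain ⟨c1, c2, c3⟩ := chi_facts0 x y z
  obtain ⟨Z, hZ, h5, h6⟩ := weak_lift h.sw.om MM_isOM h.wk hI hX (by
    intro i hi
    rcases Finset.mem_insert.1 hi with rfl | hi
    · exact h4
    · obtain ⟨v, hv, rfl⟩ := Finset.mem_image.1 hi
      rw [h3]
      simp only [Finset.mem_insert, Finset.mem_singleton] at hv
      rcases hv with rfl | rfl | rfl
      · exact c1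
      · exact c2
      · exact c3)
  have hz : ∀ v ∈ ({x, y, z} : Finset (Fin 10)), Z (zz v) = 0 := fun v hv =>
    h5 _ (Finset.mem_insert_of_mem (Finset.mem_image_of_mem _ hv))
  refine ⟨Z, hZ, hz _ (by simp), hz _ (by simp), hz _ (by simp),
    h5 _ (Finset.mem_insert_self _ _), ?_⟩
  intro e he
  rw [h6 (zz e) (by rw [h3]; exact he), h3]

theorem Pre.cmp (h : Pre M') {i j k l : Fin 10} (hc : ({i, j, k, l} : Finset (Fin 10)).card = 4)
    (h2 : ∃ p ∈ ({i, j, k, l} : Finset (Fin 10)), ∃ q ∈ ({i, j, k, l} : Finset (Fin 10)),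
      ¬ same p q) {A A' : SV (E 12)} (hA : A ∈ M') (hA' : A' ∈ M')
    (h0 : ∀ v ∈ ({i, j, k, l} : Finset (Fin 10)), A (zz v) = 0)
    (h0' : ∀ v ∈ ({i, j, k, l} : Finset (Fin 10)), A' (zz v) = 0) (hg : A gg = 1)
    (hg' : A' gg = 1) {e : E 12} (he : A e = -A' e) : A e = 0 := by
  obtain ⟨Z, hZ, z0, z1, z2, z3⟩ := h.sw.om.elim2 hA (h.sw.om.neg _ hA') (e := gg)
    (by rw [hg]; decide) (by rw [hg, hg'])
  have hI := weak_indep h.sw.om MM_isOM h.wk (MM_indep (NN_indep hc h2))
  have h5 := h.vanish hI (by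
    rw [Finset.card_insert_of_notMem, Finset.card_image_of_injective _ zz_inj, hc]
    intro h3
    obtain ⟨v, -, hv⟩ := Finset.mem_image.1 h3
    exact zz_ne_gg v hv) hZ (by
    intro f hf
    rcases Finset.mem_insert.1 hf with rfl | hf
    · exact z0
    · obtain ⟨v, hv, rfl⟩ := Finset.mem_image.1 hf
      rw [z2 _ (h0 v hv), h0' v hv]
      rfl) e
  rw [z1 e he] at h5
  exact h5

theorem Pre.law (h : Pre M') {Yi Yk : SV (E 12)} {i j j' k l : Fin 10} (hYi : Yi ∈ M')
    (hYk : Yk ∈ M') (hij : i ≠ j) (hij' : i ≠ j') (hjj' : j ≠ j') (hkl : k ≠ l) (sij : same i j)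
    (sij' : same i j') (nik : ¬ same i k) (nil : ¬ same i l) (i0 : Yi (zz i) = 0)
    (i1 : ∀ y, ¬ same i y → Yi (zz y) = 0) (ig : Yi gg = 1) (inz : Yi (zz j) ≠ 0)
    (inz' : Yi (zz j') ≠ 0) (k0 : Yk (zz k) = 0) (k1 : ∀ y, ¬ same k y → Yk (zz y) = 0)
    (kg : Yk gg = 1) (knz : Yk (zz l) ≠ 0)
    (h1 : Yi (zz j') = -(Yi (zz j) * chi i k l j * chi i k l j')) :
    Yi (zz j') = -(Yk (zz l) * chi i j k l * chi i j k j') := by
  have d1 : i ≠ k := fun h => nik (h ▸ Iff.rfl)
  have d2 : i ≠ l := fun h => nil (h ▸ Iff.rfl)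
  have d3 : j ≠ k := fun h => nik (h ▸ sij)
  have d4 : j ≠ l := fun h => nil (h ▸ sij)
  have d5 : j' ≠ k := fun h => nik (h ▸ sij')
  have d6 : j' ≠ l := fun h => nil (h ▸ sij')
  have skl : same k l := by unfold same at *; tauto
  have c1 : chi i k l j ≠ 0 := chi_ne _ _ _ _ d1 d2 hkl hij.symm d3 d4 (fun h => nik h.1)
  have c2 : chi i k l j' ≠ 0 := chi_ne _ _ _ _ d1 d2 hkl hij'.symm d5 d6 (fun h => nik h.1)
  have c3 : chi i j k l ≠ 0 := chi_ne _ _ _ _ hij d1 d3 d2.symm d4.symm hkl.symm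
    (fun h => nik h.2.1)
  have c4 : chi i j k j' ≠ 0 := chi_ne _ _ _ _ hij d1 d3 hij'.symm hjj'.symm d5
    (fun h => nik h.2.1)
  obtain ⟨Z, hZ, z1, z2, z3, z4, z5⟩ := h.lift (x := i) (y := k) (z := l) (w := j)
    (card4 d1 d2 hij hkl d3.symm d4.symm) ⟨i, by simp, k, by simp, nik⟩
  obtain ⟨Z', hZ', y1, y2, y3, y4, y5⟩ := h.lift (x := i) (y := j) (z := k) (w := l)
    (card4 hij d1 d2 d3 d4 hkl) ⟨i, by simp, k, by simp, nik⟩
  have ezj := z5 j c1
  have ezj' := z5 j' c2
  have eyl := y5 l c3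
  have eyj' := y5 j' c4
  obtain ⟨A, hA, a0, a1, a2, a3⟩ := h.sw.om.elimS hYi hZ (e := zz j) inz (by rw [ezj]; exact c1)
  obtain ⟨A', hA', b0, b1, b2, b3⟩ := h.sw.om.elimS hYk hZ' (e := zz l) knz
    (by rw [eyl]; exact c3)
  have eA : A (zz j') = Yi (zz j') := a1 _ (by rw [ezj, ezj']; exact h1)
  have eA' : A' (zz j') = -(Yk (zz l) * chi i j k l * chi i j k j') := by
    have h3 : ¬ same k j' := by unfold same at *; tauto
    rw [b2 _ (k1 j' h3), eyl, eyj']
  have hzA : ∀ v ∈ ({i, j, k, l} : Finset (Fin 10)), A (zz v) = 0 := by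
    intro v hv
    simp only [Finset.mem_insert, Finset.mem_singleton] at hv
    rcases hv with rfl | rfl | rfl | rfl
    · rw [a3 _ z1, i0]
    · exact a0
    · rw [a3 _ z2, i1 _ nik]
    · rw [a3 _ z3, i1 _ nil]
  have hki : ¬ same k i := by unfold same at *; tauto
  have hkj : ¬ same k j := by unfold same at *; tauto
  have hzA' : ∀ v ∈ ({i, j, k, l} : Finset (Fin 10)), A' (zz v) = 0 := by
    intro v hv
    simp only [Finset.mem_insert, Finset.mem_singleton] at hv
    rcases hv with rfl | rfl | rfl | rfl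
    · rw [b3 _ y1, k1 _ hki]
    · rw [b3 _ y2, k1 _ hkj]
    · rw [b3 _ y3, k0]
    · exact b0
  rw [← eA'] at ⊢
  rw [← eA]
  by_contra hne
  have h5 : A (zz j') = -A' (zz j') := by
    have h6 : A (zz j') ≠ 0 := by rw [eA]; exact inz'
    have h7 : A' (zz j') ≠ 0 := by
      rw [eA']
      revert knz c3 c4
      generalize Yk (zz l) = a
      generalize chi i j k l = b
      generalize chi i j k j' = c
      revert a b c
      decide
    revert hne h6 h7
    generalize A (zz j') = a
    generalize A' (zz j') = b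
    revert a b
    decide
  have h6 := h.cmp (card4 hij d1 d2 d3 d4 hkl) ⟨i, by simp, k, by simp, nik⟩ hA hA' hzA hzA'
    (by rw [a3 _ z4, ig]) (by rw [b3 _ y4, kg]) h5
  rw [eA] at h6
  exact inz' h6

/-- the star laws -/
structure Laws (D : Fin 10 → Fin 10 → SignType) : Prop where
  nz : ∀ x y, same x y → x ≠ y → D x y ≠ 0
  law : ∀ i j j' k l, i ≠ j → i ≠ j' → j ≠ j' → k ≠ l → same i j → same i j' → ¬ same i k →
    ¬ same i l → D i j' = -(D i j * chi i k l j * chi i k l j') →
    D i j' = -(D k l * chi i j k l * chi i j k j')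

theorem Pre.laws (h : Pre M') : ∃ D, Laws D := by
  choose Y hY a b c d using h.exists_star
  refine ⟨fun x y => Y x (zz y), fun x y hs hne => d x y hs hne, ?_⟩
  intro i j j' k l hij hij' hjj' hkl sij sij' nik nil h1
  have skl : same k l := by unfold same at *; tauto
  exact h.law (hY i) (hY k) hij hij' hjj' hkl sij sij' nik nil (a i) (b i) (c i) (d i j sij hij)
    (d i j' sij' hij') (a k) (b k) (c k) (d k l skl hkl) h1

variable {D : Fin 10 → Fin 10 → SignType}

theorem Laws.pm (hD : Laws D) {x y : Fin 10} (h : same x y ∧ x ≠ y) : D x y = 1 ∨ D x y = -1 := by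
  have := hD.nz x y h.1 h.2
  revert this
  generalize D x y = a
  revert a
  decide

/-- the values `s, t, u` of `D i j, D i j', D k l` violate a star law -/
def bad (i j j' k l : Fin 10) (s t u : SignType) : Prop :=
  i ≠ j ∧ i ≠ j' ∧ j ≠ j' ∧ k ≠ l ∧ same i j ∧ same i j' ∧ ¬ same i k ∧ ¬ same i l ∧
    t = -(s * chi i k l j * chi i k l j') ∧ t ≠ -(u * chi i j k l * chi i j k j')

instance (i j j' k l : Fin 10) (s t u : SignType) : Decidable (bad i j j' k l s t u) := by
  unfold bad
  infer_instance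

theorem Laws.use (hD : Laws D) {i j j' k l : Fin 10} {s t u : SignType}
    (hb : bad i j j' k l s t u) (h1 : D i j = s) (h2 : D i j' = t) (h3 : D k l = u) : False := by
  obtain ⟨e1, e2, e3, e4, e5, e6, e7, e8, e9, e10⟩ := hb
  apply e10
  rw [← h1, ← h2] at e9
  have := hD.law i j j' k l e1 e2 e3 e4 e5 e6 e7 e8 e9
  rw [h2, h3] at this
  exact this

/-- the star laws are contradictory -/
theorem Laws.false (hD : Laws D) : False := by
  rcases hD.pm (x := 6) (y := 7) (by decide) with d67 | d67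
  · rcases hD.pm (x := 4) (y := 0) (by decide) with d40 | d40
    · have d43 : D 4 3 = -1 := (hD.pm (x := 4) (y := 3) (by decide)).resolve_left fun h =>
        hD.use (i := 4) (j := 0) (j' := 3) (k := 6) (l := 7) (s := 1) (t := 1) (u := 1) (by decide +kernel) d40 h d67
      have d68 : D 6 8 = 1 := (hD.pm (x := 6) (y := 8) (by decide)).resolve_right fun h =>
        hD.use (i := 6) (j := 8) (j' := 7) (k := 4) (l := 0) (s := -1) (t := 1) (u := 1) (by decide +kernel) h d67 d40
      have d24 : D 2 4 = 1 := (hD.pm (x := 2) (y := 4) (by decide)).resolve_right fun h =>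
        hD.use (i := 6) (j := 8) (j' := 7) (k := 2) (l := 4) (s := 1) (t := 1) (u := -1) (by decide +kernel) d68 d67 h
      have d23 : D 2 3 = 1 := (hD.pm (x := 2) (y := 3) (by decide)).resolve_right fun h =>
        hD.use (i := 6) (j := 7) (j' := 8) (k := 2) (l := 3) (s := 1) (t := 1) (u := -1) (by decide +kernel) d67 d68 h
      have d89 : D 8 9 = -1 := (hD.pm (x := 8) (y := 9) (by decide)).resolve_left fun h =>
        hD.use (i := 2) (j := 4) (j' := 3) (k := 8) (l := 9) (s := 1) (t := 1) (u := 1) (by decide +kernel) d24 d23 h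
      exact hD.use (i := 4) (j := 0) (j' := 3) (k := 8) (l := 9) (s := 1) (t := -1) (u := -1) (by decide +kernel) d40 d43 d89
    · have d41 : D 4 1 = -1 := (hD.pm (x := 4) (y := 1) (by decide)).resolve_left fun h =>
        hD.use (i := 4) (j := 1) (j' := 0) (k := 6) (l := 7) (s := 1) (t := -1) (u := 1) (by decide +kernel) h d40 d67
      have d65 : D 6 5 = -1 := (hD.pm (x := 6) (y := 5) (by decide)).resolve_left fun h =>
        hD.use (i := 4) (j := 1) (j' := 0) (k := 6) (l := 5) (s := -1) (t := -1) (u := 1) (by decide +kernel) d41 d40 h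
      have d10 : D 1 0 = 1 := (hD.pm (x := 1) (y := 0) (by decide)).resolve_right fun h =>
        hD.use (i := 6) (j := 5) (j' := 7) (k := 1) (l := 0) (s := -1) (t := 1) (u := -1) (by decide +kernel) d65 d67 h
      have d12 : D 1 2 = 1 := (hD.pm (x := 1) (y := 2) (by decide)).resolve_right fun h =>
        hD.use (i := 6) (j := 5) (j' := 7) (k := 1) (l := 2) (s := -1) (t := 1) (u := -1) (by decide +kernel) d65 d67 h
      have d87 : D 8 7 = 1 := (hD.pm (x := 8) (y := 7) (by decide)).resolve_right fun h =>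
        hD.use (i := 1) (j := 0) (j' := 2) (k := 8) (l := 7) (s := 1) (t := 1) (u := -1) (by decide +kernel) d10 d12 h
      have d43 : D 4 3 = 1 := (hD.pm (x := 4) (y := 3) (by decide)).resolve_right fun h =>
        hD.use (i := 4) (j := 3) (j' := 1) (k := 8) (l := 7) (s := -1) (t := -1) (u := 1) (by decide +kernel) h d41 d87
      have d59 : D 5 9 = 1 := (hD.pm (x := 5) (y := 9) (by decide)).resolve_right fun h =>
        hD.use (i := 1) (j := 0) (j' := 2) (k := 5) (l := 9) (s := 1) (t := 1) (u := -1) (by decide +kernel) d10 d12 h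
      exact hD.use (i := 4) (j := 3) (j' := 0) (k := 5) (l := 9) (s := 1) (t := -1) (u := 1) (by decide +kernel) d43 d40 d59
  · rcases hD.pm (x := 1) (y := 2) (by decide) with d12 | d12
    · have d65 : D 6 5 = -1 := (hD.pm (x := 6) (y := 5) (by decide)).resolve_left fun h =>
        hD.use (i := 6) (j := 5) (j' := 7) (k := 1) (l := 2) (s := 1) (t := -1) (u := 1) (by decide +kernel) h d67 d12
      have d34 : D 3 4 = -1 := (hD.pm (x := 3) (y := 4) (by decide)).resolve_left fun h =>
        hD.use (i := 6) (j := 5) (j' := 7) (k := 3) (l := 4) (s := -1) (t := -1) (u := 1) (by decide +kernel) d65 d67 h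
      have d04 : D 0 4 = 1 := (hD.pm (x := 0) (y := 4) (by decide)).resolve_right fun h =>
        hD.use (i := 6) (j := 7) (j' := 5) (k := 0) (l := 4) (s := -1) (t := -1) (u := -1) (by decide +kernel) d67 d65 h
      have d02 : D 0 2 = 1 := (hD.pm (x := 0) (y := 2) (by decide)).resolve_right fun h =>
        hD.use (i := 0) (j := 2) (j' := 4) (k := 6) (l := 7) (s := -1) (t := 1) (u := -1) (by decide +kernel) h d04 d67
      have d98 : D 9 8 = 1 := (hD.pm (x := 9) (y := 8) (by decide)).resolve_right fun h =>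
        hD.use (i := 0) (j := 4) (j' := 2) (k := 9) (l := 8) (s := 1) (t := 1) (u := -1) (by decide +kernel) d04 d02 h
      have d32 : D 3 2 = -1 := (hD.pm (x := 3) (y := 2) (by decide)).resolve_left fun h =>
        hD.use (i := 3) (j := 2) (j' := 4) (k := 9) (l := 8) (s := 1) (t := -1) (u := 1) (by decide +kernel) h d34 d98
      exact hD.use (i := 3) (j := 2) (j' := 4) (k := 6) (l := 7) (s := -1) (t := -1) (u := -1) (by decide +kernel) d32 d34 d67
    · have d10 : D 1 0 = -1 := (hD.pm (x := 1) (y := 0) (by decide)).resolve_left fun h =>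
        hD.use (i := 1) (j := 0) (j' := 2) (k := 6) (l := 7) (s := 1) (t := -1) (u := -1) (by decide +kernel) h d12 d67
      have d59 : D 5 9 = -1 := (hD.pm (x := 5) (y := 9) (by decide)).resolve_left fun h =>
        hD.use (i := 1) (j := 2) (j' := 0) (k := 5) (l := 9) (s := -1) (t := -1) (u := 1) (by decide +kernel) d12 d10 h
      have d57 : D 5 7 = -1 := (hD.pm (x := 5) (y := 7) (by decide)).resolve_left fun h =>
        hD.use (i := 5) (j := 9) (j' := 7) (k := 1) (l := 2) (s := -1) (t := 1) (u := -1) (by decide +kernel) d59 h d12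
      have d34 : D 3 4 = -1 := (hD.pm (x := 3) (y := 4) (by decide)).resolve_left fun h =>
        hD.use (i := 5) (j := 7) (j' := 9) (k := 3) (l := 4) (s := -1) (t := -1) (u := 1) (by decide +kernel) d57 d59 h
      have d32 : D 3 2 = 1 := (hD.pm (x := 3) (y := 2) (by decide)).resolve_right fun h =>
        hD.use (i := 3) (j := 4) (j' := 2) (k := 6) (l := 7) (s := -1) (t := -1) (u := -1) (by decide +kernel) d34 h d67
      have d78 : D 7 8 = 1 := (hD.pm (x := 7) (y := 8) (by decide)).resolve_right fun h =>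
        hD.use (i := 1) (j := 0) (j' := 2) (k := 7) (l := 8) (s := -1) (t := -1) (u := -1) (by decide +kernel) d10 d12 h
      exact hD.use (i := 3) (j := 4) (j' := 2) (k := 7) (l := 8) (s := -1) (t := 1) (u := 1) (by decide +kernel) d34 d32 d78

end Pool.Agent.Sweep
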